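import Mathlib

/-! Connected components of edge sets and the polymer bound. -/

namespace Pool.Agent.H29.Thresh

open Finset

variable {V : Type*} [DecidableEq V]

/-- The vertices covered by an edge set. -/
def vs (T : Finset (Sym2 V)) : Finset V := T.biUnion Sym2.toFinset

lemma mem_vs {T : Finset (Sym2 V)} {x : V} : x ∈ vs T ↔ ∃ e ∈ T, x ∈ e := by
  simp [vs]

lemma vs_mono {S T : Finset (Sym2 V)} (h : S ⊆ T) : vs S ⊆ vs T := by
  intro x hx
  rw [mem_vs] at hx ⊢
  obtain ⟨e, he, hx⟩ := hx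
  exact ⟨e, h he, hx⟩

lemma vs_union (S T : Finset (Sym2 V)) : vs (S ∪ T) = vs S ∪ vs T := by
  ext x
  simp only [mem_vs, mem_union]
  constructor
  · rintro ⟨e, he | he, hx⟩
    · exact Or.inl ⟨e, he, hx⟩
    · exact Or.inr ⟨e, he, hx⟩
  · rintro (⟨e, he, hx⟩ | ⟨e, he, hx⟩)
    · exact ⟨e, Or.inl he, hx⟩
    · exact ⟨e, Or.inr he, hx⟩

/-- `S` is a union of components of `T`. -/
def ClosedIn (T S : Finset (Sym2 V)) : Prop :=
  S ⊆ T ∧ ∀ e ∈ S, ∀ f ∈ T, (∃ x, x ∈ e ∧ x ∈ f) → f ∈ S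

/-- Connected nonempty edge set. -/
def Conn (S : Finset (Sym2 V)) : Prop :=
  S.Nonempty ∧ ∀ R : Finset (Sym2 V), R.Nonempty → ClosedIn S R → R = S

open Classical in
/-- The set of components of an edge set. -/
noncomputable def comps (T : Finset (Sym2 V)) : Finset (Finset (Sym2 V)) :=
  T.powerset.filter (fun S => ClosedIn T S ∧ Conn S)

lemma mem_comps {T S : Finset (Sym2 V)} : S ∈ comps T ↔ ClosedIn T S ∧ Conn S := by
  classical
  unfold comps
  rw [mem_filter, mem_powerset]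
  exact ⟨fun h => h.2, fun h => ⟨h.1.1, h⟩⟩

lemma exists_comp {T : Finset (Sym2 V)} {e : Sym2 V} (he : e ∈ T) : ∃ S ∈ comps T, e ∈ S := by
  classical
  obtain ⟨S, hS, hmin⟩ := Finset.exists_min_image
    (T.powerset.filter (fun S => ClosedIn T S ∧ e ∈ S)) (fun S => S.card)
    ⟨T, by
      rw [mem_filter, mem_powerset]
      exact ⟨le_rfl, ⟨le_rfl, fun _ _ f hf _ => hf⟩, he⟩⟩
  rw [mem_filter, mem_powerset] at hS
  obtain ⟨hST, hScl, heS⟩ := hS
  refine ⟨S, mem_comps.2 ⟨hScl, ⟨⟨e, heS⟩, ?_⟩⟩, heS⟩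
  intro R hR hRS
  by_cases heR : e ∈ R
  · have h1 := hmin R (by
      rw [mem_filter, mem_powerset]
      refine ⟨hRS.1.trans hST, ⟨hRS.1.trans hST, ?_⟩, heR⟩
      intro e' he' f hf hsh
      exact hRS.2 e' he' f (hScl.2 e' (hRS.1 he') f hf hsh) hsh)
    exact Finset.eq_of_subset_of_card_le hRS.1 h1
  · exfalso
    have h1 := hmin (S \ R) (by
      rw [mem_filter, mem_powerset]
      refine ⟨Finset.sdiff_subset.trans hST, ⟨Finset.sdiff_subset.trans hST, ?_⟩,
        mem_sdiff.2 ⟨heS, heR⟩⟩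
      intro e' he' f hf hsh
      rw [mem_sdiff] at he' ⊢
      refine ⟨hScl.2 e' he'.1 f hf hsh, ?_⟩
      intro hfR
      obtain ⟨x, hx1, hx2⟩ := hsh
      exact he'.2 (hRS.2 f hfR e' he'.1 ⟨x, hx2, hx1⟩))
    have h2 : (S \ R).card < S.card := by
      rw [Finset.card_sdiff_of_subset hRS.1]
      have := hR.card_pos
      have := card_le_card hRS.1
      omega
    omega

lemma comps_unique {T S S' : Finset (Sym2 V)} (hS : S ∈ comps T) (hS' : S' ∈ comps T) {x : V}
    (hx : x ∈ vs S) (hx' : x ∈ vs S') : S = S' := by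
  rw [mem_comps] at hS hS'
  rw [mem_vs] at hx hx'
  obtain ⟨e, he, hxe⟩ := hx
  obtain ⟨f, hf, hxf⟩ := hx'
  have hfS : f ∈ S := hS.1.2 e he f (hS'.1.1 hf) ⟨x, hxe, hxf⟩
  have hne : (S ∩ S').Nonempty := ⟨f, mem_inter.2 ⟨hfS, hf⟩⟩
  have h1 : S ∩ S' = S := by
    apply hS.2.2 _ hne
    refine ⟨Finset.inter_subset_left, ?_⟩
    intro e' he' f' hf' hsh
    rw [mem_inter] at he' ⊢
    exact ⟨hf', hS'.1.2 e' he'.2 f' (hS.1.1 hf') hsh⟩
  have h2 : S ∩ S' = S' := by
    apply hS'.2.2 _ hne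
    refine ⟨Finset.inter_subset_right, ?_⟩
    intro e' he' f' hf' hsh
    rw [mem_inter] at he' ⊢
    exact ⟨hS.1.2 e' he'.1 f' (hS'.1.1 hf') hsh, hf'⟩
  exact h1.symm.trans h2

lemma comps_vdisj {T S S' : Finset (Sym2 V)} (hS : S ∈ comps T) (hS' : S' ∈ comps T)
    (hne : S ≠ S') : Disjoint (vs S) (vs S') := by
  rw [Finset.disjoint_left]
  intro x hx hx'
  exact hne (comps_unique hS hS' hx hx')

lemma disj_of_vdisj {S S' : Finset (Sym2 V)} (h : Disjoint (vs S) (vs S')) :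
    Disjoint S S' := by
  rw [Finset.disjoint_left]
  intro e he he'
  induction e using Sym2.ind with
  | _ x y =>
    have h1 : x ∈ vs S := mem_vs.2 ⟨s(x, y), he, by simp⟩
    have h2 : x ∈ vs S' := mem_vs.2 ⟨s(x, y), he', by simp⟩
    exact (Finset.disjoint_left.1 h) h1 h2

lemma comps_sub {T S : Finset (Sym2 V)} (hS : S ∈ comps T) : S ⊆ T := (mem_comps.1 hS).1.1

lemma comps_conn {T S : Finset (Sym2 V)} (hS : S ∈ comps T) : Conn S := (mem_comps.1 hS).2

lemma comps_biUnion (T : Finset (Sym2 V)) : (comps T).biUnion id = T := by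
  ext e
  simp only [mem_biUnion, id]
  constructor
  · rintro ⟨S, hS, he⟩
    exact comps_sub hS he
  · intro he
    exact exists_comp he

lemma comps_pd (T : Finset (Sym2 V)) :
    Set.PairwiseDisjoint (comps T : Set (Finset (Sym2 V))) id := by
  intro S hS S' hS' hne
  exact disj_of_vdisj (comps_vdisj (mem_coe.1 hS) (mem_coe.1 hS') hne)

lemma card_eq_comps (T : Finset (Sym2 V)) : T.card = ∑ S ∈ comps T, S.card := by
  conv_lhs => rw [← comps_biUnion T]
  rw [Finset.card_biUnion]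
  · rfl
  · intro S hS S' hS' hne
    exact disj_of_vdisj (comps_vdisj hS hS' hne)

lemma vs_eq_comps (T : Finset (Sym2 V)) : vs T = (comps T).biUnion vs := by
  ext x
  simp only [mem_biUnion, mem_vs]
  constructor
  · rintro ⟨e, he, hx⟩
    obtain ⟨S, hS, heS⟩ := exists_comp he
    exact ⟨S, hS, e, heS, hx⟩
  · rintro ⟨S, hS, e, he, hx⟩
    exact ⟨e, comps_sub hS he, hx⟩

lemma vs_card_eq_comps (T : Finset (Sym2 V)) : (vs T).card = ∑ S ∈ comps T, (vs S).card := by
  rw [vs_eq_comps, Finset.card_biUnion]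
  intro S hS S' hS' hne
  exact comps_vdisj hS hS' hne

lemma comps_injective : Function.Injective (comps (V := V)) := by
  intro T T' h
  rw [← comps_biUnion T, ← comps_biUnion T', h]

/-- The polymer bound. -/
lemma polymer (Ts Ss : Finset (Finset (Sym2 V))) (g : Finset (Sym2 V) → ℝ) (hg : ∀ S, 0 ≤ g S)
    (h : ∀ T ∈ Ts, comps T ⊆ Ss) :
    ∑ T ∈ Ts, ∏ S ∈ comps T, g S ≤ Real.exp (∑ S ∈ Ss, g S) := by
  have h1 : ∑ T ∈ Ts, ∏ S ∈ comps T, g S ≤ ∑ C ∈ Ss.powerset, ∏ S ∈ C, g S := by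
    rw [← Finset.sum_image (f := fun C => ∏ S ∈ C, g S) (s := Ts) (g := comps)
      (fun _ _ _ _ h => comps_injective h)]
    apply Finset.sum_le_sum_of_subset_of_nonneg
    · intro C hC
      rw [mem_image] at hC
      obtain ⟨T, hT, rfl⟩ := hC
      exact mem_powerset.2 (h T hT)
    · intro C _ _
      exact Finset.prod_nonneg (fun S _ => hg S)
  refine h1.trans ?_
  rw [← Finset.prod_one_add, Real.exp_sum]
  apply Finset.prod_le_prod
  · intro S _
    linarith [hg S]
  · intro S _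
    linarith [Real.add_one_le_exp (g S)]

lemma polymer' (Ts Ss : Finset (Finset (Sym2 V))) (g : Finset (Sym2 V) → ℝ) (hg : ∀ S, 0 ≤ g S)
    (h : ∀ T ∈ Ts, comps T ⊆ Ss) (hne : ∅ ∉ Ts) :
    ∑ T ∈ Ts, ∏ S ∈ comps T, g S ≤ Real.exp (∑ S ∈ Ss, g S) - 1 := by
  have h0 : comps (∅ : Finset (Sym2 V)) = ∅ := by
    apply Finset.eq_empty_of_forall_notMem
    intro S hS
    have h1 := comps_sub hS
    have h2 := (comps_conn hS).1
    rw [Finset.subset_empty] at h1
    rw [h1] at h2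
    simp at h2
  have h1 := polymer (insert ∅ Ts) Ss g hg (by
    intro T hT
    rw [mem_insert] at hT
    rcases hT with rfl | hT
    · rw [h0]; simp
    · exact h T hT)
  rw [Finset.sum_insert hne, h0, Finset.prod_empty] at h1
  linarith

/-- The marker set: one edge from each component. -/
noncomputable def mark (T : Finset (Sym2 V)) : Finset (Sym2 V) :=
  (comps T).biUnion (fun S => if h : S.Nonempty then {h.choose} else ∅)

lemma mark_sub (T : Finset (Sym2 V)) : mark T ⊆ T := by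
  intro e he
  unfold mark at he
  rw [mem_biUnion] at he
  obtain ⟨S, hS, he⟩ := he
  rw [dif_pos (comps_conn hS).1, mem_singleton] at he
  rw [he]
  exact comps_sub hS (comps_conn hS).1.choose_spec

lemma mark_card_le (T : Finset (Sym2 V)) : (mark T).card ≤ (comps T).card := by
  unfold mark
  refine Finset.card_biUnion_le.trans ?_
  calc ∑ S ∈ comps T, (if h : S.Nonempty then ({h.choose} : Finset (Sym2 V)) else ∅).card
      ≤ ∑ S ∈ comps T, 1 := by
        apply Finset.sum_le_sum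
        intro S _
        split_ifs <;> simp
    _ = _ := by simp

lemma mark_meets {T S : Finset (Sym2 V)} (hS : S ∈ comps T) : ∃ e ∈ S, e ∈ mark T := by
  refine ⟨(comps_conn hS).1.choose, (comps_conn hS).1.choose_spec, ?_⟩
  unfold mark
  rw [mem_biUnion]
  refine ⟨S, hS, ?_⟩
  rw [dif_pos (comps_conn hS).1]
  simp

end Pool.Agent.H29.Thresh
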