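import Pool.Agent.H29.Thresh.Prod
import Pool.Agent.H29.Thresh.Comps

/-! The cluster (percolation) bound for connected edge sets. -/

namespace Pool.Agent.H29.Thresh

open Finset

lemma cyl {α : Type*} [DecidableEq α] {F S N : Finset α} (hS : S ⊆ F) (hN : N ⊆ F)
    (hSN : Disjoint S N) (r : ℝ) :
    ∑ A ∈ F.powerset.filter (fun A => S ⊆ A ∧ Disjoint A N), mu F r A
      = r ^ S.card * (1 - r) ^ N.card := by
  set M := F \ (S ∪ N) with hM
  have hMS : Disjoint M S := by
    rw [Finset.disjoint_left]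
    intro x hx hx'
    simp [hM, hx'] at hx
  have hMN : Disjoint M N := by
    rw [Finset.disjoint_left]
    intro x hx hx'
    simp [hM, hx'] at hx
  have hFc : F.card = S.card + N.card + M.card := by
    have h1 : (S ∪ N).card = S.card + N.card := card_union_of_disjoint hSN
    have h2 : M.card = F.card - (S ∪ N).card :=
      Finset.card_sdiff_of_subset (Finset.union_subset hS hN)
    have h3 : (S ∪ N).card ≤ F.card := card_le_card (Finset.union_subset hS hN)
    omega
  have h1 : ∑ A ∈ F.powerset.filter (fun A => S ⊆ A ∧ Disjoint A N), mu F r A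
      = ∑ A' ∈ M.powerset, mu F r (A' ∪ S) := by
    refine Finset.sum_nbij' (fun A => A \ S) (fun A' => A' ∪ S) ?_ ?_ ?_ ?_ ?_
    · intro A hA
      rw [mem_filter, mem_powerset] at hA
      rw [mem_powerset]
      intro x hx
      rw [mem_sdiff] at hx
      simp only [hM, mem_sdiff, mem_union, not_or]
      exact ⟨hA.1 hx.1, hx.2, fun h => Finset.disjoint_left.1 hA.2.2 hx.1 h⟩
    · intro A' hA'
      rw [mem_powerset] at hA'
      rw [mem_filter, mem_powerset]
      refine ⟨Finset.union_subset (hA'.trans Finset.sdiff_subset) hS,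
        Finset.subset_union_right, ?_⟩
      rw [Finset.disjoint_union_left]
      exact ⟨Finset.disjoint_of_subset_left hA' hMN, hSN⟩
    · intro A hA
      rw [mem_filter] at hA
      exact Finset.sdiff_union_of_subset hA.2.1
    · intro A' hA'
      rw [mem_powerset] at hA'
      simp only [Finset.union_sdiff_right]
      exact Finset.sdiff_eq_self_of_disjoint (Finset.disjoint_of_subset_left hA' hMS)
    · intro A hA
      rw [mem_filter] at hA
      rw [Finset.sdiff_union_of_subset hA.2.1]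
  rw [h1]
  have h2 : ∀ A' ∈ M.powerset, mu F r (A' ∪ S)
      = r ^ S.card * (1 - r) ^ N.card * (r ^ A'.card * (1 - r) ^ (M.card - A'.card)) := by
    intro A' hA'
    rw [mem_powerset] at hA'
    have hc : (A' ∪ S).card = A'.card + S.card :=
      card_union_of_disjoint (Finset.disjoint_of_subset_left hA' hMS)
    have hle := card_le_card hA'
    unfold mu
    rw [hc]
    have : F.card - (A'.card + S.card) = N.card + (M.card - A'.card) := by omega
    rw [this, pow_add, pow_add]
    ring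
  rw [Finset.sum_congr rfl h2, ← Finset.mul_sum, Finset.sum_pow_mul_eq_add_pow]
  simp

variable {V : Type*} [DecidableEq V]

open Classical in
/-- Edges of `F` outside `S` touching a vertex of `S`. -/
noncomputable def nb (F S : Finset (Sym2 V)) : Finset (Sym2 V) :=
  F.filter (fun e => e ∉ S ∧ ∃ x ∈ e, x ∈ vs S)

lemma mem_nb {F S : Finset (Sym2 V)} {e : Sym2 V} :
    e ∈ nb F S ↔ e ∈ F ∧ e ∉ S ∧ ∃ x ∈ e, x ∈ vs S := by
  classical
  unfold nb
  rw [mem_filter]

/-- An edge set `A` squeezing `S` as a cluster. -/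
lemma cluster_sub {F S S' A : Finset (Sym2 V)} (hA : A ⊆ F) (hS'A : S' ⊆ A)
    (hAN : Disjoint A (nb F S)) (hS' : Conn S') {x : V} (hx : x ∈ vs S) (hx' : x ∈ vs S') :
    S' ⊆ S := by
  have hkey : ∀ f ∈ A, (∃ y ∈ f, y ∈ vs S) → f ∈ S := by
    intro f hf hy
    by_contra hcon
    exact Finset.disjoint_left.1 hAN hf (mem_nb.2 ⟨hA hf, hcon, hy⟩)
  have h1 : S ∩ S' = S' := by
    apply hS'.2
    · rw [mem_vs] at hx'
      obtain ⟨f, hf, hxf⟩ := hx'
      exact ⟨f, mem_inter.2 ⟨hkey f (hS'A hf) ⟨x, hxf, hx⟩, hf⟩⟩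
    · refine ⟨Finset.inter_subset_right, ?_⟩
      intro e he f hf hsh
      rw [mem_inter] at he ⊢
      obtain ⟨y, hy1, hy2⟩ := hsh
      exact ⟨hkey f (hS'A hf) ⟨y, hy2, mem_vs.2 ⟨e, he.1, hy1⟩⟩, hf⟩
  rw [← h1]
  exact Finset.inter_subset_left

open Classical in
lemma cluster (F : Finset (Sym2 V)) {r : ℝ} (h0 : 0 ≤ r) (h1 : r ≤ 1) (x : V) :
    ∑ S ∈ F.powerset.filter (fun S => Conn S ∧ x ∈ vs S),
      r ^ S.card * (1 - r) ^ (nb F S).card ≤ 1 := by
  have hc : ∀ S ∈ F.powerset.filter (fun S => Conn S ∧ x ∈ vs S),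
      r ^ S.card * (1 - r) ^ (nb F S).card
        = ∑ A ∈ F.powerset.filter (fun A => S ⊆ A ∧ Disjoint A (nb F S)), mu F r A := by
    intro S hS
    rw [mem_filter, mem_powerset] at hS
    rw [cyl hS.1]
    · intro e he
      exact (mem_nb.1 he).1
    · rw [Finset.disjoint_left]
      intro e he he'
      exact (mem_nb.1 he').2.1 he
  rw [Finset.sum_congr rfl hc]
  rw [← Finset.sum_biUnion]
  · refine le_trans (Finset.sum_le_sum_of_subset_of_nonneg ?_ ?_) (sum_mu F r).le
    · intro A hA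
      rw [mem_biUnion] at hA
      obtain ⟨S, _, hA⟩ := hA
      exact (mem_filter.1 hA).1
    · intro A _ _
      exact mu_nonneg F h0 h1 A
  · intro S hS S' hS' hne
    rw [mem_coe, mem_filter, mem_powerset] at hS hS'
    rw [Function.onFun, Finset.disjoint_left]
    intro A hA hA'
    rw [mem_filter, mem_powerset] at hA hA'
    apply hne
    apply Finset.Subset.antisymm
    · exact cluster_sub hA.1 hA.2.1 hA'.2.2 hS.2.1 hS'.2.2 hS.2.2
    · exact cluster_sub hA.1 hA'.2.1 hA.2.2 hS'.2.1 hS.2.2 hS'.2.2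

/-- The hypotheses on the spanning graph, as an edge set. -/
structure Hyp [Fintype V] (d : ℕ) (F : Finset (Sym2 V)) : Prop where
  loopless : ∀ e ∈ F, ¬ e.IsDiag
  reg : ∀ x : V, (F.filter (fun e => x ∈ e)).card = d
  cut : ∀ S ⊆ F, Conn S → (vs S).card + 3 ≤ Fintype.card V →
    2 * S.card + d + 1 ≤ d * (vs S).card

/-- The deficiency `∂(S) = d v(S) - 2 |S|`. -/
def bd (d : ℕ) (S : Finset (Sym2 V)) : ℕ := d * (vs S).card - 2 * S.card

variable [Fintype V]

omit [Fintype V] in
lemma deg_sum_aux {d : ℕ} {F : Finset (Sym2 V)} (hl : ∀ e ∈ F, ¬ e.IsDiag)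
    (hr : ∀ x : V, (F.filter (fun e => x ∈ e)).card = d) {S : Finset (Sym2 V)}
    (hS : S ⊆ F) : 2 * S.card + (nb F S).card ≤ d * (vs S).card := by
  classical
  have h1 : d * (vs S).card = ∑ x ∈ vs S, (F.filter (fun e => x ∈ e)).card := by
    rw [Finset.sum_congr rfl (fun x _ => hr x)]
    simp [mul_comm]
  have h2 : ∑ x ∈ vs S, (F.filter (fun e => x ∈ e)).card
      = ∑ e ∈ F, ((vs S).filter (fun x => x ∈ e)).card := by
    have := Finset.sum_card_bipartiteAbove_eq_sum_card_bipartiteBelow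
      (r := fun (x : V) (e : Sym2 V) => x ∈ e) (s := vs S) (t := F)
    simpa only [Finset.bipartiteAbove, Finset.bipartiteBelow] using this
  have hd : Disjoint S (nb F S) := by
    rw [Finset.disjoint_left]
    intro e he he'
    exact (mem_nb.1 he').2.1 he
  have h3 : ∑ e ∈ S ∪ nb F S, ((vs S).filter (fun x => x ∈ e)).card
      ≤ ∑ e ∈ F, ((vs S).filter (fun x => x ∈ e)).card := by
    apply Finset.sum_le_sum_of_subset
    apply Finset.union_subset hS
    intro e he
    exact (mem_nb.1 he).1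
  rw [Finset.sum_union hd] at h3
  have h4 : 2 * S.card ≤ ∑ e ∈ S, ((vs S).filter (fun x => x ∈ e)).card := by
    have : ∀ e ∈ S, 2 ≤ ((vs S).filter (fun x => x ∈ e)).card := by
      intro e he
      have h5 : e.toFinset ⊆ (vs S).filter (fun x => x ∈ e) := by
        intro x hx
        rw [Sym2.mem_toFinset] at hx
        rw [mem_filter]
        exact ⟨mem_vs.2 ⟨e, he, hx⟩, hx⟩
      have h6 := card_le_card h5
      rwa [Sym2.card_toFinset_of_not_isDiag e (hl e (hS he))] at h6
    have := Finset.sum_le_sum this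
    simp only [Finset.sum_const, smul_eq_mul] at this
    linarith
  have h5 : (nb F S).card ≤ ∑ e ∈ nb F S, ((vs S).filter (fun x => x ∈ e)).card := by
    have : ∀ e ∈ nb F S, 1 ≤ ((vs S).filter (fun x => x ∈ e)).card := by
      intro e he
      obtain ⟨_, _, x, hx, hxS⟩ := mem_nb.1 he
      exact Finset.card_pos.2 ⟨x, mem_filter.2 ⟨hxS, hx⟩⟩
    have := Finset.sum_le_sum this
    simp only [Finset.sum_const, smul_eq_mul] at this
    linarith
  rw [h1, h2]
  linarith

lemma Hyp.deg_sum {d : ℕ} {F : Finset (Sym2 V)} (hF : Hyp d F) {S : Finset (Sym2 V)}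
    (hS : S ⊆ F) : 2 * S.card + (nb F S).card ≤ d * (vs S).card :=
  deg_sum_aux hF.loopless hF.reg hS

open Classical in
/-- Cluster bound in terms of the deficiency. -/
lemma Hyp.cluster {d : ℕ} {F : Finset (Sym2 V)} (hF : Hyp d F) {r : ℝ} (h0 : 0 ≤ r) (h1 : r ≤ 1)
    (x : V) :
    ∑ S ∈ F.powerset.filter (fun S => Conn S ∧ x ∈ vs S),
      r ^ S.card * (1 - r) ^ (bd d S) ≤ 1 := by
  refine le_trans (Finset.sum_le_sum ?_) (Thresh.cluster F h0 h1 x)
  intro S hS
  rw [mem_filter, mem_powerset] at hS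
  have := hF.deg_sum hS.1
  apply mul_le_mul_of_nonneg_left _ (by positivity)
  apply pow_le_pow_of_le_one (by linarith) (by linarith)
  unfold bd
  omega

end Pool.Agent.H29.Thresh
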