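import Mathlib

/-! Definitions for MP_017f7c_pr. -/

namespace Pool.Agent.H29.Thresh

open Classical

/-- Boundary vertices of a subgraph `H` of `F`: the vertices of `H` whose degree in `H` is
less than `d`. -/
def bdryVerts {V : Type} (d : ℕ) (F : SimpleGraph V) (H : F.Subgraph) : Set V :=
  {v | v ∈ H.verts ∧ (H.neighborSet v).ncard < d}

/-- Edge boundary of a subgraph `H` of `F`: the edges of `F` joining a boundary vertex of `H` to
a vertex of `F` outside `H`. -/
def edgeBdry {V : Type} (d : ℕ) (F : SimpleGraph V) (H : F.Subgraph) : Set (Sym2 V) :=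
  {e | ∃ u ∈ bdryVerts d F H, ∃ w, w ∉ H.verts ∧ F.Adj u w ∧ e = s(u, w)}

/-- The boundary condition: every subgraph with at least `3` and at most `n - 3` vertices has at
least `d + 1` boundary edges. -/
def SparseBdry {n : ℕ} (d : ℕ) (F : SimpleGraph (Fin n)) : Prop :=
  ∀ H : F.Subgraph, 3 ≤ H.verts.ncard → H.verts.ncard ≤ n - 3 →
    d + 1 ≤ (edgeBdry d F H).ncard

/-- Number of edges. -/
noncomputable def edgeNum {n : ℕ} (G : SimpleGraph (Fin n)) : ℕ := G.edgeSet.ncard

/-- The probability that the random graph `G(n,p)` contains an isomorphic copy of `F`. -/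
noncomputable def containProb {n : ℕ} (F : SimpleGraph (Fin n)) (p : ℝ) : ℝ :=
  ∑ G : SimpleGraph (Fin n),
    if F.IsContained G then p ^ edgeNum G * (1 - p) ^ (n.choose 2 - edgeNum G) else 0

/-- `p` is a critical probability of `F`: the random graph contains a copy of `F` with
probability `1/2`. -/
def IsPc {n : ℕ} (F : SimpleGraph (Fin n)) (p : ℝ) : Prop :=
  0 ≤ p ∧ p ≤ 1 ∧ containProb F p = 1 / 2

/-- `p` is the expectation threshold of `F`: the largest `p ∈ [0,1]` for which there is a family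
`Q` of graphs with `∑_{G ∈ Q} p^{|E(G)|} ≤ 1/2` such that every graph containing a copy of `F`
contains a member of `Q`. -/
def IsPe {n : ℕ} (F : SimpleGraph (Fin n)) (p : ℝ) : Prop :=
  IsGreatest {p : ℝ | 0 ≤ p ∧ p ≤ 1 ∧ ∃ Q : Finset (SimpleGraph (Fin n)),
    ∑ G ∈ Q, p ^ edgeNum G ≤ 1 / 2 ∧
      ∀ G : SimpleGraph (Fin n), F.IsContained G → ∃ G' ∈ Q, G' ≤ G} p

end Pool.Agent.H29.Thresh
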