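import Pool.Agent.H29.Thresh.Link

/-! Existence of the thresholds and the final limit. -/

namespace Pool.Agent.H29.Thresh

open Finset Filter Topology Classical

variable {n : ℕ}

/-- Indicator of containing a copy. -/
noncomputable def ind (F : SimpleGraph (Fin n)) (U : Finset (Sym2 (Fin n))) : ℝ :=
  if ∃ σ : Equiv.Perm (Fin n), act σ (ef F) ⊆ U then 1 else 0

lemma ind_nonneg (F : SimpleGraph (Fin n)) (U : Finset (Sym2 (Fin n))) : 0 ≤ ind F U := by
  unfold ind; split_ifs <;> norm_num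

lemma ind_mono (F : SimpleGraph (Fin n)) {A B : Finset (Sym2 (Fin n))} (h : A ⊆ B) :
    ind F A ≤ ind F B := by
  unfold ind
  by_cases h1 : ∃ σ : Equiv.Perm (Fin n), act σ (ef F) ⊆ A
  · have h2 : ∃ σ : Equiv.Perm (Fin n), act σ (ef F) ⊆ B := by
      obtain ⟨σ, hσ⟩ := h1
      exact ⟨σ, hσ.trans h⟩
    rw [if_pos h1, if_pos h2]
  · rw [if_neg h1]
    split_ifs <;> norm_num

lemma containProb_eq' (F : SimpleGraph (Fin n)) (p : ℝ) :
    containProb F p = ∑ U ∈ (DD n).powerset, mu (DD n) p U * ind F U := containProb_eq F p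

lemma containProb_continuous (F : SimpleGraph (Fin n)) : Continuous (containProb F) := by
  unfold containProb
  apply continuous_finsetSum
  intro G _
  split_ifs
  · fun_prop
  · fun_prop

lemma containProb_strictMono {F : SimpleGraph (Fin n)} (hF : (ef F).Nonempty) {p p' : ℝ}
    (hp : 0 ≤ p) (hpp : p < p') (hp' : p' ≤ 1) : containProb F p < containProb F p' := by
  rw [containProb_eq', containProb_eq']
  have hp1 : p < 1 := by linarith
  have h1p : 0 < 1 - p := by linarith
  set q : ℝ := (p' - p) / (1 - p) with hq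
  have hq0 : 0 < q := div_pos (by linarith) h1p
  have hq1 : q ≤ 1 := by
    rw [hq, div_le_one h1p]; linarith
  have hqe : p + q - p * q = p' := by
    rw [hq]
    field_simp
    ring
  rw [← hqe, ← conv]
  have h1 : ∑ U ∈ (DD n).powerset, mu (DD n) p U * ind F U
      = ∑ V ∈ (DD n).powerset, ∑ W ∈ (DD n).powerset,
        mu (DD n) p V * mu (DD n) q W * ind F V := by
    apply Finset.sum_congr rfl
    intro V _
    rw [← Finset.sum_mul, ← Finset.mul_sum, sum_mu, mul_one]
  rw [h1]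
  have hnn : ∀ V W, 0 ≤ mu (DD n) p V * mu (DD n) q W := fun V W =>
    mul_nonneg (mu_nonneg _ hp hp1.le V) (mu_nonneg _ hq0.le hq1 W)
  apply Finset.sum_lt_sum
  · intro V _
    apply Finset.sum_le_sum
    intro W _
    exact mul_le_mul_of_nonneg_left (ind_mono F Finset.subset_union_left) (hnn V W)
  · refine ⟨∅, by simp, ?_⟩
    apply Finset.sum_lt_sum
    · intro W _
      exact mul_le_mul_of_nonneg_left (ind_mono F Finset.subset_union_left) (hnn ∅ W)
    · refine ⟨DD n, by simp, ?_⟩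
      have e1 : ind F ∅ = 0 := by
        unfold ind
        rw [if_neg]
        rintro ⟨σ, hσ⟩
        obtain ⟨e, he⟩ := hF
        have := hσ (mem_act.2 ⟨e, he, rfl⟩)
        simp at this
      have e2 : ind F (∅ ∪ DD n) = 1 := by
        unfold ind
        rw [if_pos]
        exact ⟨1, by rw [act_one, Finset.empty_union]; exact ef_sub F⟩
      rw [e1, e2, mul_zero, mul_one]
      unfold mu
      simp only [card_empty, pow_zero, one_mul, Nat.sub_zero, Nat.sub_self, mul_one]
      positivity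

lemma containProb_zero {F : SimpleGraph (Fin n)} (hF : (ef F).Nonempty) :
    containProb F 0 = 0 := by
  rw [containProb_eq']
  apply Finset.sum_eq_zero
  intro U _
  by_cases hU : U = ∅
  · subst hU
    have e1 : ind F ∅ = 0 := by
      unfold ind
      rw [if_neg]
      rintro ⟨σ, hσ⟩
      obtain ⟨e, he⟩ := hF
      have := hσ (mem_act.2 ⟨e, he, rfl⟩)
      simp at this
    rw [e1, mul_zero]
  · have : U.card ≠ 0 := fun h => hU (card_eq_zero.1 h)
    unfold mu
    rw [zero_pow this]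
    simp

lemma containProb_one (F : SimpleGraph (Fin n)) : containProb F 1 = 1 := by
  rw [containProb_eq', Finset.sum_eq_single (DD n)]
  · have e2 : ind F (DD n) = 1 := by
      unfold ind
      rw [if_pos]
      exact ⟨1, by rw [act_one]; exact ef_sub F⟩
    rw [e2]
    unfold mu
    simp
  · intro U hU hne
    have h1 : U.card < (DD n).card :=
      card_lt_card (Finset.ssubset_iff_subset_ne.2 ⟨mem_powerset.1 hU, hne⟩)
    unfold mu
    rw [sub_self, zero_pow (by omega)]
    simp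
  · intro h
    simp at h

lemma exists_pc {F : SimpleGraph (Fin n)} (hF : (ef F).Nonempty) :
    ∃ p, IsPc F p ∧ ∀ p', IsPc F p' → p' = p := by
  have hc : ContinuousOn (containProb F) (Set.Icc 0 1) := (containProb_continuous F).continuousOn
  have hivt := intermediate_value_Icc (zero_le_one' ℝ) hc
  rw [containProb_zero hF, containProb_one] at hivt
  obtain ⟨p, hp, hpe⟩ := hivt (show (1 / 2 : ℝ) ∈ Set.Icc 0 1 by norm_num)
  refine ⟨p, ⟨hp.1, hp.2, hpe⟩, ?_⟩
  rintro p' ⟨h0, h1, he⟩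
  rcases lt_trichotomy p' p with h | h | h
  · have := containProb_strictMono hF h0 h hp.2
    rw [he, hpe] at this
    exact absurd this (lt_irrefl _)
  · exact h
  · have := containProb_strictMono hF hp.1 h h1
    rw [he, hpe] at this
    exact absurd this (lt_irrefl _)

/-- The admissible set in the definition of the expectation threshold. -/
def peSet (F : SimpleGraph (Fin n)) : Set ℝ :=
  {p : ℝ | 0 ≤ p ∧ p ≤ 1 ∧ ∃ Q : Finset (SimpleGraph (Fin n)),
    ∑ G ∈ Q, p ^ edgeNum G ≤ 1 / 2 ∧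
      ∀ G : SimpleGraph (Fin n), F.IsContained G → ∃ G' ∈ Q, G' ≤ G}

lemma exists_pe {F : SimpleGraph (Fin n)} (hF : (ef F).Nonempty) : ∃ p, IsPe F p := by
  have hunion : peSet F = ⋃ Q ∈ {Q : Finset (SimpleGraph (Fin n)) |
      ∀ G : SimpleGraph (Fin n), F.IsContained G → ∃ G' ∈ Q, G' ≤ G},
      (Set.Icc (0 : ℝ) 1 ∩ {p : ℝ | ∑ G ∈ Q, p ^ edgeNum G ≤ 1 / 2}) := by
    ext p
    simp only [peSet, Set.mem_ofPred_eq, Set.mem_iUnion, Set.mem_inter_iff, Set.mem_Icc,
      exists_prop]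
    constructor
    · rintro ⟨h0, h1, Q, hQ1, hQ2⟩
      exact ⟨Q, hQ2, ⟨h0, h1⟩, hQ1⟩
    · rintro ⟨Q, hQ2, ⟨h0, h1⟩, hQ1⟩
      exact ⟨h0, h1, Q, hQ1, hQ2⟩
  have hcomp : IsCompact (peSet F) := by
    rw [hunion]
    apply Set.Finite.isCompact_biUnion (Set.toFinite _)
    intro Q _
    apply isCompact_Icc.inter_right
    apply isClosed_le _ continuous_const
    fun_prop
  have hne : (peSet F).Nonempty := by
    refine ⟨0, le_rfl, zero_le_one, univ.filter (fun G => F.IsContained G), ?_, ?_⟩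
    · have : ∑ G ∈ univ.filter (fun G : SimpleGraph (Fin n) => F.IsContained G),
          (0 : ℝ) ^ edgeNum G = 0 := by
        apply Finset.sum_eq_zero
        intro G hG
        rw [mem_filter] at hG
        obtain ⟨σ, hσ⟩ := contained_iff.1 hG.2
        apply zero_pow
        rw [edgeNum_eq]
        intro h
        rw [card_eq_zero] at h
        rw [h] at hσ
        obtain ⟨e, he⟩ := hF
        have := hσ (mem_act.2 ⟨e, he, rfl⟩)
        simp at this
      rw [this]
      norm_num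
    · intro G hG
      exact ⟨G, by rw [mem_filter]; exact ⟨mem_univ _, hG⟩, le_rfl⟩
  exact hcomp.exists_isGreatest hne

/-- Above the expectation threshold. -/
lemma above_of {F : SimpleGraph (Fin n)} {pe q : ℝ} (hpe : IsPe F pe) (hq : pe < q)
    (hq1 : q ≤ 1) : Above (ef F) q := by
  intro T hT
  by_contra hcon
  push Not at hcon
  have h0 : 0 ≤ pe := hpe.1.1
  have hTD : T ⊆ DD n := hT.trans (ef_sub F)
  have hmem : q ∈ peSet F := by
    refine ⟨by linarith, hq1, (orb T).image gr, ?_, ?_⟩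
    · have hinj : Set.InjOn gr ((orb T : Finset (Finset (Sym2 (Fin n)))) :
          Set (Finset (Sym2 (Fin n)))) := by
        intro S hS S' hS' h
        rw [mem_coe, mem_orb] at hS hS'
        obtain ⟨σ, rfl⟩ := hS
        obtain ⟨τ, rfl⟩ := hS'
        rw [← ef_gr (act_sub_DD hTD σ), ← ef_gr (act_sub_DD hTD τ), h]
      rw [Finset.sum_image hinj]
      have : ∀ S ∈ orb T, q ^ edgeNum (gr S) = q ^ T.card := by
        intro S hS
        have hc := orb_card_eq hS
        obtain ⟨σ, rfl⟩ := mem_orb.1 hS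
        rw [edgeNum_eq, ef_gr (act_sub_DD hTD σ), hc]
      rw [Finset.sum_congr rfl this, Finset.sum_const, nsmul_eq_mul]
      exact hcon
    · intro G hG
      obtain ⟨σ, hσ⟩ := contained_iff.1 hG
      refine ⟨gr (act σ T), Finset.mem_image_of_mem _ (mem_orb.2 ⟨σ, rfl⟩), ?_⟩
      rw [← ef_mono, ef_gr (act_sub_DD hTD σ)]
      exact (act_mono hT).trans hσ
  exact absurd (hpe.2 hmem) (not_le.2 hq)

/-- The trivial bound `p_e ≤ p_c`. -/
lemma pe_le_pc {F : SimpleGraph (Fin n)} (hF : (ef F).Nonempty) {pe pc : ℝ} (hpe : IsPe F pe)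
    (hpc : IsPc F pc) : pe ≤ pc := by
  obtain ⟨h0, h1, Q, hQ1, hQ2⟩ := hpe.1
  by_contra hcon
  push Not at hcon
  have hlt := containProb_strictMono hF hpc.1 hcon h1
  rw [hpc.2.2, containProb_eq'] at hlt
  have hle : ∑ U ∈ (DD n).powerset, mu (DD n) pe U * ind F U
      ≤ ∑ G ∈ Q, pe ^ edgeNum G := by
    have h2 : ∀ U ∈ (DD n).powerset, mu (DD n) pe U * ind F U
        ≤ ∑ G ∈ Q, mu (DD n) pe U * (if ef G ⊆ U then 1 else 0) := by
      intro U hU
      have hmu := mu_nonneg (DD n) h0 h1 U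
      rw [← Finset.mul_sum]
      apply mul_le_mul_of_nonneg_left _ hmu
      have hnn : ∀ G ∈ Q, (0 : ℝ) ≤ if ef G ⊆ U then 1 else 0 := by
        intro G _; split_ifs <;> norm_num
      unfold ind
      by_cases h : ∃ σ : Equiv.Perm (Fin n), act σ (ef F) ⊆ U
      · rw [if_pos h]
        have h3 : F.IsContained (gr U) := by
          rw [contained_iff, ef_gr (mem_powerset.1 hU)]
          exact h
        obtain ⟨G', hG', hle⟩ := hQ2 _ h3
        have h4 := Finset.single_le_sum hnn hG'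
        rw [← ef_mono, ef_gr (mem_powerset.1 hU)] at hle
        rw [if_pos hle] at h4
        exact h4
      · rw [if_neg h]
        exact Finset.sum_nonneg hnn
    refine (Finset.sum_le_sum h2).trans ?_
    rw [Finset.sum_comm]
    apply Finset.sum_le_sum
    intro G _
    have h5 := cyl (ef_sub G) (Finset.empty_subset (DD n)) (Finset.disjoint_empty_right _) pe
    rw [card_empty, pow_zero, mul_one, ← edgeNum_eq] at h5
    rw [← h5, Finset.sum_filter]
    apply le_of_eq
    apply Finset.sum_congr rfl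
    intro U _
    simp only [Finset.disjoint_empty_right, and_true]
    split_ifs <;> simp
  linarith

lemma ef_nonempty {d : ℕ} (hd : 3 ≤ d) (hn : 0 < n) {F : SimpleGraph (Fin n)}
    (hreg : ∀ v, (F.neighborSet v).ncard = d) : (ef F).Nonempty := by
  have h1 := hreg ⟨0, hn⟩
  have h2 : (F.neighborSet ⟨0, hn⟩).Nonempty := by
    apply Set.nonempty_of_ncard_ne_zero
    omega
  obtain ⟨w, hw⟩ := h2
  exact ⟨s(⟨0, hn⟩, w), mk_mem_ef.2 hw⟩

/-- Positivity of the expectation threshold. -/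
lemma pe_pos {d : ℕ} (hd : 3 ≤ d) (hn : 0 < n) {F : SimpleGraph (Fin n)}
    (hreg : ∀ v, (F.neighborSet v).ncard = d) (hb : SparseBdry d F) {pe : ℝ}
    (hpe : IsPe F pe) : 0 < pe := by
  have hFne := ef_nonempty hd hn hreg
  have hH := hyp_of hd hreg hb
  by_contra hcon
  push Not at hcon
  have hpe0 : pe = 0 := le_antisymm hcon hpe.1.1
  have hdpos : (0 : ℝ) < d := by
    have : 0 < d := by omega
    exact_mod_cast this
  have hn' : (0 : ℝ) < n := by exact_mod_cast hn
  set x : ℝ := (n : ℝ) ^ ((1 : ℝ) / d) with hx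
  have hx0 : 0 < x := Real.rpow_pos_of_pos hn' _
  have hxd : x ^ d = Fintype.card (Fin n) := by
    rw [Fintype.card_fin, hx, ← Real.rpow_natCast, ← Real.rpow_mul hn'.le,
      one_div_mul_cancel hdpos.ne', Real.rpow_one]
  set q : ℝ := min 1 (1 / (4 * x ^ 2)) with hq
  have hq0 : 0 < q := by rw [hq]; exact lt_min one_pos (by positivity)
  have hA := above_of hpe (by rw [hpe0]; exact hq0) (min_le_left _ _ : q ≤ 1)
  have h1 := q_lower hH hq0 hA hx0 hxd hFne
  have h2 : q ≤ 1 / (4 * x ^ 2) := min_le_right _ _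
  have h3 : 1 / (4 * x ^ 2) < 1 / (2 * x ^ 2) := by
    apply one_div_lt_one_div_of_lt (by positivity)
    have : 0 < x ^ 2 := by positivity
    linarith
  linarith

/-- Uniform upper bound. -/
theorem pc_le (d : ℕ) (hd : 3 ≤ d) (θ : ℝ) (hθ : 1 < θ) :
    ∃ n₀ : ℕ, ∀ n ≥ n₀, 0 < n → ∀ F : SimpleGraph (Fin n),
      (∀ v, (F.neighborSet v).ncard = d) → SparseBdry d F → ∀ pc pe : ℝ, IsPc F pc → IsPe F pe →
        pc ≤ θ ^ 10 * pe := by
  obtain ⟨n₀, hn₀⟩ := uniform d hd θ hθ (1 / 2) (by norm_num)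
  refine ⟨n₀, fun n hn hn0 F hreg hb pc pe hpc hpe => ?_⟩
  have hθ0 : 0 < θ := by linarith
  have hpe0 := pe_pos hd hn0 hreg hb hpe
  have hFne := ef_nonempty hd hn0 hreg
  have hH := hyp_of hd hreg hb
  by_contra hcon
  push Not at hcon
  set q : ℝ := θ * pe with hq
  have hq0 : 0 < q := by positivity
  have hqpe : pe < q := by rw [hq]; nlinarith
  have e1 : θ ^ 9 * q = θ ^ 10 * pe := by rw [hq]; ring
  have hq1 : θ ^ 9 * q ≤ 1 := by rw [e1]; linarith [hpc.2.1]
  have hq1' : q ≤ 1 := by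
    have : 1 ≤ θ ^ 9 := one_le_pow₀ hθ.le
    nlinarith
  have hA := above_of hpe hqpe hq1'
  have h1 := hn₀ n hn (ef F) hH q hq0 hA hq1 (DD n) (fun σ => act_sub_DD (ef_sub F) σ)
  rw [fail_eq, e1] at h1
  have h2 := containProb_strictMono hFne (by positivity) hcon hpc.2.1
  rw [hpc.2.2] at h2
  linarith

theorem main (d : ℕ) (hd : 3 ≤ d) (n : ℕ → ℕ) (hn : Tendsto n atTop atTop)
    (hpos : ∀ k, 0 < n k) (F : ∀ k, SimpleGraph (Fin (n k)))
    (hreg : ∀ k, ∀ v, ((F k).neighborSet v).ncard = d) (hb : ∀ k, SparseBdry d (F k)) :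
    ∃ pc pe : ℕ → ℝ,
      (∀ k, IsPc (F k) (pc k) ∧ ∀ p, IsPc (F k) p → p = pc k) ∧
      (∀ k, IsPe (F k) (pe k)) ∧ (∀ k, 0 < pe k) ∧
      Tendsto (fun k => pc k / pe k) atTop (𝓝 1) := by
  have hFne : ∀ k, (ef (F k)).Nonempty := fun k => ef_nonempty hd (hpos k) (hreg k)
  choose pc hpc using fun k => exists_pc (hFne k)
  choose pe hpe using fun k => exists_pe (hFne k)
  have hpe0 : ∀ k, 0 < pe k := fun k => pe_pos hd (hpos k) (hreg k) (hb k) (hpe k)
  refine ⟨pc, pe, hpc, hpe, hpe0, ?_⟩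
  rw [Metric.tendsto_atTop]
  intro ε hε
  obtain ⟨θ, hθ, hθε⟩ : ∃ θ : ℝ, 1 < θ ∧ θ ^ 10 < 1 + ε := by
    have hc : Tendsto (fun t : ℝ => t ^ 10) (𝓝[>] 1) (𝓝 1) := by
      have : Tendsto (fun t : ℝ => t ^ 10) (𝓝 1) (𝓝 (1 ^ 10)) := (continuous_pow 10).tendsto 1
      rw [one_pow] at this
      exact this.mono_left nhdsWithin_le_nhds
    have h1 := hc.eventually_lt_const (show (1 : ℝ) < 1 + ε by linarith)
    have h2 := h1.and self_mem_nhdsWithin
    obtain ⟨θ, h3, h4⟩ := h2.exists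
    exact ⟨θ, h4, h3⟩
  obtain ⟨n₀, hn₀⟩ := pc_le d hd θ hθ
  obtain ⟨k₀, hk₀⟩ := (hn.eventually_ge_atTop n₀).exists_forall_of_atTop
  refine ⟨k₀, fun k hk => ?_⟩
  have h1 := hn₀ (n k) (hk₀ k hk) (hpos k) (F k) (hreg k) (hb k) (pc k) (pe k) (hpc k).1 (hpe k)
  have h2 := pe_le_pc (hFne k) (hpe k) (hpc k).1
  have h3 : 1 ≤ pc k / pe k := by rw [le_div_iff₀ (hpe0 k)]; linarith
  have h4 : pc k / pe k ≤ θ ^ 10 := by rw [div_le_iff₀ (hpe0 k)]; exact h1
  rw [Real.dist_eq, abs_lt]
  constructor <;> linarith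

end Pool.Agent.H29.Thresh
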