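import Pool.Agent.H29.Thresh.Round

/-! The first round: large fragments are unlikely. -/

namespace Pool.Agent.H29.Thresh

open Finset

variable {V : Type*} [DecidableEq V] [Fintype V]

lemma Hyp.bd_eq {d : ℕ} {F : Finset (Sym2 V)} (hF : Hyp d F) {T : Finset (Sym2 V)}
    (hT : T ⊆ F) : d * (vs T).card = 2 * T.card + bd d T := by
  have h0 := hF.deg_sum hT
  unfold bd
  omega

lemma Hyp.bd_sum {d : ℕ} {F : Finset (Sym2 V)} (hF : Hyp d F) {T : Finset (Sym2 V)}
    (hT : T ⊆ F) : bd d T = ∑ S ∈ comps T, bd d S := by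
  have h1 := hF.bd_eq hT
  have h2 : ∀ S ∈ comps T, d * (vs S).card = 2 * S.card + bd d S :=
    fun S hS => hF.bd_eq ((comps_sub hS).trans hT)
  have h3 : d * (vs T).card = 2 * T.card + ∑ S ∈ comps T, bd d S := by
    rw [vs_card_eq_comps, card_eq_comps T, Finset.mul_sum, Finset.mul_sum,
      ← Finset.sum_add_distrib]
    exact Finset.sum_congr rfl h2
  omega

lemma comps_count {d : ℕ} {F : Finset (Sym2 V)} (hF : Hyp d F) {T : Finset (Sym2 V)}
    (hT : T ⊆ F) (hn : 5 ≤ Fintype.card V) :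
    (d + 1) * (comps T).card ≤ bd d T + (d + 1) := by
  classical
  rw [hF.bd_sum hT]
  set bad := (comps T).filter (fun S => Fintype.card V < (vs S).card + 3) with hbad
  have hb1 : bad.card ≤ 1 := by
    rw [Finset.card_le_one]
    intro S hS S' hS'
    by_contra hne
    rw [hbad, mem_filter] at hS hS'
    have hd := comps_vdisj hS.1 hS'.1 hne
    have h1 : (vs S ∪ vs S').card = (vs S).card + (vs S').card := card_union_of_disjoint hd
    have h2 : (vs S ∪ vs S').card ≤ Fintype.card V := card_le_univ _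
    omega
  have h1 : ∑ S ∈ (comps T).filter (fun S => ¬ Fintype.card V < (vs S).card + 3), (d + 1)
      ≤ ∑ S ∈ (comps T).filter (fun S => ¬ Fintype.card V < (vs S).card + 3), bd d S := by
    apply Finset.sum_le_sum
    intro S hS
    rw [mem_filter] at hS
    have := hF.cut S ((comps_sub hS.1).trans hT) (comps_conn hS.1) (by omega)
    unfold bd
    omega
  rw [Finset.sum_const, smul_eq_mul] at h1
  have h2 : ∑ S ∈ (comps T).filter (fun S => ¬ Fintype.card V < (vs S).card + 3), bd d S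
      ≤ ∑ S ∈ comps T, bd d S := Finset.sum_le_sum_of_subset (filter_subset _ _)
  have h3 : (comps T).card = bad.card
      + ((comps T).filter (fun S => ¬ Fintype.card V < (vs S).card + 3)).card := by
    rw [hbad]
    exact (Finset.card_filter_add_card_filter_not _).symm
  rw [h3]
  nlinarith

lemma hA_le {d : ℕ} (hd : 1 ≤ d) {F : Finset (Sym2 V)} (hF : Hyp d F) (T : Finset (Sym2 V)) :
    hA F T (vs T) ≤ (Fintype.card V) ^ (comps T).card * d ^ (vs T).card := by
  refine (hA_comps_le F T).trans ?_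
  calc ∏ S ∈ comps T, hA F S (vs S) ≤ ∏ S ∈ comps T, (Fintype.card V * d ^ (vs S).card) := by
        apply Finset.prod_le_prod' 
        intro S hS
        refine (hA_conn hF.reg (comps_conn hS)).trans ?_
        exact Nat.mul_le_mul_left _ (Nat.pow_le_pow_right hd (by omega))
    _ = _ := by
        rw [Finset.prod_mul_distrib, Finset.prod_const, Finset.prod_pow_eq_pow_sum,
          ← vs_card_eq_comps]

lemma caseB {d : ℕ} (hd : 1 ≤ d) {F : Finset (Sym2 V)} (hF : Hyp d F) {q : ℝ} (hq : 0 < q)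
    (hA : Above F q) (hFne : F.Nonempty) (hn : 5 ≤ Fintype.card V) {x₁ : ℝ} (hx1 : 1 ≤ x₁)
    (hxn : x₁ ^ ((d + 1) * d) = Fintype.card V) {D : ℕ}
    (hxD : (2 * (2 * (2 * (d * Real.exp 1) ^ 2)) ^ d) ^ D ≤ x₁) :
    ∑ T ∈ F.powerset.filter (fun T => Fintype.card V ≤ D * bd d T), PT F T / q ^ T.card
      ≤ (Fintype.card V : ℝ) / 2 ^ (Fintype.card V) := by
  set n := Fintype.card V with hnn
  set C : ℝ := 2 * (d * Real.exp 1) ^ 2 with hC
  set C₄ : ℝ := 2 * (2 * C) ^ d with hC₄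
  have hx0 : 0 < x₁ := by linarith
  have he1 : (1 : ℝ) ≤ Real.exp 1 := by
    have := Real.add_one_le_exp (1 : ℝ); linarith
  have hd' : (1 : ℝ) ≤ (d : ℝ) := by exact_mod_cast hd
  have hde : (1 : ℝ) ≤ (d : ℝ) * Real.exp 1 := by nlinarith
  have hC1 : 1 ≤ C := by
    rw [hC]
    have : (1 : ℝ) ≤ ((d : ℝ) * Real.exp 1) ^ 2 := one_le_pow₀ hde
    linarith
  have hC0 : 0 < C := by linarith
  have hC₄1 : 1 ≤ C₄ := by
    have : (1 : ℝ) ≤ (2 * C) ^ d := one_le_pow₀ (by linarith)
    rw [hC₄]; linarith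
  have hC₄0 : 0 < C₄ := by linarith
  have hxd : (x₁ ^ (d + 1)) ^ d = n := by rw [← pow_mul]; exact hxn
  have hx : 0 < x₁ ^ (d + 1) := by positivity
  have hql := q_lower hF hq hA hx hxd hFne
  have hFc : F.card ≤ d * n := by
    have := hF.card_edges
    rw [← hnn] at this
    omega
  have hT : ∀ T ∈ F.powerset.filter (fun T => n ≤ D * bd d T),
      PT F T / q ^ T.card ≤ C ^ (d * n) * (n : ℝ) / C₄ ^ n := by
    intro T hT
    rw [mem_filter, mem_powerset] at hT
    have h1 := vertex_bound hd hF hq hx hxd hql hT.1 (hA_le hd hF T)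
    rw [← hC] at h1
    set k := (comps T).card with hk
    set b := bd d T with hb
    have hcnt : (d + 1) * k ≤ b + (d + 1) := comps_count hF hT.1 hn
    have h2 : (x₁ ^ (d + 1)) ^ (d * k) / (x₁ ^ (d + 1)) ^ b ≤ (n : ℝ) / x₁ ^ b := by
      rw [div_le_div_iff₀ (by positivity) (by positivity), ← hxn, ← pow_mul, ← pow_mul,
        ← pow_add, ← pow_add]
      apply pow_le_pow_right₀ hx1
      nlinarith
    have h3 : C₄ ^ n ≤ x₁ ^ b := by
      calc C₄ ^ n ≤ C₄ ^ (D * b) := pow_le_pow_right₀ hC₄1 hT.2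
        _ = (C₄ ^ D) ^ b := by rw [pow_mul]
        _ ≤ x₁ ^ b := pow_le_pow_left₀ (by positivity) hxD b
    have h4 : T.card ≤ d * n := (card_le_card hT.1).trans hFc
    calc PT F T / q ^ T.card ≤ C ^ T.card * (x₁ ^ (d + 1)) ^ (d * k) / (x₁ ^ (d + 1)) ^ b := h1
      _ = C ^ T.card * ((x₁ ^ (d + 1)) ^ (d * k) / (x₁ ^ (d + 1)) ^ b) := by ring
      _ ≤ C ^ (d * n) * ((n : ℝ) / x₁ ^ b) := by
          apply mul_le_mul (pow_le_pow_right₀ hC1 h4) h2 (by positivity) (by positivity)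
      _ ≤ C ^ (d * n) * ((n : ℝ) / C₄ ^ n) := by
          apply mul_le_mul_of_nonneg_left _ (by positivity)
          exact div_le_div_of_nonneg_left (by positivity) (by positivity) h3
      _ = _ := by ring
  refine (Finset.sum_le_sum hT).trans ?_
  rw [Finset.sum_const, nsmul_eq_mul]
  have h5 : ((F.powerset.filter (fun T => n ≤ D * bd d T)).card : ℝ) ≤ 2 ^ (d * n) := by
    have h6 : (F.powerset.filter (fun T => n ≤ D * bd d T)).card ≤ 2 ^ F.card := by
      rw [← Finset.card_powerset]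
      exact card_le_card (filter_subset _ _)
    have h7 : (2 : ℕ) ^ F.card ≤ 2 ^ (d * n) := Nat.pow_le_pow_right (by norm_num) hFc
    exact_mod_cast h6.trans h7
  calc _ ≤ (2 : ℝ) ^ (d * n) * (C ^ (d * n) * (n : ℝ) / C₄ ^ n) :=
        mul_le_mul_of_nonneg_right h5 (by positivity)
    _ = ((2 * C) ^ (d * n)) * (n : ℝ) / C₄ ^ n := by rw [mul_pow 2 C (d * n)]; ring
    _ = (n : ℝ) / 2 ^ n := by
        rw [hC₄, mul_pow 2 ((2 * C) ^ d) n, ← pow_mul (2 * C) d n]
        field_simp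

lemma caseA_count {d D : ℕ} {F : Finset (Sym2 V)} (hF : Hyp d F)
    (hn : 5 ≤ Fintype.card V) {κ ζ r : ℝ} (hκ : 1 < κ) (hζ0 : 0 < ζ) (hζ1 : ζ ≤ 1)
    (hζκ : Real.exp ζ ≤ κ) (hr0 : 0 < r) (hr1 : r < 1) (hrκ : 1 / κ ≤ r ^ d)
    (hD : (1 / κ) ^ D ≤ ζ * (1 - r)) :
    (((F.powerset.filter (fun T => D * bd d T < Fintype.card V)).card : ℝ))
      ≤ κ ^ (3 * Fintype.card V) / ζ := by
  classical
  set n := Fintype.card V with hnn
  have hκ0 : 0 < κ := by linarith
  have h1r : 0 < 1 - r := by linarith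
  have hki : 0 < 1 / κ := by positivity
  have hki1 : 1 / κ ≤ 1 := by rw [div_le_one hκ0]; exact hκ.le
  have hFc : F.card ≤ d * n := by
    have := hF.card_edges
    rw [← hnn] at this
    omega
  set g : Finset (Sym2 V) → ℝ := fun S => ζ * (r ^ S.card * (1 - r) ^ (bd d S)) with hg
  have hgn : ∀ S, 0 ≤ g S := by intro S; simp only [hg]; positivity
  have hT : ∀ T ∈ F.powerset.filter (fun T => D * bd d T < n),
      ζ * (1 / κ) ^ (2 * n) ≤ ∏ S ∈ comps T, g S := by
    intro T hT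
    rw [mem_filter, mem_powerset] at hT
    have hcnt := comps_count hF hT.1 hn
    have hk : (comps T).card ≤ 1 + bd d T := by nlinarith
    have e1 : ∏ S ∈ comps T, g S = ζ ^ (comps T).card * (r ^ T.card * (1 - r) ^ (bd d T)) := by
      simp only [hg]
      rw [Finset.prod_mul_distrib, Finset.prod_const, Finset.prod_mul_distrib,
        Finset.prod_pow_eq_pow_sum, Finset.prod_pow_eq_pow_sum, ← card_eq_comps,
        ← hF.bd_sum hT.1]
    rw [e1]
    have h2 : ζ ^ (1 + bd d T) ≤ ζ ^ (comps T).card :=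
      pow_le_pow_of_le_one hζ0.le hζ1 hk
    have h3 : r ^ (d * n) ≤ r ^ T.card :=
      pow_le_pow_of_le_one hr0.le hr1.le ((card_le_card hT.1).trans hFc)
    have h4 : (1 / κ) ^ n ≤ r ^ (d * n) := by
      rw [pow_mul]
      exact pow_le_pow_left₀ hki.le hrκ n
    have h5 : (1 / κ) ^ n ≤ (ζ * (1 - r)) ^ (bd d T) := by
      calc (1 / κ) ^ n ≤ (1 / κ) ^ (D * bd d T) :=
            pow_le_pow_of_le_one hki.le hki1 hT.2.le
        _ = ((1 / κ) ^ D) ^ (bd d T) := by rw [pow_mul]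
        _ ≤ _ := pow_le_pow_left₀ (by positivity) hD _
    calc ζ * (1 / κ) ^ (2 * n) = ζ * ((1 / κ) ^ n * (1 / κ) ^ n) := by
          rw [← pow_add]; congr 2; ring
      _ ≤ ζ * ((ζ * (1 - r)) ^ (bd d T) * r ^ T.card) := by
          apply mul_le_mul_of_nonneg_left _ hζ0.le
          exact mul_le_mul h5 (h4.trans h3) (by positivity) (by positivity)
      _ = ζ ^ (1 + bd d T) * (r ^ T.card * (1 - r) ^ (bd d T)) := by
          rw [mul_pow, pow_add]; ring
      _ ≤ _ := mul_le_mul_of_nonneg_right h2 (by positivity)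
  have hsum := Finset.sum_le_sum hT
  rw [Finset.sum_const, nsmul_eq_mul] at hsum
  have hpol := polymer (F.powerset.filter (fun T => D * bd d T < n))
    (F.powerset.filter (fun S => Conn S)) g hgn (by
      intro T hT S hS
      rw [mem_filter, mem_powerset] at hT ⊢
      exact ⟨(comps_sub hS).trans hT.1, comps_conn hS⟩)
  have hS : ∑ S ∈ F.powerset.filter (fun S => Conn S), g S ≤ ζ * n := by
    have h1 : ∀ S ∈ F.powerset.filter (fun S => Conn S), g S
        ≤ ∑ x : V, if x ∈ vs S then g S else 0 := by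
      intro S hS
      rw [mem_filter] at hS
      obtain ⟨e, he⟩ := hS.2.1
      induction e using Sym2.ind with
      | _ x y =>
        have hx : x ∈ vs S := mem_vs.2 ⟨_, he, by simp⟩
        have h2 := Finset.single_le_sum (f := fun x => if x ∈ vs S then g S else 0)
          (fun x _ => by
            show 0 ≤ if x ∈ vs S then g S else 0
            split_ifs
            · exact hgn S
            · exact le_rfl) (mem_univ x)
        simp only [if_pos hx] at h2
        exact h2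
    refine (Finset.sum_le_sum h1).trans ?_
    rw [Finset.sum_comm]
    have h3 : ∀ x : V, ∑ S ∈ F.powerset.filter (fun S => Conn S),
        (if x ∈ vs S then g S else 0) ≤ ζ := by
      intro x
      rw [← Finset.sum_filter, Finset.filter_filter]
      simp only [hg]
      rw [← Finset.mul_sum]
      have := hF.cluster hr0.le hr1.le x
      calc _ ≤ ζ * 1 := mul_le_mul_of_nonneg_left this hζ0.le
        _ = ζ := mul_one ζ
    calc ∑ x : V, ∑ S ∈ F.powerset.filter (fun S => Conn S),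
        (if x ∈ vs S then g S else 0) ≤ ∑ x : V, ζ := Finset.sum_le_sum (fun x _ => h3 x)
      _ = ζ * n := by rw [Finset.sum_const, nsmul_eq_mul, Finset.card_univ, mul_comm]
  have h6 : ((F.powerset.filter (fun T => D * bd d T < n)).card : ℝ) * (ζ * (1 / κ) ^ (2 * n))
      ≤ κ ^ n := by
    refine (hsum.trans hpol).trans ?_
    calc Real.exp (∑ S ∈ F.powerset.filter (fun S => Conn S), g S) ≤ Real.exp (ζ * n) :=
          Real.exp_le_exp.2 hS
      _ = (Real.exp ζ) ^ n := by rw [mul_comm, Real.exp_nat_mul]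
      _ ≤ κ ^ n := pow_le_pow_left₀ (Real.exp_pos _).le hζκ n
  rw [le_div_iff₀ hζ0]
  have h7 : (1 / κ) ^ (2 * n) * κ ^ (2 * n) = 1 := by
    rw [← mul_pow]
    have : 1 / κ * κ = 1 := by field_simp
    rw [this, one_pow]
  calc ((F.powerset.filter (fun T => D * bd d T < n)).card : ℝ) * ζ
      = ((F.powerset.filter (fun T => D * bd d T < n)).card : ℝ) * ζ
        * ((1 / κ) ^ (2 * n) * κ ^ (2 * n)) := by rw [h7, mul_one]
    _ = (((F.powerset.filter (fun T => D * bd d T < n)).card : ℝ) * (ζ * (1 / κ) ^ (2 * n)))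
        * κ ^ (2 * n) := by ring
    _ ≤ κ ^ n * κ ^ (2 * n) := mul_le_mul_of_nonneg_right h6 (by positivity)
    _ = κ ^ (3 * n) := by rw [← pow_add]; congr 1; ring

lemma caseA {d D : ℕ} {F : Finset (Sym2 V)} (hF : Hyp d F)
    (hn : 5 ≤ Fintype.card V) {q : ℝ} (hq : 0 < q) (hA : Above F q)
    {κ ζ r : ℝ} (hκ : 1 < κ) (hζ0 : 0 < ζ) (hζ1 : ζ ≤ 1)
    (hζκ : Real.exp ζ ≤ κ) (hr0 : 0 < r) (hr1 : r < 1) (hrκ : 1 / κ ≤ r ^ d)
    (hD : (1 / κ) ^ D ≤ ζ * (1 - r)) {θ : ℝ} (hθ : 1 < θ) {L' : ℝ}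
    (hκθ : ∀ t : ℕ, L' < t → κ ^ (Fintype.card V) ≤ θ ^ t) :
    ∑ T ∈ F.powerset.filter (fun T => D * bd d T < Fintype.card V ∧ L' < (T.card : ℝ)),
      PT F T / (θ ^ 8 * q) ^ T.card
      ≤ 2 / ζ ^ 2 * (1 / κ) ^ (2 * Fintype.card V) := by
  classical
  set n := Fintype.card V with hnn
  have hκ0 : 0 < κ := by linarith
  have hθ0 : 0 < θ := by linarith
  set M : ℝ := ((F.powerset.filter (fun T => D * bd d T < n)).card : ℝ) with hM
  have hMle := caseA_count hF hn hκ hζ0 hζ1 hζκ hr0 hr1 hrκ hD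
  rw [← hnn, ← hM] at hMle
  have hM0 : 0 ≤ M := by positivity
  have hT : ∀ T ∈ F.powerset.filter (fun T => D * bd d T < n ∧ L' < (T.card : ℝ)),
      PT F T / (θ ^ 8 * q) ^ T.card ≤ 2 * M * (1 / κ) ^ (8 * n) := by
    intro T hT
    rw [mem_filter, mem_powerset] at hT
    have h1 := hA T hT.1
    have h2 : ((sub F T).card : ℝ) ≤ M := by
      rw [hM]
      have : sub F T ⊆ F.powerset.filter (fun T => D * bd d T < n) := by
        intro T' hT'
        rw [mem_sub] at hT'
        rw [mem_filter, mem_powerset, orb_bd hT'.1]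
        exact ⟨hT'.2, hT.2.1⟩
      exact_mod_cast card_le_card this
    have hN : (0 : ℝ) < ((orb T).card : ℝ) := by exact_mod_cast orb_card_pos T
    have h3 : PT F T / q ^ T.card ≤ 2 * M := by
      rw [PT_eq_div, div_div, div_le_iff₀ (by positivity)]
      nlinarith
    have h4 : κ ^ (8 * n) ≤ θ ^ (8 * T.card) := by
      have := hκθ T.card hT.2.2
      calc κ ^ (8 * n) = (κ ^ n) ^ 8 := by rw [← pow_mul]; congr 1; ring
        _ ≤ (θ ^ T.card) ^ 8 := pow_le_pow_left₀ (by positivity) this 8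
        _ = _ := by rw [← pow_mul]; congr 1; ring
    have h5 : 0 ≤ PT F T := PF_nonneg _ _
    calc PT F T / (θ ^ 8 * q) ^ T.card = (PT F T / q ^ T.card) * (1 / θ ^ (8 * T.card)) := by
          rw [mul_pow, ← pow_mul]
          field_simp
      _ ≤ (2 * M) * (1 / κ ^ (8 * n)) := by
          apply mul_le_mul h3 _ (by positivity) (by positivity)
          exact one_div_le_one_div_of_le (by positivity) h4
      _ = _ := by rw [one_div_pow]
  refine (Finset.sum_le_sum hT).trans ?_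
  rw [Finset.sum_const, nsmul_eq_mul]
  have h6 : ((F.powerset.filter (fun T => D * bd d T < n ∧ L' < (T.card : ℝ))).card : ℝ)
      ≤ M := by
    rw [hM]
    have : F.powerset.filter (fun T => D * bd d T < n ∧ L' < (T.card : ℝ))
        ⊆ F.powerset.filter (fun T => D * bd d T < n) := by
      intro T hT
      rw [mem_filter] at hT ⊢
      exact ⟨hT.1, hT.2.1⟩
    exact_mod_cast card_le_card this
  have hki : 0 < 1 / κ := by positivity
  have h8 : (1 / κ) ^ (6 * n) * κ ^ (6 * n) = 1 := by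
    rw [← mul_pow]
    have : 1 / κ * κ = 1 := by field_simp
    rw [this, one_pow]
  calc _ ≤ M * (2 * M * (1 / κ) ^ (8 * n)) :=
        mul_le_mul_of_nonneg_right h6 (by positivity)
    _ = 2 * (M * M) * (1 / κ) ^ (8 * n) := by ring
    _ ≤ 2 * ((κ ^ (3 * n) / ζ) * (κ ^ (3 * n) / ζ)) * (1 / κ) ^ (8 * n) := by
        apply mul_le_mul_of_nonneg_right _ (by positivity)
        apply mul_le_mul_of_nonneg_left _ (by norm_num)
        exact mul_le_mul hMle hMle hM0 (by positivity)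
    _ = 2 / ζ ^ 2 * (1 / κ) ^ (2 * n) * ((1 / κ) ^ (6 * n) * κ ^ (6 * n)) := by
        have e1 : κ ^ (6 * n) = κ ^ (3 * n) * κ ^ (3 * n) := by
          rw [← pow_add]; congr 1; ring
        have e2 : (1 / κ) ^ (8 * n) = (1 / κ) ^ (2 * n) * (1 / κ) ^ (6 * n) := by
          rw [← pow_add]; congr 1; ring
        rw [e1, e2]
        field_simp
    _ = _ := by rw [h8, mul_one]

/-- The first round. -/
theorem first_round {d D : ℕ} (hd : 1 ≤ d) {F : Finset (Sym2 V)} (hF : Hyp d F)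
    (hFne : F.Nonempty) (hn : 5 ≤ Fintype.card V) {q : ℝ} (hq : 0 < q) (hA : Above F q)
    {x₁ : ℝ} (hx1 : 1 ≤ x₁)
    (hxn : x₁ ^ ((d + 1) * d) = Fintype.card V)
    (hxD : (2 * (2 * (2 * (d * Real.exp 1) ^ 2)) ^ d) ^ D ≤ x₁)
    {κ ζ r : ℝ} (hκ : 1 < κ) (hζ0 : 0 < ζ) (hζ1 : ζ ≤ 1)
    (hζκ : Real.exp ζ ≤ κ) (hr0 : 0 < r) (hr1 : r < 1) (hrκ : 1 / κ ≤ r ^ d)
    (hD : (1 / κ) ^ D ≤ ζ * (1 - r)) {θ : ℝ} (hθ : 1 < θ) {L' : ℝ}
    (hκθ : ∀ t : ℕ, L' < t → κ ^ (Fintype.card V) ≤ θ ^ t)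
    {G : Finset (Sym2 V)} (hG : ∀ σ : Equiv.Perm V, act σ F ⊆ G) (hp : θ ^ 8 * q ≤ 1) :
    fail G (fun σ : Equiv.Perm V => act σ F) (θ ^ 8 * q) L'
      ≤ (Fintype.card V : ℝ) / 2 ^ (Fintype.card V)
        + 2 / ζ ^ 2 * (1 / κ) ^ (2 * Fintype.card V) := by
  classical
  have hθ0 : 0 < θ := by linarith
  have hp0 : 0 < θ ^ 8 * q := by positivity
  have hκ0 : 0 < κ := by linarith
  set L : ℝ := (F.card : ℝ) with hL
  set B : ℝ := (Fintype.card V : ℝ) / 2 ^ (Fintype.card V)
        + 2 / ζ ^ 2 * (1 / κ) ^ (2 * Fintype.card V) with hBdef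
  have hB0 : 0 ≤ B := by rw [hBdef]; positivity
  have hkey := key (Fm := fun σ : Equiv.Perm V => act σ F) hG (p := 0) (p' := θ ^ 8 * q)
    le_rfl zero_le_one hp0 hp (fun T => T) (fun T => le_rfl) (Or.inr (fun T => rfl))
    (L := L) (L' := L') (B := B) ?_ hB0
  · have h1 : fail G (fun σ : Equiv.Perm V => act σ F) 0 L = 0 := by
      unfold fail
      apply Finset.sum_eq_zero
      intro W _
      have : (univ.filter (fun i : Equiv.Perm V =>
          ¬ Good (fun σ : Equiv.Perm V => act σ F) W (act i F) L)) = ∅ := by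
        apply Finset.filter_eq_empty_iff.2
        intro i _
        rw [not_not]
        refine ⟨i, Finset.subset_union_right, ?_⟩
        rw [hL]
        have h2 : (act i F \ W).card ≤ F.card := by
          rw [← act_card i F]
          exact card_le_card Finset.sdiff_subset
        exact_mod_cast h2
      rw [this]
      simp
    rw [h1, zero_add, zero_mul, sub_zero, zero_add] at hkey
    exact hkey
  · intro σ E _ _
    have hle : ∀ T ∈ (act σ F).powerset.filter
        (fun T => L' < (T.card : ℝ) ∧ (T.card : ℝ) ≤ L ∧ T ⊆ E),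
        PF (fun σ : Equiv.Perm V => act σ F) T / (0 ^ (T \ T).card * (θ ^ 8 * q) ^ T.card)
          = PT (act σ F) T / (θ ^ 8 * q) ^ T.card := by
      intro T _
      rw [PT_act, sdiff_self, bot_eq_empty, card_empty, pow_zero, one_mul]
      rfl
    rw [Finset.sum_congr rfl hle]
    have hnn : ∀ T : Finset (Sym2 V), 0 ≤ PT (act σ F) T / (θ ^ 8 * q) ^ T.card :=
      fun T => div_nonneg (PF_nonneg _ _) (by positivity)
    have hsub : (act σ F).powerset.filter
        (fun T => L' < (T.card : ℝ) ∧ (T.card : ℝ) ≤ L ∧ T ⊆ E)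
        ⊆ (act σ F).powerset.filter (fun T => Fintype.card V ≤ D * bd d T)
          ∪ (act σ F).powerset.filter
            (fun T => D * bd d T < Fintype.card V ∧ L' < (T.card : ℝ)) := by
      intro T hT
      rw [mem_filter] at hT
      rw [mem_union, mem_filter, mem_filter]
      rcases le_or_gt (Fintype.card V) (D * bd d T) with h | h
      · exact Or.inl ⟨hT.1, h⟩
      · exact Or.inr ⟨hT.1, h, hT.2.1⟩
    refine (Finset.sum_le_sum_of_subset_of_nonneg hsub (fun T _ _ => hnn T)).trans ?_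
    have hun : ∀ (A₁ A₂ : Finset (Finset (Sym2 V))),
        ∑ T ∈ A₁ ∪ A₂, PT (act σ F) T / (θ ^ 8 * q) ^ T.card
          ≤ ∑ T ∈ A₁, PT (act σ F) T / (θ ^ 8 * q) ^ T.card
            + ∑ T ∈ A₂, PT (act σ F) T / (θ ^ 8 * q) ^ T.card := by
      intro A₁ A₂
      rw [← Finset.sum_union_inter]
      have := Finset.sum_nonneg (s := A₁ ∩ A₂) (fun T _ => hnn T)
      linarith
    refine (hun _ _).trans ?_
    have hFσ := hyp_act hF σ
    have hAσ := Above_act hA σ
    have hFσne : (act σ F).Nonempty := by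
      rw [← Finset.card_pos, act_card]; exact hFne.card_pos
    have hB1 := caseB hd hFσ hq hAσ hFσne hn hx1 hxn hxD
    have hA1 := caseA hFσ hn hq hAσ hκ hζ0 hζ1 hζκ hr0 hr1 hrκ hD hθ hκθ
    have hB2 : ∑ T ∈ (act σ F).powerset.filter (fun T => Fintype.card V ≤ D * bd d T),
        PT (act σ F) T / (θ ^ 8 * q) ^ T.card
        ≤ ∑ T ∈ (act σ F).powerset.filter (fun T => Fintype.card V ≤ D * bd d T),
          PT (act σ F) T / q ^ T.card := by
      apply Finset.sum_le_sum
      intro T _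
      apply div_le_div_of_nonneg_left (PF_nonneg _ _) (by positivity)
      apply pow_le_pow_left₀ hq.le
      have : 1 ≤ θ ^ 8 := one_le_pow₀ hθ.le
      nlinarith
    rw [hBdef]
    linarith

end Pool.Agent.H29.Thresh
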