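import Pool.Agent.H29.Thresh.Global

/-! Iterating the rounds. -/

namespace Pool.Agent.H29.Thresh

open Finset

variable {V : Type*} [DecidableEq V] [Fintype V]

lemma Good_mono {α ι : Type*} [DecidableEq α] {Fm : ι → Finset α} {A B F' : Finset α} {L : ℝ}
    (hAB : A ⊆ B) (h : Good Fm A F' L) : Good Fm B F' L := by
  obtain ⟨j, h1, h2⟩ := h
  refine ⟨j, h1.trans (Finset.union_subset_union_left hAB), ?_⟩
  have : (Fm j \ B).card ≤ (Fm j \ A).card :=
    card_le_card (Finset.sdiff_subset_sdiff le_rfl hAB)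
  have : ((Fm j \ B).card : ℝ) ≤ ((Fm j \ A).card : ℝ) := by exact_mod_cast this
  linarith

lemma fail_mono {α ι : Type*} [DecidableEq α] [Fintype ι] (D : Finset α) (Fm : ι → Finset α)
    {p p' : ℝ} (hp0 : 0 ≤ p) (hpp : p ≤ p') (hp1 : p < 1) (hp'1 : p' ≤ 1) (L : ℝ) :
    fail D Fm p' L ≤ fail D Fm p L := by
  classical
  unfold fail
  have := mono_mu D hp0 hpp hp'1 hp1
    (fun V => - (((univ.filter (fun i => ¬ Good Fm V (Fm i) L)).card : ℝ) / Fintype.card ι)) (by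
      intro A B hAB
      apply neg_le_neg
      apply div_le_div_of_nonneg_right _ (by positivity)
      have : (univ.filter (fun i => ¬ Good Fm B (Fm i) L))
          ⊆ (univ.filter (fun i => ¬ Good Fm A (Fm i) L)) := by
        intro i hi
        rw [mem_filter] at hi ⊢
        exact ⟨hi.1, fun h => hi.2 (Good_mono hAB h)⟩
      exact_mod_cast card_le_card this)
  simp only [mul_neg, Finset.sum_neg_distrib] at this
  linarith

/-- The sequence of densities. -/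
noncomputable def dens (η p₀ : ℝ) : ℕ → ℝ
  | 0 => p₀
  | j + 1 => dens η p₀ j + η * dens η p₀ j - dens η p₀ j * (η * dens η p₀ j)

lemma dens_spec {η p₀ : ℝ} (hη : 0 < η) (hη1 : η ≤ 1) (hp0 : 0 < p₀) (hp1 : p₀ < 1) :
    ∀ j, p₀ ≤ dens η p₀ j ∧ dens η p₀ j ≤ (1 + η) ^ j * p₀ ∧ dens η p₀ j < 1 := by
  intro j
  induction j with
  | zero => simp [dens, hp1]
  | succ j ih =>
    obtain ⟨h1, h2, h3⟩ := ih
    set P := dens η p₀ j with hP
    have hP0 : 0 < P := by linarith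
    have e : dens η p₀ (j + 1) = P + η * P - P * (η * P) := rfl
    rw [e]
    have hηP : 0 < η * P := by positivity
    have hηP1 : η * P < 1 := by nlinarith
    refine ⟨?_, ?_, ?_⟩
    · nlinarith
    · calc P + η * P - P * (η * P) ≤ (1 + η) * P := by nlinarith
        _ ≤ (1 + η) * ((1 + η) ^ j * p₀) := mul_le_mul_of_nonneg_left h2 (by linarith)
        _ = _ := by rw [pow_succ]; ring
    · nlinarith

/-- Everything needed to run all the rounds. -/
structure Setup (d K D : ℕ) (θ ρ κ ζ r η u x₁ : ℝ) (n : ℕ) : Prop where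
  hd : 3 ≤ d
  hθ : 1 < θ
  hK : 1 ≤ K
  hC : 2 * (d * Real.exp 1) ^ 2 ≤ θ ^ K
  hu1 : 1 ≤ u
  hz2 : 4 * Real.exp 1 / (θ - 1) ≤ u ^ 2
  hz3 : (θ / (θ - 1)) ^ (2 * (d + 1)) ≤ u ^ 2
  hun : u ^ (8 * K * d) = n
  hn : 6 ≤ n
  hρ0 : 0 < ρ
  hρ1 : ρ ≤ 1 / 4
  hρθ : 1 ≤ θ * (1 - 2 * ρ) ^ 2
  hκ : 1 < κ
  hκθ : ∀ t : ℕ, ρ * n < t → κ ^ n ≤ θ ^ t
  hζ0 : 0 < ζ
  hζ1 : ζ ≤ 1
  hζκ : Real.exp ζ ≤ κ
  hr0 : 0 < r
  hr1 : r < 1
  hrκ : 1 / κ ≤ r ^ d
  hD : (1 / κ) ^ D ≤ ζ * (1 - r)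
  hη0 : 0 < η
  hη1 : η ≤ 1
  hηθ : (1 + η) ^ (8 * K * d) ≤ θ
  hηu : 4 / (η * Real.log θ) ≤ u
  hx1 : 1 ≤ x₁
  hxn : x₁ ^ ((d + 1) * d) = n
  hxD : (2 * (2 * (2 * (d * Real.exp 1) ^ 2)) ^ d) ^ D ≤ x₁

theorem all_rounds {d K D : ℕ} {θ ρ κ ζ r η u x₁ : ℝ}
    (h : Setup d K D θ ρ κ ζ r η u x₁ (Fintype.card V)) {F : Finset (Sym2 V)} (hF : Hyp d F)
    {q : ℝ} (hq : 0 < q) (hA : Above F q) (hq1 : θ ^ 9 * q ≤ 1)
    {G : Finset (Sym2 V)} (hG : ∀ σ : Equiv.Perm V, act σ F ⊆ G) :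
    fail G (fun σ : Equiv.Perm V => act σ F) (θ ^ 9 * q) 0
      ≤ (Fintype.card V : ℝ) / 2 ^ (Fintype.card V)
        + 2 / ζ ^ 2 * (1 / κ) ^ (2 * Fintype.card V)
        + (8 * K * d : ℕ) * Real.exp (-(Real.log θ / 2 * ρ * u))
        + (Real.exp (2 * ρ / (η * u)) - 1) := by
  set n := Fintype.card V with hn
  set m := 8 * K * d with hm
  have hθ := h.hθ
  have hθ0 : 0 < θ := by linarith
  have hu1 := h.hu1
  have hu0 : 0 < u := by linarith
  have hη0 := h.hη0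
  have hρ0 := h.hρ0
  have hK := h.hK
  have hd := h.hd
  have hm1 : 1 ≤ m := by
    rw [hm]
    exact Nat.one_le_iff_ne_zero.2 (by positivity)
  have hlog : 0 < Real.log θ := Real.log_pos hθ
  have hp0 : 0 < θ ^ 8 * q := by positivity
  have hp1 : θ ^ 8 * q < 1 := by
    have : θ ^ 9 * q = θ * (θ ^ 8 * q) := by ring
    nlinarith
  have hnpos : (0 : ℝ) < (n : ℝ) := by
    rw [← h.hun]; positivity
  have hFne : F.Nonempty := by
    rw [← Finset.card_pos]
    have h1 := hF.card_edges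
    have h2 := h.hn
    have : 0 < d * Fintype.card V := Nat.mul_pos (by omega) (by omega)
    omega
  have hdens := dens_spec hη0 h.hη1 hp0 hp1
  set P := dens η (θ ^ 8 * q) with hP
  set Lf : ℕ → ℝ := fun j => ρ * u ^ (m - j) with hLf
  have hLn : ∀ j, Lf j ≤ ρ * n := by
    intro j
    simp only [hLf]
    apply mul_le_mul_of_nonneg_left _ hρ0.le
    rw [← h.hun]
    exact pow_le_pow_right₀ hu1 (Nat.sub_le _ _)
  have hLn0 : ∀ j, 0 ≤ Lf j := by
    intro j; simp only [hLf]; positivity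
  have hRD : ∀ j, RD d K θ (u ^ 2) F q (P j) η (Lf j) := by
    intro j
    have hn6 : (6 : ℝ) ≤ n := by exact_mod_cast h.hn
    have hρ1 := h.hρ1
    refine ⟨⟨hd, hθ, hK, h.hC, one_le_pow₀ hu1, h.hz2, h.hz3⟩, hF, hFne, ?_, hq, hA,
      (hdens j).1, hη0, h.hη1, ?_, ?_⟩
    · rw [← pow_mul, ← hn, ← h.hun]
      congr 1
      ring
    · have := hLn j
      rw [← hn]
      nlinarith
    · rw [← hn]
      have h1 := hLn j
      have h2 : (1 - 2 * ρ) * n ≤ (n : ℝ) - 2 * Lf j := by linarith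
      have h3 : 0 ≤ (1 - 2 * ρ) * n := by
        apply mul_nonneg _ hnpos.le
        linarith
      have h4 : ((1 - 2 * ρ) * (n : ℝ)) ^ 2 ≤ ((n : ℝ) - 2 * Lf j) ^ 2 :=
        pow_le_pow_left₀ h3 h2 2
      calc (n : ℝ) ^ 2 = 1 * (n : ℝ) ^ 2 := by ring
        _ ≤ (θ * (1 - 2 * ρ) ^ 2) * (n : ℝ) ^ 2 :=
            mul_le_mul_of_nonneg_right h.hρθ (by positivity)
        _ = θ * ((1 - 2 * ρ) * n) ^ 2 := by ring
        _ ≤ _ := mul_le_mul_of_nonneg_left h4 hθ0.le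
  set Fm : Equiv.Perm V → Finset (Sym2 V) := fun σ => act σ F with hFm
  set B₀ : ℝ := (n : ℝ) / 2 ^ n + 2 / ζ ^ 2 * (1 / κ) ^ (2 * n) with hB₀
  set b : ℝ := Real.exp (-(Real.log θ / 2 * ρ * u)) with hb
  have hstep : ∀ j, j + 1 ≤ m → fail G Fm (P j) (Lf j) ≤ B₀ + j * b := by
    intro j
    induction j with
    | zero =>
      intro _
      have h1 := first_round (D := D) (by omega : 1 ≤ d) hF hFne
        (by have := h.hn; omega : 5 ≤ Fintype.card V) hq hA h.hx1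
        h.hxn h.hxD h.hκ h.hζ0 h.hζ1 h.hζκ h.hr0 h.hr1 h.hrκ h.hD hθ (L' := ρ * n) h.hκθ hG hp1.le
      have h2 : Lf 0 = ρ * n := by
        simp only [hLf, Nat.sub_zero]
        rw [hm, h.hun]
      rw [h2]
      simp only [Nat.cast_zero, zero_mul, add_zero]
      exact h1
    | succ j ih =>
      intro hj
      have h1 := ih (by omega)
      have h2 := Thresh.round (hRD j) hG (hdens j).2.2.le (Lf (j + 1))
      have h3 : P (j + 1) = P j + η * P j - P j * (η * P j) := rfl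
      rw [← h3] at h2
      have h4 : θ ^ (-(Lf (j + 1))) * Real.exp (2 * Lf j / (η * u ^ 2)) ≤ b := by
        rw [Real.rpow_def_of_pos hθ0, ← Real.exp_add, hb]
        apply Real.exp_le_exp.2
        have e1 : 2 * Lf j / (η * u ^ 2) = (2 / (η * u)) * Lf (j + 1) := by
          simp only [hLf]
          have : m - j = (m - (j + 1)) + 1 := by omega
          rw [this, pow_succ]
          field_simp
        have e2 : 2 / (η * u) ≤ Real.log θ / 2 := by
          have h5 := h.hηu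
          rw [div_le_iff₀ (by positivity)] at h5 ⊢
          nlinarith
        have e3 : ρ * u ≤ Lf (j + 1) := by
          simp only [hLf]
          apply mul_le_mul_of_nonneg_left _ hρ0.le
          calc u = u ^ 1 := (pow_one u).symm
            _ ≤ u ^ (m - (j + 1)) := pow_le_pow_right₀ hu1 (by omega)
        have e4 : (2 / (η * u)) * Lf (j + 1) ≤ Real.log θ / 2 * Lf (j + 1) :=
          mul_le_mul_of_nonneg_right e2 (hLn0 _)
        rw [e1]
        have e5 : Real.log θ / 2 * (ρ * u) ≤ Real.log θ / 2 * Lf (j + 1) :=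
          mul_le_mul_of_nonneg_left e3 (by positivity)
        nlinarith
      push_cast
      have h5 : fail G Fm (P (j + 1)) (Lf (j + 1))
          ≤ fail G Fm (P j) (Lf j) + θ ^ (-(Lf (j + 1))) * Real.exp (2 * Lf j / (η * u ^ 2)) := h2
      linarith
  -- last round
  have hlast := Thresh.round0 (hRD (m - 1)) hG (hdens (m - 1)).2.2.le (hLn0 (m - 1))
  have hP' : P (m - 1 + 1) = P (m - 1) + η * P (m - 1) - P (m - 1) * (η * P (m - 1)) := rfl
  rw [← hP'] at hlast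
  have hmm : m - 1 + 1 = m := by omega
  rw [hmm] at hlast
  have hLm : Lf (m - 1) = ρ * u := by
    simp only [hLf]
    have : m - (m - 1) = 1 := by omega
    rw [this, pow_one]
  rw [hLm] at hlast
  have hE : 2 * (ρ * u) / (η * u ^ 2) = 2 * ρ / (η * u) := by field_simp
  rw [hE] at hlast
  have hs := hstep (m - 1) (by omega)
  rw [hLm] at hs
  have hb0 : 0 < b := Real.exp_pos _
  have hmb : ((m - 1 : ℕ) : ℝ) * b ≤ (m : ℝ) * b := by
    apply mul_le_mul_of_nonneg_right _ hb0.le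
    exact_mod_cast Nat.sub_le m 1
  have hfin : fail G Fm (θ ^ 9 * q) 0 ≤ fail G Fm (P m) 0 := by
    apply fail_mono G Fm (by linarith [(hdens m).1]) _ (hdens m).2.2 hq1
    refine (hdens m).2.1.trans ?_
    calc (1 + η) ^ m * (θ ^ 8 * q) ≤ θ * (θ ^ 8 * q) :=
          mul_le_mul_of_nonneg_right h.hηθ hp0.le
      _ = θ ^ 9 * q := by ring
  linarith

end Pool.Agent.H29.Thresh
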