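import Pool.Agent.H29.Thresh.Prod

/-! The two-level fragmentation lemma. -/

namespace Pool.Agent.H29.Thresh

open Finset

variable {α : Type*} [DecidableEq α] {ι : Type*} [Fintype ι]

/-- There is a member of the family inside `V ∪ F'` missing at most `L` elements of `V`. -/
def Good (Fm : ι → Finset α) (V F' : Finset α) (L : ℝ) : Prop :=
  ∃ j, Fm j ⊆ V ∪ F' ∧ ((Fm j \ V).card : ℝ) ≤ L

/-- `j` is a canonical choice in `Z₁ ∪ Z₂`. -/
def IsMin (Fm : ι → Finset α) (Z₁ Z₂ : Finset α) (j : ι) : Prop :=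
  Fm j ⊆ Z₁ ∪ Z₂ ∧ ∀ j', Fm j' ⊆ Z₁ ∪ Z₂ → (Fm j \ Z₁).card ≤ (Fm j' \ Z₁).card

lemma exists_isMin (Fm : ι → Finset α) {Z₁ Z₂ : Finset α} {j : ι} (hj : Fm j ⊆ Z₁ ∪ Z₂) :
    ∃ j, IsMin Fm Z₁ Z₂ j := by
  classical
  obtain ⟨j0, h0, h1⟩ := Finset.exists_min_image
    (univ.filter (fun j => Fm j ⊆ Z₁ ∪ Z₂)) (fun j => (Fm j \ Z₁).card)
    ⟨j, by simp [hj]⟩
  refine ⟨j0, (mem_filter.1 h0).2, fun j' hj' => h1 j' (by simp [hj'])⟩

lemma exists_T (Fm : ι → Finset α) (V W F' : Finset α) (L L' : ℝ)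
    (hG : Good Fm V F' L) (hnG : ¬ Good Fm (V ∪ W) F' L') :
    ∃ T, T ⊆ F' ∧ Disjoint V T ∧ Disjoint W T ∧ L' < (T.card : ℝ) ∧ (T.card : ℝ) ≤ L ∧
      ∀ T₁ ⊆ T, (∃ j, IsMin Fm (V ∪ T₁) (W ∪ (T \ T₁)) j) ∧
        ∀ j, IsMin Fm (V ∪ T₁) (W ∪ (T \ T₁)) j →
          T ⊆ Fm j ∧ ((Fm j \ (V ∪ T₁)).card : ℝ) ≤ 2 * L := by
  classical
  obtain ⟨jG, hG1, hG2⟩ := hG
  obtain ⟨j0, h0, h1⟩ := Finset.exists_min_image
    (univ.filter (fun j => Fm j ⊆ V ∪ W ∪ F'))
    (fun j => (Fm j ∩ (W \ V)).card + 2 * (Fm j \ (V ∪ W)).card)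
    ⟨jG, by
      simp only [mem_filter, mem_univ, true_and]
      intro x hx
      rcases mem_union.1 (hG1 hx) with h | h
      · simp [h]
      · simp [h]⟩
  have h0' : Fm j0 ⊆ V ∪ W ∪ F' := (mem_filter.1 h0).2
  set T := Fm j0 \ (V ∪ W) with hT
  have hTV : Disjoint V T := by
    rw [Finset.disjoint_left]
    intro x hx hx'
    simp [hT, hx] at hx'
  have hTW : Disjoint W T := by
    rw [Finset.disjoint_left]
    intro x hx hx'
    simp [hT, hx] at hx'
  -- splitting of cards
  have hsplit : ∀ j, (Fm j \ V).card = (Fm j ∩ (W \ V)).card + (Fm j \ (V ∪ W)).card := by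
    intro j
    rw [← Finset.card_union_of_disjoint]
    · congr 1
      ext x
      simp only [mem_sdiff, mem_union, mem_inter]
      tauto
    · rw [Finset.disjoint_left]
      intro x hx hx'
      simp only [mem_sdiff, mem_union, mem_inter] at hx hx'
      tauto
  have hcG : (Fm j0 ∩ (W \ V)).card + 2 * T.card ≤ 2 * (Fm jG \ V).card := by
    have h2 := h1 jG (by
      simp only [mem_filter, mem_univ, true_and]
      intro x hx
      rcases mem_union.1 (hG1 hx) with h | h
      · simp [h]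
      · simp [h])
    have h3 := hsplit jG
    omega
  have hcG' : (((Fm j0 ∩ (W \ V)).card : ℝ) + 2 * T.card) ≤ 2 * L := by
    have : (((Fm j0 ∩ (W \ V)).card : ℝ) + 2 * T.card) ≤ 2 * (Fm jG \ V).card := by
      exact_mod_cast hcG
    linarith
  refine ⟨T, ?_, hTV, hTW, ?_, ?_, ?_⟩
  · intro x hx
    rw [hT, mem_sdiff] at hx
    rcases mem_union.1 (h0' hx.1) with h | h
    · exact absurd h hx.2
    · exact h
  · by_contra hcon
    push Not at hcon
    exact hnG ⟨j0, h0', hcon⟩
  · have : (0 : ℝ) ≤ ((Fm j0 ∩ (W \ V)).card : ℝ) := by positivity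
    linarith
  · intro T₁ hT₁
    have hsub : Fm j0 ⊆ V ∪ T₁ ∪ (W ∪ (T \ T₁)) := by
      intro x hx
      simp only [mem_union, mem_sdiff]
      by_cases hxV : x ∈ V
      · tauto
      by_cases hxW : x ∈ W
      · tauto
      have : x ∈ T := by simp [hT, hx, hxV, hxW]
      tauto
    refine ⟨exists_isMin Fm hsub, ?_⟩
    rintro j ⟨hj1, hj2⟩
    have hj3 := hj2 j0 hsub
    have hjsub : Fm j ⊆ V ∪ W ∪ T := by
      intro x hx
      have := hj1 hx
      simp only [mem_union, mem_sdiff] at this ⊢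
      rcases this with (h | h) | (h | h)
      · tauto
      · exact Or.inr (hT₁ h)
      · tauto
      · tauto
    have hTF' : T ⊆ F' := by
      intro x hx
      rw [hT, mem_sdiff] at hx
      rcases mem_union.1 (h0' hx.1) with h | h
      · exact absurd h hx.2
      · exact h
    have hcost := h1 j (by
      simp only [mem_filter, mem_univ, true_and]
      exact hjsub.trans (Finset.union_subset_union_right hTF'))
    -- decomposition
    have e1 : ∀ k, Fm k ⊆ V ∪ W ∪ T → (Fm k \ (V ∪ T₁)).card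
        = (Fm k ∩ (W \ V)).card + (Fm k ∩ (T \ T₁)).card := by
      intro k hk
      rw [← Finset.card_union_of_disjoint]
      · congr 1
        ext x
        have hV : x ∈ V → x ∉ T := fun h h' => (Finset.disjoint_left.1 hTV) h h'
        have hW : x ∈ W → x ∉ T := fun h h' => (Finset.disjoint_left.1 hTW) h h'
        have hTT : x ∈ T₁ → x ∈ T := fun h => hT₁ h
        have hk' : x ∈ Fm k → (x ∈ V ∨ x ∈ W) ∨ x ∈ T := by
          intro h
          have := hk h
          simpa only [mem_union] using this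
        simp only [mem_sdiff, mem_union, mem_inter]
        tauto
      · rw [Finset.disjoint_left]
        intro x hx hx'
        have hW : x ∈ W → x ∉ T := fun h h' => (Finset.disjoint_left.1 hTW) h h'
        simp only [mem_sdiff, mem_inter] at hx hx'
        tauto
    have e2 : (Fm j \ (V ∪ W)).card = (Fm j ∩ T).card := by
      congr 1
      ext x
      have hV : x ∈ V → x ∉ T := fun h h' => (Finset.disjoint_left.1 hTV) h h'
      have hW : x ∈ W → x ∉ T := fun h h' => (Finset.disjoint_left.1 hTW) h h'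
      have hk' : x ∈ Fm j → (x ∈ V ∨ x ∈ W) ∨ x ∈ T := by
        intro h
        have := hjsub h
        simpa only [mem_union] using this
      simp only [mem_sdiff, mem_union, mem_inter]
      tauto
    have hj0sub : Fm j0 ⊆ V ∪ W ∪ T := by
      intro x hx
      simp only [mem_union]
      by_cases hxV : x ∈ V
      · tauto
      by_cases hxW : x ∈ W
      · tauto
      have : x ∈ T := by simp [hT, hx, hxV, hxW]
      tauto
    have e3 := e1 j hjsub
    have e4 := e1 j0 hj0sub
    have e5 : Fm j0 ∩ (T \ T₁) = T \ T₁ := by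
      apply Finset.inter_eq_right.2
      intro x hx
      rw [mem_sdiff] at hx
      have := hx.1
      rw [hT, mem_sdiff] at this
      exact this.1
    rw [e5] at e4
    have e6 : T.card = (Fm j ∩ T).card + (T \ Fm j).card := by
      rw [Finset.inter_comm, Finset.card_inter_add_card_sdiff]
    have e7 : (T \ T₁).card = (Fm j ∩ (T \ T₁)).card + ((T \ T₁) \ Fm j).card := by
      rw [Finset.inter_comm, Finset.card_inter_add_card_sdiff]
    have e8 : ((T \ T₁) \ Fm j).card ≤ (T \ Fm j).card :=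
      card_le_card (Finset.sdiff_subset_sdiff Finset.sdiff_subset le_rfl)
    have e9 : (T \ Fm j).card = 0 := by
      omega
    constructor
    · intro x hx
      by_contra hcon
      have : x ∈ T \ Fm j := mem_sdiff.2 ⟨hx, hcon⟩
      rw [card_eq_zero] at e9
      rw [e9] at this
      simp at this
    · have h5 : (Fm j \ (V ∪ T₁)).card ≤ (Fm j0 ∩ (W \ V)).card + T.card := by
        have : (T \ T₁).card ≤ T.card := card_le_card Finset.sdiff_subset
        omega
      have h6 : ((Fm j \ (V ∪ T₁)).card : ℝ) ≤ (Fm j0 ∩ (W \ V)).card + T.card := by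
        exact_mod_cast h5
      have : (0 : ℝ) ≤ (T.card : ℝ) := by positivity
      linarith

/-- Probability that a uniformly random member of the family contains `T`. -/
noncomputable def PF (Fm : ι → Finset α) (T : Finset α) : ℝ :=
  ((univ.filter (fun i => T ⊆ Fm i)).card : ℝ) / Fintype.card ι

lemma PF_nonneg (Fm : ι → Finset α) (T : Finset α) : 0 ≤ PF Fm T := by
  unfold PF; positivity

open Classical in
/-- Probability (over the random set and the random member) of failure at level `L`. -/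
noncomputable def fail (D : Finset α) (Fm : ι → Finset α) (p L : ℝ) : ℝ :=
  ∑ V ∈ D.powerset, mu D p V *
    (((univ.filter (fun i => ¬ Good Fm V (Fm i) L)).card : ℝ) / Fintype.card ι)

lemma fail_nonneg (D : Finset α) (Fm : ι → Finset α) {p : ℝ} (h0 : 0 ≤ p) (h1 : p ≤ 1) (L : ℝ) :
    0 ≤ fail D Fm p L := by
  unfold fail
  apply Finset.sum_nonneg
  intro V _
  have := mu_nonneg D h0 h1 V
  positivity

/-- The event used for decoding. -/
def Ev (Fm : ι → Finset α) (R : Finset α → Finset α) (L : ℝ) (star : Finset α → Finset α → ι)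
    (Z₁ Z₂ T : Finset α) : Prop :=
  T ⊆ Fm (star Z₁ Z₂) ∧ R T ⊆ Fm (star Z₁ Z₂) \ Z₁ ∧ ((Fm (star Z₁ Z₂) \ Z₁).card : ℝ) ≤ 2 * L

open Classical in
theorem key {D : Finset α} {Fm : ι → Finset α} (hFD : ∀ i, Fm i ⊆ D) [Nonempty ι]
    {p p' : ℝ} (hp0 : 0 ≤ p) (hp1 : p ≤ 1) (hp'0 : 0 < p') (hp'1 : p' ≤ 1)
    (R : Finset α → Finset α) (hR : ∀ T, R T ⊆ T) (hpos : 0 < p ∨ ∀ T, R T = T)
    {L L' B : ℝ}
    (hB : ∀ j : ι, ∀ E ⊆ Fm j, (E.card : ℝ) ≤ 2 * L →
      ∑ T ∈ (Fm j).powerset.filter (fun T => L' < (T.card : ℝ) ∧ (T.card : ℝ) ≤ L ∧ R T ⊆ E),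
        PF Fm T / (p ^ (T \ R T).card * p' ^ (R T).card) ≤ B) (hB0 : 0 ≤ B) :
    fail D Fm (p + p' - p * p') L' ≤ fail D Fm p L + B := by
  set star : Finset α → Finset α → ι := fun Z₁ Z₂ =>
    if h : ∃ j, IsMin Fm Z₁ Z₂ j then h.choose else Classical.arbitrary ι with hstar
  set c : Finset α → ℝ := fun T => p ^ (T \ R T).card * p' ^ (R T).card with hc
  have hcpos : ∀ T, 0 < c T := by
    intro T
    rcases hpos with h | h
    · simp only [hc]; positivity
    · simp only [hc, h T, sdiff_self, bot_eq_empty, card_empty, pow_zero, one_mul]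
      positivity
  have hN : (0 : ℝ) < Fintype.card ι := by exact_mod_cast Fintype.card_pos
  -- pointwise bound
  have hpt : ∀ V W : Finset α, ∀ i : ι,
      (if ¬ Good Fm (V ∪ W) (Fm i) L' then (1 : ℝ) else 0)
        ≤ (if ¬ Good Fm V (Fm i) L then (1 : ℝ) else 0)
          + ∑ T ∈ D.powerset.filter (fun T => L' < (T.card : ℝ) ∧ (T.card : ℝ) ≤ L),
            (if T ⊆ Fm i then (1 : ℝ) else 0) *
              ((if Disjoint V T ∧ Disjoint W T then (1 : ℝ) else 0) *
              (if Ev Fm R L star (V ∪ (T \ R T)) (W ∪ R T) T then (1 : ℝ) else 0)) := by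
    intro V W i
    have hnn : ∀ T : Finset α, 0 ≤ (if T ⊆ Fm i then (1 : ℝ) else 0) *
              ((if Disjoint V T ∧ Disjoint W T then (1 : ℝ) else 0) *
              (if Ev Fm R L star (V ∪ (T \ R T)) (W ∪ R T) T then (1 : ℝ) else 0)) := by
      intro T
      split_ifs <;> norm_num
    by_cases hb : ¬ Good Fm (V ∪ W) (Fm i) L'
    · by_cases hg : ¬ Good Fm V (Fm i) L
      · rw [if_pos hb, if_pos hg]
        have := Finset.sum_nonneg (s := D.powerset.filter
          (fun T => L' < (T.card : ℝ) ∧ (T.card : ℝ) ≤ L)) (fun T _ => hnn T)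
        linarith
      · rw [if_pos hb, if_neg hg]
        push Not at hg
        obtain ⟨T, hT1, hT2, hT3, hT4, hT5, hT6⟩ := exists_T Fm V W (Fm i) L L' hg hb
        have hTD : T ∈ D.powerset.filter (fun T => L' < (T.card : ℝ) ∧ (T.card : ℝ) ≤ L) := by
          rw [mem_filter, mem_powerset]
          exact ⟨hT1.trans (hFD i), hT4, hT5⟩
        have hle := Finset.single_le_sum (f := fun T => (if T ⊆ Fm i then (1 : ℝ) else 0) *
              ((if Disjoint V T ∧ Disjoint W T then (1 : ℝ) else 0) *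
              (if Ev Fm R L star (V ∪ (T \ R T)) (W ∪ R T) T then (1 : ℝ) else 0)))
              (fun T _ => hnn T) hTD
        have hEv : Ev Fm R L star (V ∪ (T \ R T)) (W ∪ R T) T := by
          obtain ⟨hex, hall⟩ := hT6 (T \ R T) Finset.sdiff_subset
          have hRT : T \ (T \ R T) = R T := by
            rw [Finset.sdiff_sdiff_eq_self (hR T)]
          rw [hRT] at hex hall
          have hst : IsMin Fm (V ∪ (T \ R T)) (W ∪ R T) (star (V ∪ (T \ R T)) (W ∪ R T)) := by
            simp only [hstar]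
            rw [dif_pos hex]
            exact hex.choose_spec
          obtain ⟨h1, h2⟩ := hall _ hst
          refine ⟨h1, ?_, h2⟩
          intro x hx
          rw [mem_sdiff]
          refine ⟨h1 (hR T hx), ?_⟩
          rw [mem_union]
          rintro (h | h)
          · exact (Finset.disjoint_left.1 hT2) h (hR T hx)
          · rw [mem_sdiff] at h
            exact h.2 hx
        rw [if_pos hT1, if_pos ⟨hT2, hT3⟩, if_pos hEv] at hle
        linarith
    · rw [if_neg hb]
      have h1 := Finset.sum_nonneg (s := D.powerset.filter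
          (fun T => L' < (T.card : ℝ) ∧ (T.card : ℝ) ≤ L)) (fun T _ => hnn T)
      have h2 : (0 : ℝ) ≤ (if ¬ Good Fm V (Fm i) L then (1 : ℝ) else 0) := by
        split_ifs <;> norm_num
      linarith
  have hcardR : ∀ (P : ι → Prop) [DecidablePred P], (((univ.filter (fun i => P i)).card : ℝ))
      = ∑ i : ι, (if P i then (1 : ℝ) else 0) := by
    intro P _
    rw [Finset.card_filter]
    push_cast
    rfl
  -- rewrite the failure probability of the union
  have hF1 : fail D Fm (p + p' - p * p') L' = ∑ V ∈ D.powerset, ∑ W ∈ D.powerset,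
      mu D p V * mu D p' W * ((∑ i : ι, (if ¬ Good Fm (V ∪ W) (Fm i) L' then (1 : ℝ) else 0))
        / Fintype.card ι) := by
    unfold fail
    rw [← conv D p p' (fun U =>
      (((univ.filter (fun i => ¬ Good Fm U (Fm i) L')).card : ℝ) / Fintype.card ι))]
    simp only [hcardR]
  have hF2 : fail D Fm p L = ∑ V ∈ D.powerset, ∑ W ∈ D.powerset,
      mu D p V * mu D p' W * ((∑ i : ι, (if ¬ Good Fm V (Fm i) L then (1 : ℝ) else 0))
        / Fintype.card ι) := by
    unfold fail
    apply Finset.sum_congr rfl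
    intro V _
    rw [← Finset.sum_mul, ← Finset.mul_sum, sum_mu, mul_one]
    simp only [hcardR]
  -- the second part
  set S2 : ℝ := ∑ V ∈ D.powerset, ∑ W ∈ D.powerset, mu D p V * mu D p' W *
      ((∑ i : ι, ∑ T ∈ D.powerset.filter (fun T => L' < (T.card : ℝ) ∧ (T.card : ℝ) ≤ L),
            (if T ⊆ Fm i then (1 : ℝ) else 0) *
              ((if Disjoint V T ∧ Disjoint W T then (1 : ℝ) else 0) *
              (if Ev Fm R L star (V ∪ (T \ R T)) (W ∪ R T) T then (1 : ℝ) else 0)))
        / Fintype.card ι) with hS2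
  have hmain : fail D Fm (p + p' - p * p') L' ≤ fail D Fm p L + S2 := by
    rw [hF1, hF2, hS2, ← Finset.sum_add_distrib]
    apply Finset.sum_le_sum
    intro V _
    rw [← Finset.sum_add_distrib]
    apply Finset.sum_le_sum
    intro W _
    rw [← mul_add]
    apply mul_le_mul_of_nonneg_left _
      (mul_nonneg (mu_nonneg D hp0 hp1 V) (mu_nonneg D hp'0.le hp'1 W))
    rw [← add_div, ← Finset.sum_add_distrib]
    apply div_le_div_of_nonneg_right _ hN.le
    exact Finset.sum_le_sum (fun i _ => hpt V W i)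
  refine hmain.trans (add_le_add le_rfl ?_)
  -- evaluate the inner sum over i
  have hS2' : S2 = ∑ T ∈ D.powerset.filter (fun T => L' < (T.card : ℝ) ∧ (T.card : ℝ) ≤ L),
      PF Fm T * ∑ V ∈ D.powerset, ∑ W ∈ D.powerset, mu D p V * mu D p' W *
        ((if Disjoint V T ∧ Disjoint W T then (1 : ℝ) else 0) *
              (if Ev Fm R L star (V ∪ (T \ R T)) (W ∪ R T) T then (1 : ℝ) else 0)) := by
    rw [hS2]
    have h1 : ∀ V W : Finset α, (∑ i : ι, ∑ T ∈ D.powerset.filter
          (fun T => L' < (T.card : ℝ) ∧ (T.card : ℝ) ≤ L),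
            (if T ⊆ Fm i then (1 : ℝ) else 0) *
              ((if Disjoint V T ∧ Disjoint W T then (1 : ℝ) else 0) *
              (if Ev Fm R L star (V ∪ (T \ R T)) (W ∪ R T) T then (1 : ℝ) else 0)))
        / Fintype.card ι = ∑ T ∈ D.powerset.filter
          (fun T => L' < (T.card : ℝ) ∧ (T.card : ℝ) ≤ L), PF Fm T *
              ((if Disjoint V T ∧ Disjoint W T then (1 : ℝ) else 0) *
              (if Ev Fm R L star (V ∪ (T \ R T)) (W ∪ R T) T then (1 : ℝ) else 0)) := by
      intro V W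
      rw [Finset.sum_comm, Finset.sum_div]
      apply Finset.sum_congr rfl
      intro T _
      rw [← Finset.sum_mul, ← hcardR]
      unfold PF
      ring
    simp_rw [h1, Finset.mul_sum]
    rw [Finset.sum_congr rfl (fun V _ => Finset.sum_comm), Finset.sum_comm]
    apply Finset.sum_congr rfl
    intro T _
    apply Finset.sum_congr rfl
    intro V _
    apply Finset.sum_congr rfl
    intro W _
    ring
  rw [hS2']
  -- bound for each T
  have hT : ∀ T ∈ D.powerset.filter (fun T => L' < (T.card : ℝ) ∧ (T.card : ℝ) ≤ L),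
      PF Fm T * ∑ V ∈ D.powerset, ∑ W ∈ D.powerset, mu D p V * mu D p' W *
        ((if Disjoint V T ∧ Disjoint W T then (1 : ℝ) else 0) *
              (if Ev Fm R L star (V ∪ (T \ R T)) (W ∪ R T) T then (1 : ℝ) else 0))
      ≤ ∑ Z₁ ∈ D.powerset, ∑ Z₂ ∈ D.powerset, mu D p Z₁ * mu D p' Z₂ *
        (PF Fm T / c T * (if Ev Fm R L star Z₁ Z₂ T then (1 : ℝ) else 0)) := by
    intro T hT
    rw [mem_filter, mem_powerset] at hT
    set T₁ := T \ R T with hT₁
    have hT₁D : T₁ ⊆ D := Finset.sdiff_subset.trans hT.1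
    have hT₂D : R T ⊆ D := (hR T).trans hT.1
    set g : Finset α → Finset α → ℝ := fun Z₁ Z₂ =>
      (if Ev Fm R L star Z₁ Z₂ T then (1 : ℝ) else 0) with hg
    have hgnn : ∀ Z₁ Z₂, 0 ≤ g Z₁ Z₂ := by
      intro Z₁ Z₂; simp only [hg]; split_ifs <;> norm_num
    -- first reduce to filtered sums
    have s1 : (∑ V ∈ D.powerset, ∑ W ∈ D.powerset, mu D p V * mu D p' W *
        ((if Disjoint V T ∧ Disjoint W T then (1 : ℝ) else 0) * g (V ∪ T₁) (W ∪ R T)))
        ≤ ∑ V ∈ D.powerset.filter (fun V => Disjoint V T₁), mu D p V *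
          ∑ W ∈ D.powerset.filter (fun W => Disjoint W (R T)), mu D p' W *
            g (V ∪ T₁) (W ∪ R T) := by
      rw [Finset.sum_filter]
      apply Finset.sum_le_sum
      intro V _
      by_cases hV : Disjoint V T₁
      · rw [if_pos hV, Finset.mul_sum, Finset.sum_filter]
        apply Finset.sum_le_sum
        intro W _
        have hm : 0 ≤ mu D p V * mu D p' W :=
          mul_nonneg (mu_nonneg D hp0 hp1 V) (mu_nonneg D hp'0.le hp'1 W)
        by_cases hW : Disjoint W (R T)
        · rw [if_pos hW]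
          have h3 : (if Disjoint V T ∧ Disjoint W T then (1 : ℝ) else 0) * g (V ∪ T₁) (W ∪ R T)
              ≤ g (V ∪ T₁) (W ∪ R T) := by
            have := hgnn (V ∪ T₁) (W ∪ R T)
            split_ifs
            · linarith
            · linarith
          calc _ ≤ mu D p V * mu D p' W * g (V ∪ T₁) (W ∪ R T) :=
                mul_le_mul_of_nonneg_left h3 hm
            _ = _ := by ring
        · rw [if_neg hW, if_neg]
          · simp
          · rintro ⟨_, h⟩
            exact hW (Finset.disjoint_of_subset_right (hR T) h)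
      · rw [if_neg hV]
        apply le_of_eq
        apply Finset.sum_eq_zero
        intro W _
        rw [if_neg]
        · simp
        · rintro ⟨h, _⟩
          exact hV (Finset.disjoint_of_subset_right Finset.sdiff_subset h)
    have s2 : (∑ V ∈ D.powerset.filter (fun V => Disjoint V T₁), mu D p V *
          ∑ W ∈ D.powerset.filter (fun W => Disjoint W (R T)), mu D p' W *
            g (V ∪ T₁) (W ∪ R T)) * c T
        ≤ ∑ Z₁ ∈ D.powerset, mu D p Z₁ * ∑ Z₂ ∈ D.powerset, mu D p' Z₂ * g Z₁ Z₂ := by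
      have h4 : ∀ Z₁, (∑ W ∈ D.powerset.filter (fun W => Disjoint W (R T)), mu D p' W *
            g Z₁ (W ∪ R T)) * p' ^ (R T).card ≤ ∑ Z₂ ∈ D.powerset, mu D p' Z₂ * g Z₁ Z₂ :=
        fun Z₁ => shift hT₂D hp'0.le hp'1 (fun Z => g Z₁ Z) (fun Z => hgnn Z₁ Z)
      have h5 := shift hT₁D hp0 hp1 (fun Z₁ => ∑ Z₂ ∈ D.powerset, mu D p' Z₂ * g Z₁ Z₂)
        (fun Z₁ => Finset.sum_nonneg (fun Z₂ _ =>
          mul_nonneg (mu_nonneg D hp'0.le hp'1 Z₂) (hgnn Z₁ Z₂)))
      refine le_trans ?_ h5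
      have hcT : c T = p' ^ (R T).card * p ^ T₁.card := by
        simp only [hc, hT₁]; ring
      rw [hcT, ← mul_assoc]
      apply mul_le_mul_of_nonneg_right _ (by positivity)
      rw [Finset.sum_mul]
      apply Finset.sum_le_sum
      intro V _
      rw [mul_assoc]
      exact mul_le_mul_of_nonneg_left (h4 (V ∪ T₁)) (mu_nonneg D hp0 hp1 V)
    have s3 : (∑ V ∈ D.powerset, ∑ W ∈ D.powerset, mu D p V * mu D p' W *
        ((if Disjoint V T ∧ Disjoint W T then (1 : ℝ) else 0) * g (V ∪ T₁) (W ∪ R T)))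
        ≤ (∑ Z₁ ∈ D.powerset, mu D p Z₁ * ∑ Z₂ ∈ D.powerset, mu D p' Z₂ * g Z₁ Z₂) / c T := by
      rw [le_div_iff₀ (hcpos T)]
      exact (mul_le_mul_of_nonneg_right s1 (hcpos T).le).trans s2
    calc _ ≤ PF Fm T * ((∑ Z₁ ∈ D.powerset, mu D p Z₁ *
          ∑ Z₂ ∈ D.powerset, mu D p' Z₂ * g Z₁ Z₂) / c T) :=
          mul_le_mul_of_nonneg_left s3 (PF_nonneg Fm T)
      _ = _ := by
          rw [mul_div_assoc', mul_comm (PF Fm T), mul_div_assoc, Finset.sum_mul]
          apply Finset.sum_congr rfl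
          intro Z₁ _
          rw [Finset.mul_sum, Finset.sum_mul]
          apply Finset.sum_congr rfl
          intro Z₂ _
          ring
  refine (Finset.sum_le_sum hT).trans ?_
  rw [Finset.sum_comm]
  have hZ : ∀ Z₁ ∈ D.powerset, (∑ T ∈ D.powerset.filter
      (fun T => L' < (T.card : ℝ) ∧ (T.card : ℝ) ≤ L), ∑ Z₂ ∈ D.powerset,
        mu D p Z₁ * mu D p' Z₂ *
        (PF Fm T / c T * (if Ev Fm R L star Z₁ Z₂ T then (1 : ℝ) else 0)))
      ≤ ∑ Z₂ ∈ D.powerset, mu D p Z₁ * mu D p' Z₂ * B := by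
    intro Z₁ _
    rw [Finset.sum_comm]
    apply Finset.sum_le_sum
    intro Z₂ _
    rw [← Finset.mul_sum]
    apply mul_le_mul_of_nonneg_left _
      (mul_nonneg (mu_nonneg D hp0 hp1 Z₁) (mu_nonneg D hp'0.le hp'1 Z₂))
    by_cases hE : ((Fm (star Z₁ Z₂) \ Z₁).card : ℝ) ≤ 2 * L
    · refine le_trans ?_ (hB (star Z₁ Z₂) (Fm (star Z₁ Z₂) \ Z₁) Finset.sdiff_subset hE)
      have : ∀ T ∈ D.powerset.filter (fun T => L' < (T.card : ℝ) ∧ (T.card : ℝ) ≤ L),
          PF Fm T / c T * (if Ev Fm R L star Z₁ Z₂ T then (1 : ℝ) else 0)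
          = if Ev Fm R L star Z₁ Z₂ T then PF Fm T / c T else 0 := by
        intro T _
        split_ifs <;> simp
      rw [Finset.sum_congr rfl this, ← Finset.sum_filter]
      apply Finset.sum_le_sum_of_subset_of_nonneg
      · intro T hT
        simp only [mem_filter, mem_powerset, Ev] at hT ⊢
        tauto
      · intro T _ _
        exact div_nonneg (PF_nonneg Fm T) (hcpos T).le
    · refine le_trans (le_of_eq ?_) hB0
      apply Finset.sum_eq_zero
      intro T _
      rw [if_neg, mul_zero]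
      rintro ⟨_, _, h⟩
      exact hE h
  refine (Finset.sum_le_sum hZ).trans ?_
  have : ∀ Z₁ ∈ D.powerset, ∑ Z₂ ∈ D.powerset, mu D p Z₁ * mu D p' Z₂ * B = mu D p Z₁ * B := by
    intro Z₁ _
    rw [← Finset.sum_mul, ← Finset.mul_sum, sum_mu, mul_one]
  rw [Finset.sum_congr rfl this, ← Finset.sum_mul, sum_mu, one_mul]

end Pool.Agent.H29.Thresh
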