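import Pool.Agent.H29.Thresh.Param
import Pool.Agent.H29.Thresh.Defs

/-! Linking simple graphs and edge sets. -/

namespace Pool.Agent.H29.Thresh

open Finset Classical

variable {n : ℕ}

/-- The edge set of a simple graph as a finset. -/
noncomputable def ef (G : SimpleGraph (Fin n)) : Finset (Sym2 (Fin n)) :=
  G.edgeSet.toFinset

lemma mem_ef {G : SimpleGraph (Fin n)} {e : Sym2 (Fin n)} : e ∈ ef G ↔ e ∈ G.edgeSet := by
  simp [ef]

lemma mk_mem_ef {G : SimpleGraph (Fin n)} {a b : Fin n} : s(a, b) ∈ ef G ↔ G.Adj a b := by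
  rw [mem_ef, SimpleGraph.mem_edgeSet]

lemma edgeNum_eq (G : SimpleGraph (Fin n)) : edgeNum G = (ef G).card := by
  unfold edgeNum ef
  rw [Set.ncard_eq_toFinset_card']

/-- All pairs. -/
noncomputable def DD (n : ℕ) : Finset (Sym2 (Fin n)) := ef (⊤ : SimpleGraph (Fin n))

lemma mem_DD {e : Sym2 (Fin n)} : e ∈ DD n ↔ ¬ e.IsDiag := by
  unfold DD
  rw [mem_ef]
  induction e using Sym2.ind with
  | _ x y => simp

lemma DD_card : (DD n).card = n.choose 2 := by
  have h := SimpleGraph.card_edgeFinset_top_eq_card_choose_two (V := Fin n)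
  rw [Fintype.card_fin] at h
  rw [← h]
  congr 1
  ext e
  rw [mem_DD, SimpleGraph.mem_edgeFinset]
  induction e using Sym2.ind with
  | _ x y => simp

lemma ef_sub (G : SimpleGraph (Fin n)) : ef G ⊆ DD n := by
  intro e he
  rw [mem_DD]
  rw [mem_ef] at he
  exact G.not_isDiag_of_mem_edgeSet he

lemma ef_mono {G G' : SimpleGraph (Fin n)} : ef G ⊆ ef G' ↔ G ≤ G' := by
  constructor
  · intro h a b hab
    exact mk_mem_ef.1 (h (mk_mem_ef.2 hab))
  · intro h e he
    induction e using Sym2.ind with
    | _ x y => exact mk_mem_ef.2 (h (mk_mem_ef.1 he))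

lemma ef_injective : Function.Injective (ef (n := n)) := by
  intro G G' h
  exact le_antisymm (ef_mono.1 h.le) (ef_mono.1 h.ge)

/-- Graph of an edge finset. -/
def gr (T : Finset (Sym2 (Fin n))) : SimpleGraph (Fin n) :=
  SimpleGraph.fromEdgeSet (T : Set (Sym2 (Fin n)))

lemma ef_gr {T : Finset (Sym2 (Fin n))} (hT : T ⊆ DD n) : ef (gr T) = T := by
  ext e
  rw [mem_ef, gr, SimpleGraph.edgeSet_fromEdgeSet]
  constructor
  · intro h
    exact mem_coe.1 h.1
  · intro h
    exact ⟨mem_coe.2 h, fun hd => mem_DD.1 (hT h) hd⟩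

lemma act_sub_DD {T : Finset (Sym2 (Fin n))} (hT : T ⊆ DD n) (σ : Equiv.Perm (Fin n)) :
    act σ T ⊆ DD n := by
  intro e he
  rw [mem_act] at he
  obtain ⟨f, hf, rfl⟩ := he
  have := mem_DD.1 (hT hf)
  rw [mem_DD]
  induction f using Sym2.ind with
  | _ x y =>
    simp only [Sym2.map_mk, Sym2.mk_isDiag_iff] at this ⊢
    exact fun h => this (σ.injective h)

lemma contained_iff {F G : SimpleGraph (Fin n)} :
    F.IsContained G ↔ ∃ σ : Equiv.Perm (Fin n), act σ (ef F) ⊆ ef G := by
  constructor
  · rintro ⟨φ⟩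
    have hinj : Function.Injective (fun x => φ x) := φ.injective
    have hbij : Function.Bijective (fun x => φ x) := Finite.injective_iff_bijective.1 hinj
    refine ⟨Equiv.ofBijective _ hbij, ?_⟩
    intro e he
    rw [mem_act] at he
    obtain ⟨f, hf, rfl⟩ := he
    induction f using Sym2.ind with
    | _ x y =>
      rw [mk_mem_ef] at hf
      simp only [Sym2.map_mk, Equiv.ofBijective_apply]
      rw [mk_mem_ef]
      exact φ.toHom.map_adj hf
  · rintro ⟨σ, hσ⟩
    refine ⟨⟨⟨fun x => σ x, ?_⟩, σ.injective⟩⟩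
    intro a b hab
    have : s(σ a, σ b) ∈ act σ (ef F) := mem_act.2 ⟨s(a, b), mk_mem_ef.2 hab, by simp⟩
    exact mk_mem_ef.1 (hσ this)

/-- The containment probability as a sum over edge sets. -/
lemma containProb_eq (F : SimpleGraph (Fin n)) (p : ℝ) :
    containProb F p = ∑ U ∈ (DD n).powerset,
      mu (DD n) p U * (if ∃ σ : Equiv.Perm (Fin n), act σ (ef F) ⊆ U then 1 else 0) := by
  unfold containProb
  refine Finset.sum_nbij' (fun G => ef G) (fun U => gr U) ?_ ?_ ?_ ?_ ?_
  · intro G _
    exact mem_powerset.2 (ef_sub G)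
  · intro U _
    exact mem_univ _
  · intro G _
    exact ef_injective (ef_gr (ef_sub G))
  · intro U hU
    exact ef_gr (mem_powerset.1 hU)
  · intro G _
    by_cases h : F.IsContained G
    · rw [if_pos h, if_pos (contained_iff.1 h), mul_one, edgeNum_eq]
      unfold mu
      rw [DD_card]
    · rw [if_neg h, if_neg (fun h' => h (contained_iff.2 h')), mul_zero]

lemma good_iff (F : SimpleGraph (Fin n)) (U F' : Finset (Sym2 (Fin n))) :
    Good (fun σ : Equiv.Perm (Fin n) => act σ (ef F)) U F' 0
      ↔ ∃ σ : Equiv.Perm (Fin n), act σ (ef F) ⊆ U := by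
  constructor
  · rintro ⟨σ, _, h⟩
    refine ⟨σ, ?_⟩
    have h1 : (act σ (ef F) \ U).card = 0 := by
      have : ((act σ (ef F) \ U).card : ℝ) = 0 := le_antisymm h (by positivity)
      exact_mod_cast this
    rw [card_eq_zero] at h1
    exact Finset.sdiff_eq_empty_iff_subset.1 h1
  · rintro ⟨σ, h⟩
    refine ⟨σ, h.trans Finset.subset_union_left, ?_⟩
    show ((act σ (ef F) \ U).card : ℝ) ≤ 0
    rw [Finset.sdiff_eq_empty_iff_subset.2 h]
    simp

lemma fail_eq (F : SimpleGraph (Fin n)) (p : ℝ) :
    fail (DD n) (fun σ : Equiv.Perm (Fin n) => act σ (ef F)) p 0 = 1 - containProb F p := by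
  rw [containProb_eq]
  have h1 : ∀ U ∈ (DD n).powerset,
      mu (DD n) p U * (((univ.filter (fun i : Equiv.Perm (Fin n) =>
        ¬ Good (fun σ : Equiv.Perm (Fin n) => act σ (ef F)) U (act i (ef F)) 0)).card : ℝ)
          / Fintype.card (Equiv.Perm (Fin n)))
      = mu (DD n) p U - mu (DD n) p U *
        (if ∃ σ : Equiv.Perm (Fin n), act σ (ef F) ⊆ U then 1 else 0) := by
    intro U _
    have hN : (0 : ℝ) < Fintype.card (Equiv.Perm (Fin n)) := by
      exact_mod_cast Fintype.card_pos
    by_cases h : ∃ σ : Equiv.Perm (Fin n), act σ (ef F) ⊆ U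
    · rw [if_pos h]
      have : (univ.filter (fun i : Equiv.Perm (Fin n) =>
        ¬ Good (fun σ : Equiv.Perm (Fin n) => act σ (ef F)) U (act i (ef F)) 0)) = ∅ := by
        apply Finset.filter_eq_empty_iff.2
        intro i _
        rw [not_not, good_iff]
        exact h
      rw [this]
      simp
    · rw [if_neg h]
      have : (univ.filter (fun i : Equiv.Perm (Fin n) =>
        ¬ Good (fun σ : Equiv.Perm (Fin n) => act σ (ef F)) U (act i (ef F)) 0)) = univ := by
        apply Finset.filter_eq_self.2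
        intro i _
        rw [good_iff]
        exact h
      rw [this, Finset.card_univ, div_self hN.ne']
      ring
  unfold fail
  rw [Finset.sum_congr rfl h1, Finset.sum_sub_distrib, sum_mu]

/-- The hypotheses of the problem give the edge-set hypotheses. -/
lemma hyp_of {d : ℕ} (hd : 3 ≤ d) {F : SimpleGraph (Fin n)}
    (hreg : ∀ v, (F.neighborSet v).ncard = d) (hb : SparseBdry d F) : Hyp d (ef F) := by
  have hl : ∀ e ∈ ef F, ¬ e.IsDiag := fun e he => mem_DD.1 (ef_sub F he)
  have hr : ∀ x : Fin n, ((ef F).filter (fun e => x ∈ e)).card = d := by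
    intro x
    rw [← hreg x, Set.ncard_eq_toFinset_card']
    symm
    refine Finset.card_bij (fun y _ => s(x, y)) ?_ ?_ ?_
    · intro y hy
      rw [Set.mem_toFinset, SimpleGraph.mem_neighborSet] at hy
      rw [mem_filter]
      exact ⟨mk_mem_ef.2 hy, by simp⟩
    · intro y _ y' _ h
      have := Sym2.congr_right.1 h
      exact this
    · intro e he
      rw [mem_filter] at he
      obtain ⟨y, rfl⟩ := Sym2.mem_iff_exists.1 he.2
      exact ⟨y, by rw [Set.mem_toFinset, SimpleGraph.mem_neighborSet]; exact mk_mem_ef.1 he.1, rfl⟩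
  refine ⟨hl, hr, ?_⟩
  intro S hS hc hv
  rw [Fintype.card_fin] at hv
  have hdeg := deg_sum_aux hl hr hS
  rcases le_or_gt 3 (vs S).card with h3 | h3
  · -- use the boundary condition
    set H : F.Subgraph :=
      { verts := (vs S : Set (Fin n))
        Adj := fun u w => s(u, w) ∈ S
        adj_sub := fun {u w} h => mk_mem_ef.1 (hS h)
        edge_vert := fun {u w} h => mem_coe.2 (mem_vs.2 ⟨s(u, w), h, by simp⟩)
        symm := ⟨fun u w h => by rw [Sym2.eq_swap]; exact h⟩ } with hH
    have hvn : H.verts.ncard = (vs S).card := by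
      rw [hH]
      exact Set.ncard_coe_finset _
    have h4 := hb H (by rw [hvn]; exact h3) (by rw [hvn]; omega)
    have h5 : (edgeBdry d F H).ncard ≤ (nb (ef F) S).card := by
      rw [← Set.ncard_coe_finset]
      apply Set.ncard_le_ncard _ (Set.toFinite _)
      rintro e ⟨u, hu, w, hw, huw, rfl⟩
      rw [mem_coe, mem_nb]
      refine ⟨mk_mem_ef.2 huw, ?_, u, by simp, mem_coe.1 hu.1⟩
      intro hcon
      exact hw (mem_coe.2 (mem_vs.2 ⟨s(u, w), hcon, by simp⟩))
    omega
  · -- a single edge
    have h1 : (vs S).card = 2 ∧ S.card = 1 := by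
      obtain ⟨e, he⟩ := hc.1
      have hsub : ∀ f ∈ S, f.toFinset ⊆ vs S := by
        intro f hf x hx
        exact mem_vs.2 ⟨f, hf, Sym2.mem_toFinset.1 hx⟩
      have hcard : ∀ f ∈ S, f.toFinset.card = 2 := fun f hf =>
        Sym2.card_toFinset_of_not_isDiag f (hl f (hS hf))
      have h2 : 2 ≤ (vs S).card := by
        rw [← hcard e he]
        exact card_le_card (hsub e he)
      have h2' : (vs S).card = 2 := by omega
      refine ⟨h2', ?_⟩
      rw [Finset.card_eq_one]
      refine ⟨e, ?_⟩
      ext f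
      rw [mem_singleton]
      constructor
      · intro hf
        have e1 : f.toFinset = vs S := Finset.eq_of_subset_of_card_le (hsub f hf)
          (by rw [h2', hcard f hf])
        have e2 : e.toFinset = vs S := Finset.eq_of_subset_of_card_le (hsub e he)
          (by rw [h2', hcard e he])
        apply Sym2.ext
        intro x
        rw [← Sym2.mem_toFinset, ← Sym2.mem_toFinset, e1, e2]
      · rintro rfl
        exact he
    rw [h1.1, h1.2]
    omega

end Pool.Agent.H29.Thresh
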