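import Pool.Agent.H29.Thresh.Orbit

/-! Local weight estimates. -/

namespace Pool.Agent.H29.Thresh

open Finset

/-- Lower bound for the falling factorial. -/
lemma desc_lower {n v : ℕ} (hv : v ≤ n) :
    ((n : ℝ) / Real.exp 1) ^ v ≤ (n.descFactorial v : ℝ) := by
  have he : (1 : ℝ) ≤ Real.exp 1 := by
    have := Real.add_one_le_exp (1 : ℝ); linarith
  have hepos : (0 : ℝ) < Real.exp 1 := Real.exp_pos 1
  rcases le_or_gt ((n : ℝ) / Real.exp 1) ((n : ℝ) - v) with h | h
  · have h1 := Nat.pow_sub_le_descFactorial n v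
    have h2 : ((n + 1 - v : ℕ) : ℝ) = (n : ℝ) + 1 - v := by
      rw [Nat.cast_sub (by omega)]; push_cast; ring
    have h3 : ((n + 1 - v : ℕ) : ℝ) ^ v ≤ (n.descFactorial v : ℝ) := by exact_mod_cast h1
    refine le_trans ?_ h3
    apply pow_le_pow_left₀ (by positivity)
    rw [h2]
    linarith
  · have h1 : ((n - v : ℕ).factorial : ℝ) * (n.descFactorial v : ℝ) = (n.factorial : ℝ) := by
      exact_mod_cast Nat.factorial_mul_descFactorial hv
    have h2 : (n : ℝ) ^ n ≤ Real.exp 1 ^ n * (n.factorial : ℝ) := by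
      have := Real.pow_div_factorial_le_exp (n : ℝ) (by positivity) n
      rw [div_le_iff₀ (by exact_mod_cast Nat.factorial_pos n)] at this
      rw [← Real.exp_nat_mul, mul_one]
      exact this
    have h3 : ((n : ℝ) / Real.exp 1) ^ n ≤ (n.factorial : ℝ) := by
      rw [div_pow, div_le_iff₀ (by positivity)]
      linarith
    have h4 : ((n - v : ℕ).factorial : ℝ) ≤ ((n : ℝ) / Real.exp 1) ^ (n - v) := by
      have h5 : ((n - v : ℕ).factorial : ℝ) ≤ ((n - v : ℕ) : ℝ) ^ (n - v) := by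
        exact_mod_cast Nat.factorial_le_pow (n - v)
      refine h5.trans (pow_le_pow_left₀ (by positivity) ?_ _)
      rw [Nat.cast_sub hv]
      exact h.le
    have hfp : (0 : ℝ) < ((n - v : ℕ).factorial : ℝ) := by exact_mod_cast Nat.factorial_pos _
    rcases Nat.eq_zero_or_pos n with hn | hn
    · subst hn
      have : v = 0 := by omega
      subst this
      simp
    · have hb : (0 : ℝ) < (n : ℝ) / Real.exp 1 := by
        have : (0 : ℝ) < n := by exact_mod_cast hn
        positivity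
      have h6 : ((n : ℝ) / Real.exp 1) ^ v * ((n : ℝ) / Real.exp 1) ^ (n - v)
          = ((n : ℝ) / Real.exp 1) ^ n := by
        rw [← pow_add]; congr 1; omega
      have h7 : ((n : ℝ) / Real.exp 1) ^ v * ((n - v : ℕ).factorial : ℝ)
          ≤ ((n - v : ℕ).factorial : ℝ) * (n.descFactorial v : ℝ) := by
        calc _ ≤ ((n : ℝ) / Real.exp 1) ^ v * ((n : ℝ) / Real.exp 1) ^ (n - v) :=
              mul_le_mul_of_nonneg_left h4 (by positivity)
          _ = ((n : ℝ) / Real.exp 1) ^ n := h6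
          _ ≤ (n.factorial : ℝ) := h3
          _ = _ := h1.symm
      have h8 : ((n - v : ℕ).factorial : ℝ) * ((n : ℝ) / Real.exp 1) ^ v
          ≤ ((n - v : ℕ).factorial : ℝ) * (n.descFactorial v : ℝ) := by
        rw [mul_comm]; exact h7
      exact le_of_mul_le_mul_left h8 hfp

variable {V : Type*} [DecidableEq V] [Fintype V]

lemma vs_card_le_two (S : Finset (Sym2 V)) : (vs S).card ≤ 2 * S.card := by
  unfold vs
  refine Finset.card_biUnion_le.trans ?_
  calc ∑ e ∈ S, e.toFinset.card ≤ ∑ e ∈ S, 2 := by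
        apply Finset.sum_le_sum
        intro e _
        by_cases h : e.IsDiag
        · rw [Sym2.card_toFinset_of_isDiag e h]; norm_num
        · rw [Sym2.card_toFinset_of_not_isDiag e h]
    _ = 2 * S.card := by rw [Finset.sum_const, smul_eq_mul]; ring

lemma Hyp.card_edges {d : ℕ} {F : Finset (Sym2 V)} (hF : Hyp d F) :
    2 * F.card = d * Fintype.card V := by
  have h1 : d * Fintype.card V = ∑ x : V, (F.filter (fun e => x ∈ e)).card := by
    rw [Finset.sum_congr rfl (fun x _ => hF.reg x)]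
    simp [mul_comm]
  have h2 : ∑ x : V, (F.filter (fun e => x ∈ e)).card
      = ∑ e ∈ F, ((univ : Finset V).filter (fun x => x ∈ e)).card := by
    have := Finset.sum_card_bipartiteAbove_eq_sum_card_bipartiteBelow
      (r := fun (x : V) (e : Sym2 V) => x ∈ e) (s := (univ : Finset V)) (t := F)
    simpa only [Finset.bipartiteAbove, Finset.bipartiteBelow] using this
  have h3 : ∀ e ∈ F, ((univ : Finset V).filter (fun x => x ∈ e)).card = 2 := by
    intro e he
    have : (univ : Finset V).filter (fun x => x ∈ e) = e.toFinset := by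
      ext x; simp
    rw [this, Sym2.card_toFinset_of_not_isDiag e (hF.loopless e he)]
  rw [h1, h2, Finset.sum_congr rfl h3, Finset.sum_const, smul_eq_mul, mul_comm]

/-- Lower bound on `q`. -/
lemma q_lower {d : ℕ} {F : Finset (Sym2 V)} (hF : Hyp d F) {q : ℝ} (hq : 0 < q)
    (hA : Above F q) {x : ℝ} (hx : 0 < x) (hxd : x ^ d = Fintype.card V) (hFne : F.Nonempty) :
    1 / (2 * x ^ 2) ≤ q := by
  by_contra hcon
  push Not at hcon
  have h1 := hA F le_rfl
  have h2 : ((orb F).card : ℝ) ≤ (Fintype.card V : ℝ) ^ (Fintype.card V) := by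
    have h3 : (orb F).card ≤ (Fintype.card V).factorial := by
      unfold orb
      refine Finset.card_image_le.trans ?_
      rw [Finset.card_univ, Fintype.card_perm]
    have h4 := h3.trans (Nat.factorial_le_pow _)
    exact_mod_cast h4
  have h3 : q ^ F.card ≤ (1 / (2 * x ^ 2)) ^ F.card := pow_le_pow_left₀ hq.le hcon.le _
  have h4 : (Fintype.card V : ℝ) ^ (Fintype.card V) = x ^ (2 * F.card) := by
    rw [hF.card_edges, pow_mul, hxd]
  have h5 : ((orb F).card : ℝ) * q ^ F.card ≤ x ^ (2 * F.card) * (1 / (2 * x ^ 2)) ^ F.card := by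
    rw [← h4]
    exact mul_le_mul h2 h3 (by positivity) (by positivity)
  have h6 : x ^ (2 * F.card) * (1 / (2 * x ^ 2)) ^ F.card = (1 / 2) ^ F.card := by
    rw [pow_mul, ← mul_pow]
    congr 1
    field_simp
  rw [h6] at h5
  have h7 : ((1 : ℝ) / 2) ^ F.card ≤ (1 / 2) ^ 1 :=
    pow_le_pow_of_le_one (by norm_num) (by norm_num) hFne.card_pos
  linarith

/-- The vertex bound. -/
lemma vertex_bound {d : ℕ} (hd : 1 ≤ d) {F : Finset (Sym2 V)} (hF : Hyp d F) {q : ℝ} (hq : 0 < q)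
    {x : ℝ} (hx : 0 < x) (hxd : x ^ d = Fintype.card V) (hql : 1 / (2 * x ^ 2) ≤ q)
    {T : Finset (Sym2 V)} (hT : T ⊆ F) {k : ℕ}
    (hh : hA F T (vs T) ≤ (Fintype.card V) ^ k * d ^ (vs T).card) :
    PT F T / q ^ T.card ≤ (2 * (d * Real.exp 1) ^ 2) ^ T.card * x ^ (d * k) / x ^ (bd d T) := by
  have hepos : (0 : ℝ) < Real.exp 1 := Real.exp_pos 1
  have he1 : (1 : ℝ) ≤ Real.exp 1 := by
    have := Real.add_one_le_exp (1 : ℝ); linarith
  have hd' : (1 : ℝ) ≤ (d : ℝ) := by exact_mod_cast hd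
  set n := Fintype.card V with hn
  set v := (vs T).card with hv
  set s := T.card with hs
  have hvn : v ≤ n := vs_card_le T
  have hnpos : (0 : ℝ) < (n : ℝ) := by rw [← hxd]; positivity
  have hdl := desc_lower hvn
  have hdpos : (0 : ℝ) < ((n : ℝ) / Real.exp 1) ^ v := by positivity
  have hddpos : (0 : ℝ) < (n.descFactorial v : ℝ) := lt_of_lt_of_le hdpos hdl
  have hbd : d * v = 2 * s + bd d T := by
    have h0 := hF.deg_sum hT
    have h1 : 2 * s ≤ d * v := by rw [hs, hv]; omega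
    have h2 : bd d T = d * v - 2 * s := rfl
    rw [h2]
    omega
  have hh' : (hA F T (vs T) : ℝ) ≤ (n : ℝ) ^ k * (d : ℝ) ^ v := by exact_mod_cast hh
  have h1 : PT F T ≤ (n : ℝ) ^ k * (d : ℝ) ^ v / ((n : ℝ) / Real.exp 1) ^ v := by
    rw [PT_eq']
    exact div_le_div₀ (by positivity) hh' hdpos hdl
  have h2 : (1 / (2 * x ^ 2)) ^ s ≤ q ^ s := pow_le_pow_left₀ (by positivity) hql _
  have h3 : PT F T / q ^ s ≤ ((n : ℝ) ^ k * (d : ℝ) ^ v / ((n : ℝ) / Real.exp 1) ^ v)
      / (1 / (2 * x ^ 2)) ^ s := by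
    apply div_le_div₀ (by positivity) h1 (by positivity) h2
  refine h3.trans ?_
  have h4 : ((n : ℝ) ^ k * (d : ℝ) ^ v / ((n : ℝ) / Real.exp 1) ^ v) / (1 / (2 * x ^ 2)) ^ s
      = (d * Real.exp 1) ^ v * 2 ^ s * (x ^ (d * k) / x ^ (bd d T)) := by
    have e1 : (n : ℝ) ^ k = x ^ (d * k) := by rw [pow_mul, hxd]
    have e2 : ((n : ℝ)) ^ v = x ^ (2 * s) * x ^ (bd d T) := by
      rw [← pow_add, ← hbd, pow_mul, hxd]
    rw [div_pow, e2, e1, mul_pow, one_div, inv_pow, mul_pow, ← pow_mul]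
    field_simp
  rw [h4, mul_div_assoc]
  apply mul_le_mul_of_nonneg_right _ (by positivity)
  have h5 : v ≤ 2 * s := vs_card_le_two T
  have hde : (1 : ℝ) ≤ (d : ℝ) * Real.exp 1 := by nlinarith
  calc ((d : ℝ) * Real.exp 1) ^ v * 2 ^ s ≤ ((d : ℝ) * Real.exp 1) ^ (2 * s) * 2 ^ s := by
        apply mul_le_mul_of_nonneg_right (pow_le_pow_right₀ hde h5) (by positivity)
    _ = (2 * ((d : ℝ) * Real.exp 1) ^ 2) ^ s := by
        rw [pow_mul, ← mul_pow]; congr 1; ring

/-- Vertex bound for connected sets. -/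
lemma vertex_bound_conn {d : ℕ} (hd : 1 ≤ d) {F : Finset (Sym2 V)} (hF : Hyp d F) {q : ℝ}
    (hq : 0 < q) {x : ℝ} (hx : 0 < x) (hxd : x ^ d = Fintype.card V)
    (hql : 1 / (2 * x ^ 2) ≤ q) {S : Finset (Sym2 V)} (hS : S ⊆ F) (hc : Conn S) :
    PT F S / q ^ S.card ≤ (2 * (d * Real.exp 1) ^ 2) ^ S.card * x ^ d / x ^ (bd d S) := by
  have := vertex_bound hd hF hq hx hxd hql hS (k := 1) (by
    rw [pow_one]
    refine (hA_conn hF.reg hc).trans ?_
    exact Nat.mul_le_mul_left _ (Nat.pow_le_pow_right hd (by omega)))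
  rwa [mul_one] at this

/-- Number of copies of a connected set through a vertex. -/
lemma sub_through {d : ℕ} {F : Finset (Sym2 V)} (hF : Hyp d F) {r : ℝ} (h0 : 0 < r) (h1 : r < 1)
    {S : Finset (Sym2 V)} (hc : Conn S) (y : V) :
    (((sub F S).filter (fun T => y ∈ vs T)).card : ℝ)
      ≤ 1 / (r ^ S.card * (1 - r) ^ (bd d S)) := by
  classical
  have h1' : 0 < 1 - r := by linarith
  rw [le_div_iff₀ (by positivity)]
  refine le_trans ?_ (hF.cluster h0.le h1.le y)
  calc (((sub F S).filter (fun T => y ∈ vs T)).card : ℝ) * (r ^ S.card * (1 - r) ^ (bd d S))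
      = ∑ T ∈ (sub F S).filter (fun T => y ∈ vs T), r ^ T.card * (1 - r) ^ (bd d T) := by
        rw [← nsmul_eq_mul, ← Finset.sum_const]
        apply Finset.sum_congr rfl
        intro T hT
        rw [mem_filter, mem_sub] at hT
        rw [orb_card_eq hT.1.1, orb_bd hT.1.1]
    _ ≤ _ := by
        apply Finset.sum_le_sum_of_subset_of_nonneg
        · intro T hT
          rw [mem_filter, mem_sub] at hT
          rw [mem_filter, mem_powerset]
          exact ⟨hT.1.2, orb_conn hT.1.1 hc, hT.2⟩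
        · intro T _ _
          positivity

/-- Multiplicity bound. -/
lemma mult_bound {d : ℕ} {F : Finset (Sym2 V)} (hF : Hyp d F) {q : ℝ} (hq : 0 < q)
    (hA : Above F q) {r : ℝ} (h0 : 0 < r) (h1 : r < 1) {S : Finset (Sym2 V)} (hS : S ⊆ F)
    (hc : Conn S) :
    PT F S / q ^ S.card
      ≤ 4 * Real.exp 1 * S.card * (1 / (r ^ S.card * (1 - r) ^ (bd d S))) := by
  have h1' : 0 < 1 - r := by linarith
  set M := ⌊1 / (r ^ S.card * (1 - r) ^ (bd d S))⌋₊ with hM
  have hMle : (M : ℝ) ≤ 1 / (r ^ S.card * (1 - r) ^ (bd d S)) := Nat.floor_le (by positivity)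
  have h2 := disjoint_copies hq hA hS hc.1 (M := M) (by
    intro y
    rw [hM]
    apply Nat.le_floor
    exact sub_through hF h0 h1 hc y)
  refine h2.trans ?_
  have h3 : ((vs S).card : ℝ) ≤ 2 * S.card := by exact_mod_cast vs_card_le_two S
  have hepos : (0 : ℝ) < Real.exp 1 := Real.exp_pos 1
  calc 2 * Real.exp 1 * ((vs S).card : ℝ) * M
      ≤ 2 * Real.exp 1 * (2 * S.card) * (1 / (r ^ S.card * (1 - r) ^ (bd d S))) := by
        apply mul_le_mul _ hMle (by positivity) (by positivity)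
        exact mul_le_mul_of_nonneg_left h3 (by positivity)
    _ = _ := by ring

/-- Purely numerical part of the local estimate. -/
lemma local_num {d K s b : ℕ} {θ A C z w : ℝ} (hθ : 1 < θ) (hA : 1 ≤ A)
    (hC : C ≤ θ ^ K) (hC0 : 0 ≤ C) (hK : 1 ≤ K) (hz1 : 1 ≤ z)
    (hz2 : 4 * Real.exp 1 / (θ - 1) ≤ z)
    (hz3 : A ^ (2 * (d + 1)) ≤ z) (hb : d + 1 ≤ b)
    (hw1 : w ≤ C ^ s * (z ^ (4 * K)) ^ d / (z ^ (4 * K)) ^ b)
    (hw2 : w ≤ 4 * Real.exp 1 * s * (θ ^ s * A ^ b)) (hw0 : 0 ≤ w) :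
    A ^ b * w ≤ θ ^ (5 * s) / z := by
  have hz0 : 0 < z := by linarith
  have hA0 : 0 < A := by linarith
  have hθ0 : 0 < θ := by linarith
  set y := z ^ K with hy
  have hy1 : 1 ≤ y := one_le_pow₀ hz1
  have hy0 : 0 < y := by linarith
  have hzy : z ≤ y := by
    calc z = z ^ 1 := (pow_one z).symm
      _ ≤ z ^ K := pow_le_pow_right₀ hz1 hK
  have hx : z ^ (4 * K) = y ^ 4 := by rw [hy, ← pow_mul]; congr 1; ring
  rw [hx] at hw1
  obtain ⟨c, hc⟩ : ∃ c, b = d + (c + 1) := ⟨b - d - 1, by omega⟩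
  -- w ≤ C^s / (y^4)^(c+1)
  have hw1' : w ≤ C ^ s / (y ^ 4) ^ (c + 1) := by
    have : C ^ s * (y ^ 4) ^ d / (y ^ 4) ^ b = C ^ s / (y ^ 4) ^ (c + 1) := by
      rw [hc, pow_add (y ^ 4) d (c + 1)]
      field_simp
    rwa [this] at hw1
  have hθs1 : 1 ≤ θ ^ (5 * s) := one_le_pow₀ hθ.le
  have hAK : A ^ ((K + 1) * (d + 1)) ≤ y := by
    calc A ^ ((K + 1) * (d + 1)) ≤ A ^ (2 * (d + 1) * K) := by
          apply pow_le_pow_right₀ hA
          nlinarith
      _ = (A ^ (2 * (d + 1))) ^ K := by rw [pow_mul]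
      _ ≤ z ^ K := pow_le_pow_left₀ (by positivity) hz3 K
  have hbc : b ≤ (d + 1) * (c + 1) := by
    rw [hc]; nlinarith
  have hfin : 1 / z ≤ θ ^ (5 * s) / z := by
    apply div_le_div_of_nonneg_right hθs1 hz0.le
  have hy3 : 1 / y ^ 3 ≤ 1 / z := by
    apply one_div_le_one_div_of_le hz0
    calc z ≤ y := hzy
      _ = y ^ 1 := (pow_one y).symm
      _ ≤ y ^ 3 := pow_le_pow_right₀ hy1 (by norm_num)
  rcases le_or_gt (θ ^ s) (z ^ 2) with hs | hs
  · -- short case
    have hCs : C ^ s ≤ y ^ 2 := by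
      calc C ^ s ≤ (θ ^ K) ^ s := pow_le_pow_left₀ hC0 hC s
        _ = (θ ^ s) ^ K := by rw [← pow_mul, ← pow_mul, mul_comm]
        _ ≤ (z ^ 2) ^ K := pow_le_pow_left₀ (by positivity) hs K
        _ = y ^ 2 := by rw [hy, ← pow_mul, ← pow_mul, mul_comm]
    have hAb : A ^ b ≤ y ^ (c + 1) := by
      calc A ^ b ≤ A ^ ((d + 1) * (c + 1)) := pow_le_pow_right₀ hA hbc
        _ = (A ^ (d + 1)) ^ (c + 1) := by rw [pow_mul]
        _ ≤ y ^ (c + 1) := by
            apply pow_le_pow_left₀ (by positivity)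
            refine le_trans ?_ hAK
            exact pow_le_pow_right₀ hA (Nat.le_mul_of_pos_left _ (by omega))
    calc A ^ b * w ≤ y ^ (c + 1) * (C ^ s / (y ^ 4) ^ (c + 1)) :=
          mul_le_mul hAb hw1' hw0 (by positivity)
      _ ≤ y ^ (c + 1) * (y ^ 2 / (y ^ 4) ^ (c + 1)) := by
          apply mul_le_mul_of_nonneg_left _ (by positivity)
          exact div_le_div_of_nonneg_right hCs (by positivity)
      _ = y ^ 2 / (y ^ 3) ^ (c + 1) := by
          rw [show (y ^ 4) ^ (c + 1) = y ^ (c + 1) * (y ^ 3) ^ (c + 1) by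
            rw [← mul_pow]; congr 1; ring]
          field_simp
      _ ≤ y ^ 2 / (y ^ 3) ^ 1 := by
          apply div_le_div_of_nonneg_left (by positivity) (by positivity)
          exact pow_le_pow_right₀ (one_le_pow₀ hy1) (by omega)
      _ = 1 / y := by field_simp
      _ ≤ 1 / z := one_div_le_one_div_of_le hz0 hzy
      _ ≤ _ := hfin
  · rcases le_or_gt (A ^ b) (θ ^ s) with hab | hab
    · -- small boundary
      have hsθ : (s : ℝ) * (θ - 1) ≤ θ ^ s := by
        have := one_add_mul_le_pow (a := θ - 1) (by linarith) s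
        rw [add_sub_cancel] at this
        linarith
      have hθ1 : 0 < θ - 1 := by linarith
      have hsθ' : (s : ℝ) ≤ θ ^ s / (θ - 1) := by
        rw [le_div_iff₀ hθ1]; exact hsθ
      calc A ^ b * w ≤ A ^ b * (4 * Real.exp 1 * s * (θ ^ s * A ^ b)) :=
            mul_le_mul_of_nonneg_left hw2 (by positivity)
        _ = (A ^ b) * (A ^ b) * (4 * Real.exp 1 * s) * θ ^ s := by ring
        _ ≤ θ ^ s * θ ^ s * (4 * Real.exp 1 * (θ ^ s / (θ - 1))) * θ ^ s := by
            apply mul_le_mul_of_nonneg_right _ (by positivity)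
            apply mul_le_mul _ _ (by positivity) (by positivity)
            · exact mul_le_mul hab hab (by positivity) (by positivity)
            · exact mul_le_mul_of_nonneg_left hsθ' (by positivity)
        _ = (4 * Real.exp 1 / (θ - 1)) * θ ^ (4 * s) := by
            rw [show 4 * s = s + s + s + s by ring, pow_add, pow_add, pow_add]
            ring
        _ ≤ z * θ ^ (4 * s) := mul_le_mul_of_nonneg_right hz2 (by positivity)
        _ = z ^ 2 * θ ^ (4 * s) / z := by field_simp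
        _ ≤ θ ^ s * θ ^ (4 * s) / z := by
            apply div_le_div_of_nonneg_right _ hz0.le
            exact mul_le_mul_of_nonneg_right hs.le (by positivity)
        _ = θ ^ (5 * s) / z := by rw [← pow_add]; congr 2; ring
    · -- large boundary
      have hCs : C ^ s ≤ A ^ (K * b) := by
        calc C ^ s ≤ (θ ^ K) ^ s := pow_le_pow_left₀ hC0 hC s
          _ = (θ ^ s) ^ K := by rw [← pow_mul, ← pow_mul, mul_comm]
          _ ≤ (A ^ b) ^ K := pow_le_pow_left₀ (by positivity) hab.le K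
          _ = A ^ (K * b) := by rw [← pow_mul, mul_comm]
      have hAb : A ^ b * A ^ (K * b) ≤ y ^ (c + 1) := by
        calc A ^ b * A ^ (K * b) = A ^ ((K + 1) * b) := by rw [← pow_add]; congr 1; ring
          _ ≤ A ^ ((K + 1) * (d + 1) * (c + 1)) := by
              apply pow_le_pow_right₀ hA
              calc (K + 1) * b ≤ (K + 1) * ((d + 1) * (c + 1)) := Nat.mul_le_mul_left _ hbc
                _ = _ := by ring
          _ = (A ^ ((K + 1) * (d + 1))) ^ (c + 1) := by rw [pow_mul]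
          _ ≤ y ^ (c + 1) := pow_le_pow_left₀ (by positivity) hAK _
      calc A ^ b * w ≤ A ^ b * (C ^ s / (y ^ 4) ^ (c + 1)) :=
            mul_le_mul_of_nonneg_left hw1' (by positivity)
        _ ≤ A ^ b * (A ^ (K * b) / (y ^ 4) ^ (c + 1)) := by
            apply mul_le_mul_of_nonneg_left _ (by positivity)
            exact div_le_div_of_nonneg_right hCs (by positivity)
        _ = (A ^ b * A ^ (K * b)) / (y ^ 4) ^ (c + 1) := by ring
        _ ≤ y ^ (c + 1) / (y ^ 4) ^ (c + 1) := div_le_div_of_nonneg_right hAb (by positivity)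
        _ = 1 / (y ^ 3) ^ (c + 1) := by
            rw [show (y ^ 4) ^ (c + 1) = y ^ (c + 1) * (y ^ 3) ^ (c + 1) by
              rw [← mul_pow]; congr 1; ring]
            field_simp
        _ ≤ 1 / (y ^ 3) ^ 1 := by
            apply one_div_le_one_div_of_le (by positivity)
            exact pow_le_pow_right₀ (one_le_pow₀ hy1) (by omega)
        _ = 1 / y ^ 3 := by rw [pow_one]
        _ ≤ 1 / z := hy3
        _ ≤ _ := hfin

/-- Numerical parameters for the local estimate. -/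
structure Par (d K : ℕ) (θ z : ℝ) : Prop where
  hd : 3 ≤ d
  hθ : 1 < θ
  hK : 1 ≤ K
  hC : 2 * (d * Real.exp 1) ^ 2 ≤ θ ^ K
  hz1 : 1 ≤ z
  hz2 : 4 * Real.exp 1 / (θ - 1) ≤ z
  hz3 : (θ / (θ - 1)) ^ (2 * (d + 1)) ≤ z

lemma local_w {d K : ℕ} {θ z : ℝ} (hP : Par d K θ z) {F : Finset (Sym2 V)} (hF : Hyp d F)
    (hFne : F.Nonempty) (hn : (Fintype.card V : ℝ) = z ^ (4 * K * d)) {q : ℝ} (hq : 0 < q)
    (hA : Above F q) {S : Finset (Sym2 V)} (hS : S ⊆ F) (hc : Conn S) (hb : d + 1 ≤ bd d S) :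
    (θ / (θ - 1)) ^ (bd d S) * (PT F S / q ^ S.card) ≤ θ ^ (5 * S.card) / z := by
  have hz0 : 0 < z := by linarith [hP.hz1]
  have hθ := hP.hθ
  have hθ1 : 0 < θ - 1 := by linarith
  have hx : 0 < z ^ (4 * K) := by positivity
  have hxd : (z ^ (4 * K)) ^ d = Fintype.card V := by rw [hn, ← pow_mul]
  have hd1 : 1 ≤ d := by linarith [hP.hd]
  have hql := q_lower hF hq hA hx hxd hFne
  have hr0 : 0 < 1 / θ := by positivity
  have hr1 : 1 / θ < 1 := by
    rw [div_lt_one (by linarith)]; exact hθ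
  have hA1 : 1 ≤ θ / (θ - 1) := by
    rw [le_div_iff₀ hθ1]; linarith
  refine local_num (C := 2 * (d * Real.exp 1) ^ 2) hθ hA1 hP.hC (by positivity) hP.hK hP.hz1
    hP.hz2 hP.hz3 hb ?_ ?_ ?_
  · exact vertex_bound_conn hd1 hF hq hx hxd hql hS hc
  · have := mult_bound hF hq hA hr0 hr1 hS hc
    refine this.trans (le_of_eq ?_)
    congr 1
    have : 1 - 1 / θ = (θ - 1) / θ := by field_simp
    rw [this, one_div, mul_inv, ← inv_pow, ← inv_pow, one_div, inv_inv, inv_div]
  · exact div_nonneg (PF_nonneg _ _) (by positivity)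

open Classical in
/-- The local sum. -/
lemma local_sum {d K : ℕ} {θ z : ℝ} (hP : Par d K θ z) {F : Finset (Sym2 V)} (hF : Hyp d F)
    (hFne : F.Nonempty) (hn : (Fintype.card V : ℝ) = z ^ (4 * K * d)) {q : ℝ} (hq : 0 < q)
    (hA : Above F q) (x : V) :
    ∑ S ∈ F.powerset.filter (fun S => Conn S ∧ x ∈ vs S ∧ d + 1 ≤ bd d S),
      (1 / θ) ^ (6 * S.card) * (PT F S / q ^ S.card) ≤ 1 / z := by
  have hz0 : 0 < z := by linarith [hP.hz1]
  have hθ := hP.hθ
  have hθ0 : 0 < θ := by linarith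
  have hθ1 : 0 < θ - 1 := by linarith
  have hr0 : 0 < 1 / θ := by positivity
  have hr1 : 1 / θ < 1 := by
    rw [div_lt_one (by linarith)]; exact hθ
  have h1 : ∀ S ∈ F.powerset.filter (fun S => Conn S ∧ x ∈ vs S ∧ d + 1 ≤ bd d S),
      (1 / θ) ^ (6 * S.card) * (PT F S / q ^ S.card)
        ≤ ((1 / θ) ^ S.card * (1 - 1 / θ) ^ (bd d S)) * (1 / z) := by
    intro S hS
    rw [mem_filter, mem_powerset] at hS
    have h2 := local_w hP hF hFne hn hq hA hS.1 hS.2.1 hS.2.2.2
    have h3 : 1 - 1 / θ = (θ - 1) / θ := by field_simp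
    have h4 : (PT F S / q ^ S.card) ≤ θ ^ (5 * S.card) / z * ((θ - 1) / θ) ^ (bd d S) := by
      have h5 : (θ / (θ - 1)) ^ (bd d S) * ((θ - 1) / θ) ^ (bd d S) = 1 := by
        rw [← mul_pow]
        have : θ / (θ - 1) * ((θ - 1) / θ) = 1 := by field_simp
        rw [this, one_pow]
      calc (PT F S / q ^ S.card) = ((θ / (θ - 1)) ^ (bd d S) * ((θ - 1) / θ) ^ (bd d S))
            * (PT F S / q ^ S.card) := by rw [h5, one_mul]
        _ = ((θ / (θ - 1)) ^ (bd d S) * (PT F S / q ^ S.card)) * ((θ - 1) / θ) ^ (bd d S) := by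
            ring
        _ ≤ _ := mul_le_mul_of_nonneg_right h2 (by positivity)
    calc (1 / θ) ^ (6 * S.card) * (PT F S / q ^ S.card)
        ≤ (1 / θ) ^ (6 * S.card) * (θ ^ (5 * S.card) / z * ((θ - 1) / θ) ^ (bd d S)) :=
          mul_le_mul_of_nonneg_left h4 (by positivity)
      _ = ((1 / θ) ^ S.card * (1 - 1 / θ) ^ (bd d S)) * (1 / z) := by
          rw [h3]
          have : (1 / θ) ^ (6 * S.card) * θ ^ (5 * S.card) = (1 / θ) ^ S.card := by
            rw [show 6 * S.card = 5 * S.card + S.card by ring, pow_add, mul_right_comm,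
              ← mul_pow]
            have : 1 / θ * θ = 1 := by field_simp
            rw [this, one_pow, one_mul]
          rw [← this]
          ring
  refine (Finset.sum_le_sum h1).trans ?_
  rw [← Finset.sum_mul]
  have h2 : ∑ S ∈ F.powerset.filter (fun S => Conn S ∧ x ∈ vs S ∧ d + 1 ≤ bd d S),
      ((1 / θ) ^ S.card * (1 - 1 / θ) ^ (bd d S)) ≤ 1 := by
    refine le_trans (Finset.sum_le_sum_of_subset_of_nonneg ?_ ?_)
      (hF.cluster hr0.le hr1.le x)
    · intro S hS
      rw [mem_filter] at hS ⊢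
      exact ⟨hS.1, hS.2.1, hS.2.2.1⟩
    · intro S _ _
      have : 0 < 1 - 1 / θ := by linarith
      positivity
  calc _ ≤ 1 * (1 / z) := mul_le_mul_of_nonneg_right h2 (by positivity)
    _ = 1 / z := one_mul _

end Pool.Agent.H29.Thresh
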