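import Pool.Agent.H29.Thresh.PermCount

/-! Orbits of edge sets, the number of copies, and the disjoint copies bound. -/

namespace Pool.Agent.H29.Thresh

open Finset

variable {V : Type*} [DecidableEq V] [Fintype V]

/-- All copies of `T` in the complete graph. -/
def orb (T : Finset (Sym2 V)) : Finset (Finset (Sym2 V)) :=
  univ.image (fun σ : Equiv.Perm V => act σ T)

lemma mem_orb {T S : Finset (Sym2 V)} : S ∈ orb T ↔ ∃ σ : Equiv.Perm V, act σ T = S := by
  simp [orb]

lemma self_mem_orb (T : Finset (Sym2 V)) : T ∈ orb T := mem_orb.2 ⟨1, act_one T⟩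

lemma orb_card_pos (T : Finset (Sym2 V)) : 0 < (orb T).card :=
  Finset.card_pos.2 ⟨T, self_mem_orb T⟩

/-- Copies of `T` inside `F`. -/
def sub (F T : Finset (Sym2 V)) : Finset (Finset (Sym2 V)) := (orb T).filter (fun S => S ⊆ F)

lemma PT_eq_div (F T : Finset (Sym2 V)) :
    PT F T = ((sub F T).card : ℝ) / ((orb T).card : ℝ) := by
  set c := (univ.filter (fun σ : Equiv.Perm V => act σ T = T)).card with hc
  have hfib : ∀ T' ∈ orb T, (univ.filter (fun σ : Equiv.Perm V => act σ T = T')).card = c := by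
    intro T' hT'
    obtain ⟨σ₀, rfl⟩ := mem_orb.1 hT'
    rw [hc]
    symm
    refine Finset.card_bij (fun τ _ => σ₀ * τ) ?_ ?_ ?_
    · intro τ hτ
      rw [mem_filter] at hτ ⊢
      exact ⟨mem_univ _, by rw [act_mul, hτ.2]⟩
    · intro τ _ τ' _ h
      exact mul_left_cancel h
    · intro σ hσ
      rw [mem_filter] at hσ
      refine ⟨σ₀⁻¹ * σ, ?_, by simp⟩
      rw [mem_filter]
      exact ⟨mem_univ _, by rw [act_mul, hσ.2, act_inv_act]⟩
  have hcpos : 0 < c := by
    rw [hc]
    exact Finset.card_pos.2 ⟨1, by rw [mem_filter]; exact ⟨mem_univ _, act_one T⟩⟩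
  have hall : (Fintype.card V).factorial = (orb T).card * c := by
    rw [← Fintype.card_perm, ← Finset.card_univ,
      Finset.card_eq_sum_card_fiberwise (f := fun σ : Equiv.Perm V => act σ T) (t := orb T)]
    · rw [Finset.sum_congr rfl hfib]
      simp
    · intro σ _
      exact mem_orb.2 ⟨σ, rfl⟩
  have hgood : (good F T).card = (sub F T).card * c := by
    rw [Finset.card_eq_sum_card_fiberwise (f := fun σ : Equiv.Perm V => act σ T) (t := sub F T)]
    · have : ∀ T' ∈ sub F T, ((good F T).filter (fun σ => act σ T = T')).card = c := by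
        intro T' hT'
        unfold sub at hT'
        rw [mem_filter] at hT'
        rw [← hfib T' hT'.1]
        congr 1
        ext σ
        simp only [mem_filter, mem_good, mem_univ, true_and]
        constructor
        · exact fun h => h.2
        · intro h
          exact ⟨by rw [h]; exact hT'.2, h⟩
      rw [Finset.sum_congr rfl this]
      simp
    · intro σ hσ
      rw [mem_coe, mem_good] at hσ
      rw [mem_coe]
      unfold sub
      rw [mem_filter]
      exact ⟨mem_orb.2 ⟨σ, rfl⟩, hσ⟩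
  rw [PT_eq, hgood, hall]
  have h1 : (0 : ℝ) < (c : ℝ) := by exact_mod_cast hcpos
  have h2 : (0 : ℝ) < ((orb T).card : ℝ) := by exact_mod_cast orb_card_pos T
  push_cast
  field_simp

lemma mem_sub {F T S : Finset (Sym2 V)} : S ∈ sub F T ↔ S ∈ orb T ∧ S ⊆ F := by
  unfold sub; rw [mem_filter]

lemma orb_card_eq {T S : Finset (Sym2 V)} (h : S ∈ orb T) : S.card = T.card := by
  obtain ⟨σ, rfl⟩ := mem_orb.1 h
  exact act_card σ T

lemma orb_vs_card {T S : Finset (Sym2 V)} (h : S ∈ orb T) : (vs S).card = (vs T).card := by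
  obtain ⟨σ, rfl⟩ := mem_orb.1 h
  exact vs_act_card σ T

lemma orb_conn {T S : Finset (Sym2 V)} (h : S ∈ orb T) (hT : Conn T) : Conn S := by
  obtain ⟨σ, rfl⟩ := mem_orb.1 h
  exact conn_act hT

lemma orb_bd {d : ℕ} {T S : Finset (Sym2 V)} (h : S ∈ orb T) : bd d S = bd d T := by
  unfold bd
  rw [orb_card_eq h, orb_vs_card h]

/-- `act` maps the orbit of `T` to itself. -/
lemma orb_act {σ : Equiv.Perm V} {T S : Finset (Sym2 V)} (h : S ∈ orb T) : act σ S ∈ orb T := by
  obtain ⟨τ, rfl⟩ := mem_orb.1 h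
  exact mem_orb.2 ⟨σ * τ, act_mul σ τ T⟩

lemma act_biUnion (σ : Equiv.Perm V) (C : Finset (Finset (Sym2 V))) :
    act σ (C.biUnion id) = (C.image (act σ)).biUnion id := by
  ext e
  simp only [mem_act, mem_biUnion, mem_image, id]
  constructor
  · rintro ⟨f, ⟨S, hS, hf⟩, rfl⟩
    exact ⟨act σ S, ⟨S, hS, rfl⟩, mem_act.2 ⟨f, hf, rfl⟩⟩
  · rintro ⟨_, ⟨S, hS, rfl⟩, he⟩
    obtain ⟨f, hf, rfl⟩ := mem_act.1 he
    exact ⟨f, ⟨S, hS, hf⟩, rfl⟩

/-- The number of copies of a union of `k` copies of `S`. -/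
lemma orb_biUnion_card (S : Finset (Sym2 V)) (C : Finset (Finset (Sym2 V)))
    (hC : ∀ T ∈ C, T ∈ orb S) :
    (orb (C.biUnion id)).card ≤ ((orb S).card).choose C.card := by
  rw [← Finset.card_powersetCard]
  have : orb (C.biUnion id) ⊆ ((orb S).powersetCard C.card).image (fun C' => C'.biUnion id) := by
    intro T hT
    obtain ⟨σ, rfl⟩ := mem_orb.1 hT
    rw [mem_image]
    refine ⟨C.image (act σ), ?_, (act_biUnion σ C).symm⟩
    rw [mem_powersetCard]
    constructor
    · intro T' hT'
      rw [mem_image] at hT'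
      obtain ⟨T'', hT'', rfl⟩ := hT'
      exact orb_act (hC T'' hT'')
    · exact Finset.card_image_of_injective _ (act_injective σ)
  exact (card_le_card this).trans Finset.card_image_le

/-- A maximal vertex-disjoint family of copies of `S` in `F`. -/
lemma exists_packing (F S : Finset (Sym2 V)) (hS : S ⊆ F) {M : ℕ}
    (hM : ∀ y : V, ((sub F S).filter (fun T => y ∈ vs T)).card ≤ M) (hS0 : S.Nonempty) :
    ∃ C ⊆ sub F S, (∀ T ∈ C, ∀ T' ∈ C, T ≠ T' → Disjoint (vs T) (vs T')) ∧
      0 < C.card ∧ (sub F S).card ≤ C.card * (vs S).card * M := by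
  classical
  obtain ⟨C, hC, hmax⟩ := Finset.exists_max_image
    ((sub F S).powerset.filter (fun C => ∀ T ∈ C, ∀ T' ∈ C, T ≠ T' → Disjoint (vs T) (vs T')))
    (fun C => C.card) ⟨∅, by simp⟩
  rw [mem_filter, mem_powerset] at hC
  obtain ⟨hCs, hCd⟩ := hC
  have hvs : ∀ T ∈ C, (vs T).card = (vs S).card := fun T hT =>
    orb_vs_card (mem_sub.1 (hCs hT)).1
  set U := C.biUnion vs with hU
  have hUc : U.card ≤ C.card * (vs S).card := by
    refine Finset.card_biUnion_le.trans ?_
    rw [Finset.sum_congr rfl hvs]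
    simp
  have hcov : sub F S ⊆ U.biUnion (fun y => (sub F S).filter (fun T => y ∈ vs T)) := by
    intro T hT
    rw [mem_biUnion]
    by_contra hcon
    push Not at hcon
    have hdis : ∀ T' ∈ C, Disjoint (vs T) (vs T') := by
      intro T' hT'
      rw [Finset.disjoint_left]
      intro y hy hy'
      exact hcon y (by rw [hU, mem_biUnion]; exact ⟨T', hT', hy'⟩) (mem_filter.2 ⟨hT, hy⟩)
    have hTne : (vs T).Nonempty := by
      have h1 : T.card = S.card := orb_card_eq (mem_sub.1 hT).1
      have h2 : 0 < T.card := by rw [h1]; exact hS0.card_pos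
      obtain ⟨e, he⟩ := Finset.card_pos.1 h2
      induction e using Sym2.ind with
      | _ x y => exact ⟨x, mem_vs.2 ⟨_, he, by simp⟩⟩
    have hTC : T ∉ C := by
      intro h
      have := hdis T h
      rw [disjoint_self] at this
      rw [this] at hTne
      simp at hTne
    have := hmax (insert T C) (by
      rw [mem_filter, mem_powerset]
      refine ⟨Finset.insert_subset hT hCs, ?_⟩
      intro T₁ h₁ T₂ h₂ hne
      rw [mem_insert] at h₁ h₂
      rcases h₁ with rfl | h₁ <;> rcases h₂ with rfl | h₂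
      · exact absurd rfl hne
      · exact hdis T₂ h₂
      · exact (hdis T₁ h₁).symm
      · exact hCd T₁ h₁ T₂ h₂ hne)
    rw [Finset.card_insert_of_notMem hTC] at this
    omega
  have h1 : (sub F S).card ≤ U.card * M := by
    refine (card_le_card hcov).trans ?_
    exact Finset.card_biUnion_le_card_mul _ _ _ (fun y _ => hM y)
  have h2 : (sub F S).card ≤ C.card * (vs S).card * M :=
    h1.trans (Nat.mul_le_mul_right _ hUc)
  refine ⟨C, hCs, hCd, ?_, h2⟩
  have h3 : 0 < (sub F S).card := Finset.card_pos.2 ⟨S, mem_sub.2 ⟨self_mem_orb S, hS⟩⟩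
  by_contra hcon
  have : C.card = 0 := by omega
  rw [this] at h2
  simp at h2
  rw [h2] at h3
  simp at h3

/-- `q` is above the expectation threshold, in the form used in the proof. -/
def Above (F : Finset (Sym2 V)) (q : ℝ) : Prop :=
  ∀ T ⊆ F, (1 : ℝ) / 2 < ((orb T).card : ℝ) * q ^ T.card

/-- The disjoint copies bound. -/
lemma disjoint_copies {F S : Finset (Sym2 V)} {q : ℝ} (hq : 0 < q) (hA : Above F q) (hS : S ⊆ F)
    (hS0 : S.Nonempty) {M : ℕ} (hM : ∀ y : V, ((sub F S).filter (fun T => y ∈ vs T)).card ≤ M) :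
    PT F S / q ^ S.card ≤ 2 * Real.exp 1 * (vs S).card * M := by
  obtain ⟨C, hCs, hCd, hC0, hCc⟩ := exists_packing F S hS hM hS0
  set k := C.card with hk
  set N : ℝ := ((orb S).card : ℝ) with hN
  have hNpos : 0 < N := by rw [hN]; exact_mod_cast orb_card_pos S
  have hTF : C.biUnion id ⊆ F := by
    intro e he
    rw [mem_biUnion] at he
    obtain ⟨T, hT, he⟩ := he
    exact (mem_sub.1 (hCs hT)).2 he
  have hTc : (C.biUnion id).card = k * S.card := by
    rw [Finset.card_biUnion]
    · have : ∀ T ∈ C, (id T).card = S.card := fun T hT => orb_card_eq (mem_sub.1 (hCs hT)).1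
      rw [Finset.sum_congr rfl this, Finset.sum_const, smul_eq_mul]
    · intro T hT T' hT' hne
      exact disj_of_vdisj (hCd T hT T' hT' hne)
  have h1 := hA _ hTF
  rw [hTc] at h1
  have h2 : ((orb (C.biUnion id)).card : ℝ) ≤ N ^ k / (k.factorial : ℝ) := by
    have h3 := orb_biUnion_card S C (fun T hT => (mem_sub.1 (hCs hT)).1)
    have h4 : ((orb (C.biUnion id)).card : ℝ) ≤ (((orb S).card).choose k : ℝ) := by
      exact_mod_cast h3
    exact h4.trans (Nat.choose_le_pow_div _ _)
  have hfac : (0 : ℝ) < (k.factorial : ℝ) := by exact_mod_cast Nat.factorial_pos k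
  have hkpos : (0 : ℝ) < (k : ℝ) := by exact_mod_cast hC0
  have h3 : (1 : ℝ) / 2 < N ^ k / (k.factorial : ℝ) * q ^ (k * S.card) :=
    h1.trans_le (mul_le_mul_of_nonneg_right h2 (by positivity))
  have h4 : (k : ℝ) ^ k ≤ Real.exp 1 ^ k * (k.factorial : ℝ) := by
    have := Real.pow_div_factorial_le_exp (k : ℝ) hkpos.le k
    rw [div_le_iff₀ hfac] at this
    rw [← Real.exp_nat_mul, mul_one]
    exact this
  -- (N q^s)^k > k!/2
  have h5 : (k.factorial : ℝ) / 2 < (N * q ^ S.card) ^ k := by
    have : N ^ k / (k.factorial : ℝ) * q ^ (k * S.card)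
        = (N * q ^ S.card) ^ k / (k.factorial : ℝ) := by
      rw [mul_pow, ← pow_mul, mul_comm S.card k]
      ring
    rw [this, lt_div_iff₀ hfac] at h3
    linarith
  have h6 : (k : ℝ) / (2 * Real.exp 1) ≤ N * q ^ S.card := by
    by_contra hcon
    push Not at hcon
    have hexp : 0 < Real.exp 1 := Real.exp_pos 1
    have h7 : (N * q ^ S.card) ^ k ≤ ((k : ℝ) / (2 * Real.exp 1)) ^ k :=
      pow_le_pow_left₀ (by positivity) hcon.le k
    have h8 : ((k : ℝ) / (2 * Real.exp 1)) ^ k ≤ (k.factorial : ℝ) / 2 := by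
      rw [div_pow, mul_pow, div_le_iff₀ (by positivity)]
      have h9 : (2 : ℝ) ≤ 2 ^ k := by
        calc (2 : ℝ) = 2 ^ 1 := by norm_num
          _ ≤ 2 ^ k := pow_le_pow_right₀ (by norm_num) hC0
      calc (k : ℝ) ^ k ≤ Real.exp 1 ^ k * (k.factorial : ℝ) := h4
        _ = 1 * (Real.exp 1 ^ k * (k.factorial : ℝ)) := by ring
        _ ≤ (2 ^ k / 2) * (Real.exp 1 ^ k * (k.factorial : ℝ)) := by
            apply mul_le_mul_of_nonneg_right _ (by positivity)
            linarith
        _ = _ := by ring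
    linarith
  rw [PT_eq_div, div_div, ← hN]
  have h7 : ((sub F S).card : ℝ) ≤ k * (vs S).card * M := by exact_mod_cast hCc
  have hexp : 0 < Real.exp 1 := Real.exp_pos 1
  rw [div_le_iff₀ (by positivity)]
  calc ((sub F S).card : ℝ) ≤ k * (vs S).card * M := h7
    _ = (2 * Real.exp 1 * (vs S).card * M) * ((k : ℝ) / (2 * Real.exp 1)) := by
        field_simp
    _ ≤ (2 * Real.exp 1 * (vs S).card * M) * (N * q ^ S.card) :=
        mul_le_mul_of_nonneg_left h6 (by positivity)

end Pool.Agent.H29.Thresh
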