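import Pool.Agent.H29.Thresh.Iter

/-! Choice of the parameters and the uniform statement. -/

namespace Pool.Agent.H29.Thresh

open Finset Filter Topology

lemma exists_setup (d : ℕ) (hd : 3 ≤ d) (θ : ℝ) (hθ : 1 < θ) :
    ∃ (K D : ℕ) (ρ κ ζ r η : ℝ), 1 ≤ K ∧ 0 < ρ ∧ 1 < κ ∧ 0 < ζ ∧ 0 < η ∧
      ∀ᶠ n : ℕ in atTop, Setup d K D θ ρ κ ζ r η
        ((n : ℝ) ^ ((1 : ℝ) / (8 * K * d : ℕ))) ((n : ℝ) ^ ((1 : ℝ) / ((d + 1) * d : ℕ))) n := by
  have hθ0 : 0 < θ := by linarith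
  have hθ1 : 0 < θ - 1 := by linarith
  obtain ⟨K₀, hK₀⟩ := pow_unbounded_of_one_lt (2 * ((d : ℝ) * Real.exp 1) ^ 2) hθ
  set K := max 1 K₀ with hK
  have hK1 : 1 ≤ K := le_max_left _ _
  have hC : 2 * ((d : ℝ) * Real.exp 1) ^ 2 ≤ θ ^ K :=
    hK₀.le.trans (pow_le_pow_right₀ hθ.le (le_max_right _ _))
  set ρ : ℝ := min (1 / 4) ((θ - 1) / (4 * θ)) with hρ
  have hρ0 : 0 < ρ := by
    rw [hρ]; apply lt_min <;> positivity
  have hρ1 : ρ ≤ 1 / 4 := min_le_left _ _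
  have hρθ : 1 ≤ θ * (1 - 2 * ρ) ^ 2 := by
    have h1 : ρ ≤ (θ - 1) / (4 * θ) := min_le_right _ _
    rw [le_div_iff₀ (by positivity)] at h1
    nlinarith [sq_nonneg ρ]
  set κ : ℝ := θ ^ ρ with hκ
  have hκ1 : 1 < κ := Real.one_lt_rpow hθ hρ0
  have hκ0 : 0 < κ := by linarith
  set ζ : ℝ := min 1 (Real.log κ) with hζ
  have hζ0 : 0 < ζ := by
    rw [hζ]; exact lt_min one_pos (Real.log_pos hκ1)
  have hζ1 : ζ ≤ 1 := min_le_left _ _
  have hζκ : Real.exp ζ ≤ κ := by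
    calc Real.exp ζ ≤ Real.exp (Real.log κ) := Real.exp_le_exp.2 (min_le_right _ _)
      _ = κ := Real.exp_log hκ0
  have hki0 : 0 < 1 / κ := by positivity
  have hki1 : 1 / κ < 1 := by rw [div_lt_one hκ0]; exact hκ1
  have hdpos : (0 : ℝ) < d := by
    have : 0 < d := by omega
    exact_mod_cast this
  set r : ℝ := (1 / κ) ^ ((1 : ℝ) / d) with hr
  have hr0 : 0 < r := Real.rpow_pos_of_pos hki0 _
  have hr1 : r < 1 := Real.rpow_lt_one hki0.le hki1 (by positivity)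
  have hrκ : 1 / κ ≤ r ^ d := by
    rw [hr, ← Real.rpow_natCast, ← Real.rpow_mul hki0.le]
    rw [one_div_mul_cancel hdpos.ne', Real.rpow_one]
  have h1r : 0 < 1 - r := by linarith
  obtain ⟨D, hD⟩ := exists_pow_lt_of_lt_one (mul_pos hζ0 h1r) hki1
  set m := 8 * K * d with hm
  have hm0 : 0 < m := by
    rw [hm]
    exact Nat.mul_pos (Nat.mul_pos (by norm_num) (by omega)) (by omega)
  have hm0' : (0 : ℝ) < m := by exact_mod_cast hm0
  set η : ℝ := min 1 (θ ^ ((1 : ℝ) / m) - 1) with hη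
  have hη0 : 0 < η := by
    rw [hη]
    apply lt_min one_pos
    have := Real.one_lt_rpow hθ (show (0 : ℝ) < 1 / m by positivity)
    linarith
  have hη1 : η ≤ 1 := min_le_left _ _
  have hηθ : (1 + η) ^ m ≤ θ := by
    have h1 : 1 + η ≤ θ ^ ((1 : ℝ) / m) := by
      have : η ≤ θ ^ ((1 : ℝ) / m) - 1 := min_le_right _ _
      linarith
    calc (1 + η) ^ m ≤ (θ ^ ((1 : ℝ) / m)) ^ m := pow_le_pow_left₀ (by linarith) h1 m
      _ = θ := by
          rw [← Real.rpow_natCast, ← Real.rpow_mul hθ0.le, one_div_mul_cancel hm0'.ne',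
            Real.rpow_one]
  refine ⟨K, D, ρ, κ, ζ, r, η, hK1, hρ0, hκ1, hζ0, hη0, ?_⟩
  have hdd0 : (0 : ℝ) < ((d + 1) * d : ℕ) := by
    have : 0 < (d + 1) * d := Nat.mul_pos (by omega) (by omega)
    exact_mod_cast this
  have hu_tend : Tendsto (fun n : ℕ => (n : ℝ) ^ ((1 : ℝ) / (m : ℕ))) atTop atTop :=
    (tendsto_rpow_atTop (by positivity)).comp tendsto_natCast_atTop_atTop
  have hx_tend : Tendsto (fun n : ℕ => (n : ℝ) ^ ((1 : ℝ) / ((d + 1) * d : ℕ))) atTop atTop :=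
    (tendsto_rpow_atTop (by positivity)).comp tendsto_natCast_atTop_atTop
  filter_upwards [eventually_ge_atTop 6, hu_tend.eventually_ge_atTop 1,
    hu_tend.eventually_ge_atTop (4 * Real.exp 1 / (θ - 1)),
    hu_tend.eventually_ge_atTop ((θ / (θ - 1)) ^ (2 * (d + 1))),
    hu_tend.eventually_ge_atTop (4 / (η * Real.log θ)),
    hx_tend.eventually_ge_atTop 1,
    hx_tend.eventually_ge_atTop ((2 * (2 * (2 * (d * Real.exp 1) ^ 2)) ^ d) ^ D)]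
    with n hn6 hu1 hu2 hu3 hu4 hx1 hx2
  have hn0 : (0 : ℝ) ≤ (n : ℝ) := by positivity
  have hsq : (n : ℝ) ^ ((1 : ℝ) / (m : ℕ)) ≤ ((n : ℝ) ^ ((1 : ℝ) / (m : ℕ))) ^ 2 := by
    nlinarith
  refine ⟨hd, hθ, hK1, hC, hu1, hu2.trans hsq, hu3.trans hsq, ?_, hn6, hρ0, hρ1, hρθ, hκ1, ?_,
    hζ0, hζ1, hζκ, hr0, hr1, hrκ, hD.le, hη0, hη1, hηθ, hu4, hx1, ?_, hx2⟩
  · rw [← hm, ← Real.rpow_natCast, ← Real.rpow_mul hn0, one_div_mul_cancel hm0'.ne',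
      Real.rpow_one]
  · intro t ht
    rw [hκ, ← Real.rpow_natCast, ← Real.rpow_mul hθ0.le, ← Real.rpow_natCast θ t]
    exact Real.rpow_le_rpow_of_exponent_le hθ.le ht.le
  · rw [← Real.rpow_natCast, ← Real.rpow_mul hn0, one_div_mul_cancel hdd0.ne',
      Real.rpow_one]

lemma bound_tendsto (κ ζ c c' : ℝ) (M m : ℕ) (hκ : 1 < κ) (hc : 0 < c) (hm : 0 < m) :
    Tendsto (fun n : ℕ => (n : ℝ) / 2 ^ n + 2 / ζ ^ 2 * (1 / κ) ^ (2 * n)
        + M * Real.exp (-(c * (n : ℝ) ^ ((1 : ℝ) / m)))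
        + (Real.exp (c' / (n : ℝ) ^ ((1 : ℝ) / m)) - 1)) atTop (𝓝 0) := by
  have hm0' : (0 : ℝ) < m := by exact_mod_cast hm
  have hκ0 : 0 < κ := by linarith
  have hu_tend : Tendsto (fun n : ℕ => (n : ℝ) ^ ((1 : ℝ) / (m : ℕ))) atTop atTop :=
    (tendsto_rpow_atTop (by positivity)).comp tendsto_natCast_atTop_atTop
  have h1 : Tendsto (fun n : ℕ => (n : ℝ) / 2 ^ n) atTop (𝓝 0) := by
    have := tendsto_pow_const_div_const_pow_of_one_lt 1 (r := (2 : ℝ)) (by norm_num)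
    simpa using this
  have h2 : Tendsto (fun n : ℕ => 2 / ζ ^ 2 * (1 / κ) ^ (2 * n)) atTop (𝓝 0) := by
    have hk : 0 ≤ (1 / κ) ^ 2 := by positivity
    have hk1 : (1 / κ) ^ 2 < 1 := by
      apply pow_lt_one₀ (by positivity) _ (by norm_num)
      rw [div_lt_one hκ0]; exact hκ
    have := (tendsto_pow_atTop_nhds_zero_of_lt_one hk hk1).const_mul (2 / ζ ^ 2)
    rw [mul_zero] at this
    refine this.congr (fun n => ?_)
    rw [← pow_mul]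
  have h3 : Tendsto (fun n : ℕ => (M : ℝ) * Real.exp (-(c * (n : ℝ) ^ ((1 : ℝ) / m)))) atTop
      (𝓝 0) := by
    have h4 : Tendsto (fun n : ℕ => c * (n : ℝ) ^ ((1 : ℝ) / (m : ℕ))) atTop atTop :=
      hu_tend.const_mul_atTop hc
    have h5 := (Real.tendsto_exp_neg_atTop_nhds_zero.comp h4).const_mul (M : ℝ)
    rw [mul_zero] at h5
    exact h5
  have h4 : Tendsto (fun n : ℕ => Real.exp (c' / (n : ℝ) ^ ((1 : ℝ) / m)) - 1) atTop (𝓝 0) := by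
    have h5 : Tendsto (fun n : ℕ => c' / (n : ℝ) ^ ((1 : ℝ) / (m : ℕ))) atTop (𝓝 0) :=
      hu_tend.const_div_atTop c'
    have h6 := ((Real.continuous_exp.tendsto 0).comp h5).sub_const 1
    rw [Real.exp_zero, sub_self] at h6
    exact h6
  have := ((h1.add h2).add h3).add h4
  simpa using this

/-- The uniform statement. -/
theorem uniform (d : ℕ) (hd : 3 ≤ d) (θ : ℝ) (hθ : 1 < θ) (δ : ℝ) (hδ : 0 < δ) :
    ∃ n₀ : ℕ, ∀ n ≥ n₀, ∀ F : Finset (Sym2 (Fin n)), Hyp d F → ∀ q : ℝ, 0 < q → Above F q →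
      θ ^ 9 * q ≤ 1 → ∀ G : Finset (Sym2 (Fin n)), (∀ σ : Equiv.Perm (Fin n), act σ F ⊆ G) →
        fail G (fun σ : Equiv.Perm (Fin n) => act σ F) (θ ^ 9 * q) 0 < δ := by
  obtain ⟨K, D, ρ, κ, ζ, r, η, hK1, hρ0, hκ1, hζ0, hη0, hev⟩ := exists_setup d hd θ hθ
  have hm0 : 0 < 8 * K * d :=
    Nat.mul_pos (Nat.mul_pos (by norm_num) (by omega)) (by omega)
  have hlog : 0 < Real.log θ := Real.log_pos hθ
  have hb := bound_tendsto κ ζ (Real.log θ / 2 * ρ) (2 * ρ / η) (8 * K * d) (8 * K * d) hκ1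
    (by positivity) hm0
  have hb' := hb.eventually_lt_const hδ
  obtain ⟨n₀, hn₀⟩ := (hev.and hb').exists_forall_of_atTop
  refine ⟨n₀, fun n hn F hF q hq hA hq1 G hG => ?_⟩
  obtain ⟨hS, hlt⟩ := hn₀ n hn
  have hS' : Setup d K D θ ρ κ ζ r η ((n : ℝ) ^ ((1 : ℝ) / (8 * K * d : ℕ)))
      ((n : ℝ) ^ ((1 : ℝ) / ((d + 1) * d : ℕ))) (Fintype.card (Fin n)) := by
    rw [Fintype.card_fin]; exact hS
  have := all_rounds hS' hF hq hA hq1 hG
  rw [Fintype.card_fin] at this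
  refine lt_of_le_of_lt this ?_
  refine lt_of_le_of_lt (le_of_eq ?_) hlt
  rw [div_div]

end Pool.Agent.H29.Thresh
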