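import Pool.Agent.H29.Thresh.Cluster
import Pool.Agent.H29.Thresh.Key

/-! Counting permutations mapping an edge set into `F`. -/

namespace Pool.Agent.H29.Thresh

open Finset

variable {V : Type*} [DecidableEq V]

/-- Action of permutations on edge sets. -/
def act (σ : Equiv.Perm V) (T : Finset (Sym2 V)) : Finset (Sym2 V) :=
  T.map ⟨Sym2.map σ, Sym2.map.injective σ.injective⟩

lemma mem_act {σ : Equiv.Perm V} {T : Finset (Sym2 V)} {e : Sym2 V} :
    e ∈ act σ T ↔ ∃ f ∈ T, Sym2.map σ f = e := by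
  simp [act]

lemma act_card (σ : Equiv.Perm V) (T : Finset (Sym2 V)) : (act σ T).card = T.card := by
  simp [act]

lemma act_mul (σ τ : Equiv.Perm V) (T : Finset (Sym2 V)) :
    act (σ * τ) T = act σ (act τ T) := by
  ext e
  simp only [mem_act]
  constructor
  · rintro ⟨f, hf, rfl⟩
    exact ⟨Sym2.map τ f, ⟨f, hf, rfl⟩, by rw [Sym2.map_map]; rfl⟩
  · rintro ⟨g, ⟨f, hf, rfl⟩, rfl⟩
    exact ⟨f, hf, by rw [Sym2.map_map]; rfl⟩

lemma act_one (T : Finset (Sym2 V)) : act 1 T = T := by
  ext e
  simp only [mem_act]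
  constructor
  · rintro ⟨f, hf, rfl⟩
    have : Sym2.map (⇑(1 : Equiv.Perm V)) f = f := by
      rw [show (⇑(1 : Equiv.Perm V)) = id from rfl, Sym2.map_id]; rfl
    rwa [this]
  · intro he
    refine ⟨e, he, ?_⟩
    rw [show (⇑(1 : Equiv.Perm V)) = id from rfl, Sym2.map_id]; rfl

lemma act_inv_act (σ : Equiv.Perm V) (T : Finset (Sym2 V)) : act σ⁻¹ (act σ T) = T := by
  rw [← act_mul, inv_mul_cancel, act_one]

lemma act_act_inv (σ : Equiv.Perm V) (T : Finset (Sym2 V)) : act σ (act σ⁻¹ T) = T := by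
  rw [← act_mul, mul_inv_cancel, act_one]

lemma act_mono {σ : Equiv.Perm V} {S T : Finset (Sym2 V)} (h : S ⊆ T) : act σ S ⊆ act σ T := by
  intro e he
  rw [mem_act] at he ⊢
  obtain ⟨f, hf, rfl⟩ := he
  exact ⟨f, h hf, rfl⟩

lemma act_sub_iff {σ : Equiv.Perm V} {S T : Finset (Sym2 V)} :
    act σ S ⊆ T ↔ S ⊆ act σ⁻¹ T := by
  constructor
  · intro h
    have := act_mono (σ := σ⁻¹) h
    rwa [act_inv_act] at this
  · intro h
    have := act_mono (σ := σ) h
    rwa [act_act_inv] at this

lemma act_injective (σ : Equiv.Perm V) : Function.Injective (act σ) := by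
  intro S T h
  rw [← act_inv_act σ S, h, act_inv_act]

lemma act_union (σ : Equiv.Perm V) (S T : Finset (Sym2 V)) :
    act σ (S ∪ T) = act σ S ∪ act σ T := by
  unfold act; rw [Finset.map_union]

lemma vs_act (σ : Equiv.Perm V) (T : Finset (Sym2 V)) :
    vs (act σ T) = (vs T).map σ.toEmbedding := by
  ext x
  simp only [mem_vs, mem_act, mem_map, Equiv.coe_toEmbedding]
  constructor
  · rintro ⟨e, ⟨f, hf, rfl⟩, hx⟩
    rw [Sym2.mem_map] at hx
    obtain ⟨y, hy, rfl⟩ := hx
    exact ⟨y, ⟨f, hf, hy⟩, rfl⟩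
  · rintro ⟨y, ⟨f, hf, hy⟩, rfl⟩
    exact ⟨Sym2.map σ f, ⟨f, hf, rfl⟩, Sym2.mem_map.2 ⟨y, hy, rfl⟩⟩

lemma vs_act_card (σ : Equiv.Perm V) (T : Finset (Sym2 V)) :
    (vs (act σ T)).card = (vs T).card := by
  rw [vs_act, card_map]

lemma share_map (σ : Equiv.Perm V) (e f : Sym2 V) :
    (∃ x, x ∈ Sym2.map σ e ∧ x ∈ Sym2.map σ f) ↔ ∃ x, x ∈ e ∧ x ∈ f := by
  constructor
  · rintro ⟨x, hx, hx'⟩
    rw [Sym2.mem_map] at hx hx'
    obtain ⟨y, hy, rfl⟩ := hx
    obtain ⟨z, hz, hzy⟩ := hx'
    rw [σ.injective hzy] at hz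
    exact ⟨y, hy, hz⟩
  · rintro ⟨x, hx, hx'⟩
    exact ⟨σ x, Sym2.mem_map.2 ⟨x, hx, rfl⟩, Sym2.mem_map.2 ⟨x, hx', rfl⟩⟩

lemma closedIn_act {σ : Equiv.Perm V} {T S : Finset (Sym2 V)} (h : ClosedIn T S) :
    ClosedIn (act σ T) (act σ S) := by
  refine ⟨act_mono h.1, ?_⟩
  intro e he f hf hsh
  rw [mem_act] at he hf ⊢
  obtain ⟨e', he', rfl⟩ := he
  obtain ⟨f', hf', rfl⟩ := hf
  exact ⟨f', h.2 e' he' f' hf' ((share_map σ e' f').1 hsh), rfl⟩

lemma conn_act {σ : Equiv.Perm V} {S : Finset (Sym2 V)} (h : Conn S) : Conn (act σ S) := by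
  constructor
  · obtain ⟨e, he⟩ := h.1
    exact ⟨Sym2.map σ e, mem_act.2 ⟨e, he, rfl⟩⟩
  · intro R hR hcl
    have h1 := closedIn_act (σ := σ⁻¹) hcl
    rw [act_inv_act] at h1
    have h2 : (act σ⁻¹ R).Nonempty := by
      obtain ⟨e, he⟩ := hR
      exact ⟨Sym2.map (⇑(σ⁻¹)) e, mem_act.2 ⟨e, he, rfl⟩⟩
    have h3 := h.2 _ h2 h1
    rw [← h3, act_act_inv]

variable [Fintype V]

lemma hyp_act {d : ℕ} {F : Finset (Sym2 V)} (hF : Hyp d F) (σ : Equiv.Perm V) :
    Hyp d (act σ F) := by
  constructor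
  · intro e he
    rw [mem_act] at he
    obtain ⟨f, hf, rfl⟩ := he
    have := hF.loopless f hf
    induction f using Sym2.ind with
    | _ x y =>
      simp only [Sym2.map_mk, Sym2.mk_isDiag_iff] at this ⊢
      exact fun h => this (σ.injective h)
  · intro x
    rw [← hF.reg (σ⁻¹ x)]
    symm
    refine Finset.card_bij (fun e _ => Sym2.map σ e) ?_ ?_ ?_
    · intro e he
      rw [mem_filter] at he ⊢
      refine ⟨mem_act.2 ⟨e, he.1, rfl⟩, Sym2.mem_map.2 ⟨σ⁻¹ x, he.2, by simp⟩⟩
    · intro e _ e' _ h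
      exact Sym2.map.injective σ.injective h
    · intro e he
      rw [mem_filter, mem_act] at he
      obtain ⟨⟨f, hf, rfl⟩, hx⟩ := he
      refine ⟨f, ?_, rfl⟩
      rw [mem_filter]
      refine ⟨hf, ?_⟩
      rw [Sym2.mem_map] at hx
      obtain ⟨y, hy, rfl⟩ := hx
      simpa using hy
  · intro S hS hc hv
    have h1 : act σ⁻¹ S ⊆ F := by
      have := act_mono (σ := σ⁻¹) hS
      rwa [act_inv_act] at this
    have h2 := hF.cut _ h1 (conn_act hc) (by rwa [vs_act_card])
    rwa [act_card, vs_act_card] at h2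

/-- Permutations mapping `T` into `F`. -/
def good (F T : Finset (Sym2 V)) : Finset (Equiv.Perm V) :=
  univ.filter (fun σ => act σ T ⊆ F)

lemma mem_good {F T : Finset (Sym2 V)} {σ : Equiv.Perm V} : σ ∈ good F T ↔ act σ T ⊆ F := by
  simp [good]

/-- Restriction of a permutation to a set. -/
def res (A : Finset V) (σ : Equiv.Perm V) : V → Option V :=
  fun x => if x ∈ A then some (σ x) else none

lemma res_eq_iff {A : Finset V} {σ τ : Equiv.Perm V} :
    res A σ = res A τ ↔ ∀ x ∈ A, σ x = τ x := by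
  constructor
  · intro h x hx
    have := congrFun h x
    simp only [res, if_pos hx, Option.some.injEq] at this
    exact this
  · intro h
    funext x
    unfold res
    split_ifs with hx
    · rw [h x hx]
    · rfl

lemma card_fix (A : Finset V) :
    (univ.filter (fun τ : Equiv.Perm V => ∀ x ∈ A, τ x = x)).card
      = (Fintype.card V - A.card).factorial := by
  have h1 : (univ.filter (fun τ : Equiv.Perm V => ∀ x ∈ A, τ x = x)).card
      = Fintype.card {f : Equiv.Perm V // ∀ a, ¬ (a ∉ A) → f a = a} := by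
    rw [Fintype.card_subtype]
    congr 1
    ext τ
    simp
  rw [h1, ← Fintype.card_congr (Equiv.Perm.subtypeEquivSubtypePerm (fun x => x ∉ A)),
    Fintype.card_perm, Fintype.card_subtype_compl]
  congr 2
  exact Fintype.card_coe A

lemma card_res_fiber (A : Finset V) (σ₀ : Equiv.Perm V) :
    (univ.filter (fun σ : Equiv.Perm V => res A σ = res A σ₀)).card
      = (Fintype.card V - A.card).factorial := by
  rw [← card_fix A]
  symm
  refine Finset.card_bij (fun τ _ => σ₀ * τ) ?_ ?_ ?_
  · intro τ hτ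
    rw [mem_filter] at hτ ⊢
    refine ⟨mem_univ _, ?_⟩
    rw [res_eq_iff]
    intro x hx
    rw [Equiv.Perm.mul_apply, hτ.2 x hx]
  · intro τ _ τ' _ h
    exact mul_left_cancel h
  · intro σ hσ
    rw [mem_filter, res_eq_iff] at hσ
    refine ⟨σ₀⁻¹ * σ, ?_, by simp⟩
    rw [mem_filter]
    refine ⟨mem_univ _, fun x hx => ?_⟩
    rw [Equiv.Perm.mul_apply, hσ.2 x hx]
    simp

/-- Number of restrictions of good permutations to `A`. -/
def hA (F T : Finset (Sym2 V)) (A : Finset V) : ℕ := ((good F T).image (res A)).card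

lemma good_vs_det {F T : Finset (Sym2 V)} {σ τ : Equiv.Perm V} (h : res (vs T) σ = res (vs T) τ)
    (hσ : σ ∈ good F T) : τ ∈ good F T := by
  rw [mem_good] at hσ ⊢
  rw [res_eq_iff] at h
  intro e he
  rw [mem_act] at he
  obtain ⟨f, hf, rfl⟩ := he
  apply hσ
  rw [mem_act]
  refine ⟨f, hf, ?_⟩
  induction f using Sym2.ind with
  | _ x y =>
    simp only [Sym2.map_mk]
    rw [h x (mem_vs.2 ⟨_, hf, by simp⟩), h y (mem_vs.2 ⟨_, hf, by simp⟩)]

lemma good_card (F T : Finset (Sym2 V)) :
    (good F T).card = hA F T (vs T) * (Fintype.card V - (vs T).card).factorial := by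
  rw [Finset.card_eq_sum_card_fiberwise (f := res (vs T)) (t := (good F T).image (res (vs T)))]
  · have : ∀ b ∈ (good F T).image (res (vs T)),
        ((good F T).filter (fun σ => res (vs T) σ = b)).card
          = (Fintype.card V - (vs T).card).factorial := by
      intro b hb
      rw [mem_image] at hb
      obtain ⟨σ₀, hσ₀, rfl⟩ := hb
      rw [← card_res_fiber (vs T) σ₀]
      congr 1
      ext σ
      simp only [mem_filter, mem_univ, true_and]
      constructor
      · exact fun h => h.2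
      · exact fun h => ⟨good_vs_det h.symm hσ₀, h⟩
    rw [Finset.sum_congr rfl this]
    simp [hA]
  · intro σ hσ
    exact mem_image_of_mem _ hσ

/-- `P(T)`: probability that a random copy of `F` contains `T`. -/
noncomputable def PT (F T : Finset (Sym2 V)) : ℝ :=
  PF (fun σ : Equiv.Perm V => act σ F) T

lemma PT_eq (F T : Finset (Sym2 V)) :
    PT F T = ((good F T).card : ℝ) / (Fintype.card V).factorial := by
  unfold PT PF
  rw [Fintype.card_perm]
  congr 2
  refine Finset.card_bij (fun σ _ => σ⁻¹) ?_ ?_ ?_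
  · intro σ hσ
    rw [mem_filter] at hσ
    rw [mem_good, act_sub_iff, inv_inv]
    exact hσ.2
  · intro σ _ τ _ h
    exact inv_injective h
  · intro σ hσ
    rw [mem_good, act_sub_iff] at hσ
    exact ⟨σ⁻¹, by rw [mem_filter]; exact ⟨mem_univ _, hσ⟩, by simp⟩

lemma vs_card_le (T : Finset (Sym2 V)) : (vs T).card ≤ Fintype.card V := card_le_univ _

lemma PT_eq' (F T : Finset (Sym2 V)) :
    PT F T = (hA F T (vs T) : ℝ) / ((Fintype.card V).descFactorial (vs T).card : ℝ) := by
  rw [PT_eq, good_card]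
  have h1 := Nat.factorial_mul_descFactorial (vs_card_le T)
  have h2 : (0 : ℝ) < ((Fintype.card V - (vs T).card).factorial : ℝ) := by
    exact_mod_cast Nat.factorial_pos _
  have h3 : (0 : ℝ) < ((Fintype.card V).descFactorial (vs T).card : ℝ) := by
    exact_mod_cast Nat.descFactorial_pos.2 (vs_card_le T)
  rw [← h1]
  push_cast
  field_simp

/-- Submultiplicativity. -/
lemma hA_union_le (F T₁ T₂ : Finset (Sym2 V)) :
    hA F (T₁ ∪ T₂) (vs (T₁ ∪ T₂)) ≤ hA F T₁ (vs T₁) * hA F T₂ (vs T₂) := by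
  unfold hA
  rw [← Finset.card_product]
  apply Finset.card_le_card_of_injOn
    (fun g => ((fun x => if x ∈ vs T₁ then g x else none),
      (fun x => if x ∈ vs T₂ then g x else none)))
  · intro g hg
    rw [mem_coe, mem_image] at hg
    obtain ⟨σ, hσ, rfl⟩ := hg
    rw [mem_good, act_union] at hσ
    rw [mem_coe, mem_product]
    constructor
    · rw [mem_image]
      refine ⟨σ, mem_good.2 (Finset.subset_union_left.trans hσ), ?_⟩
      funext x
      simp only [res, vs_union, mem_union]
      split_ifs with h1 h2 <;> simp_all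
    · rw [mem_image]
      refine ⟨σ, mem_good.2 (Finset.subset_union_right.trans hσ), ?_⟩
      funext x
      simp only [res, vs_union, mem_union]
      split_ifs with h1 h2 <;> simp_all
  · intro g hg g' hg' h
    rw [mem_coe, mem_image] at hg hg'
    obtain ⟨σ, hσ, rfl⟩ := hg
    obtain ⟨τ, hτ, rfl⟩ := hg'
    simp only [Prod.mk.injEq] at h
    rw [res_eq_iff]
    intro x hx
    rw [vs_union, mem_union] at hx
    rcases hx with hx | hx
    · have := congrFun h.1 x
      simp only [if_pos hx, res, vs_union, mem_union, hx, true_or, if_true,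
        Option.some.injEq] at this
      exact this
    · have := congrFun h.2 x
      simp only [if_pos hx, res, vs_union, mem_union, hx, or_true, if_true,
        Option.some.injEq] at this
      exact this

lemma hA_biUnion_le (F : Finset (Sym2 V)) (C : Finset (Finset (Sym2 V))) :
    hA F (C.biUnion id) (vs (C.biUnion id)) ≤ ∏ S ∈ C, hA F S (vs S) := by
  induction C using Finset.induction_on with
  | empty =>
    simp only [Finset.biUnion_empty, Finset.prod_empty]
    unfold hA
    rw [Finset.card_le_one]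
    intro a ha b hb
    rw [mem_image] at ha hb
    obtain ⟨σ, _, rfl⟩ := ha
    obtain ⟨τ, _, rfl⟩ := hb
    rw [res_eq_iff]
    intro x hx
    simp [vs] at hx
  | insert S C hS ih =>
    rw [Finset.biUnion_insert, Finset.prod_insert hS]
    refine (hA_union_le F _ _).trans ?_
    exact Nat.mul_le_mul_left _ ih

lemma hA_comps_le (F T : Finset (Sym2 V)) :
    hA F T (vs T) ≤ ∏ S ∈ comps T, hA F S (vs S) := by
  have := hA_biUnion_le F (comps T)
  rwa [comps_biUnion] at this

/-- Extension of a partial restriction by one vertex. -/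
lemma hA_step {d : ℕ} {F : Finset (Sym2 V)} (hreg : ∀ x : V, (F.filter (fun e => x ∈ e)).card = d)
    {S : Finset (Sym2 V)} {A : Finset V} {a y : V} (ha : a ∈ A) (hy : y ∉ A)
    (hay : s(a, y) ∈ S) : hA F S (insert y A) ≤ d * hA F S A := by
  unfold hA
  have himg : ((good F S).image (res (insert y A))).image
      (fun (g : V → Option V) => fun x => if x ∈ A then g x else none)
      = (good F S).image (res A) := by
    rw [Finset.image_image]
    apply Finset.image_congr
    intro σ _
    funext x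
    simp only [Function.comp, res, mem_insert]
    split_ifs with h1 h2
    · rfl
    · simp_all
    · rfl
  rw [← himg]
  apply Finset.card_le_mul_card_image
  intro b hb
  rw [himg, mem_image] at hb
  obtain ⟨σ₀, hσ₀, rfl⟩ := hb
  rw [← hreg (σ₀ a)]
  apply Finset.card_le_card_of_injOn
    (fun g => (g y).elim s(σ₀ a, σ₀ a) (fun z => s(σ₀ a, z)))
  · intro g hg
    rw [mem_coe, mem_filter, mem_image] at hg
    obtain ⟨⟨σ, hσ, rfl⟩, hg2⟩ := hg
    have h1 : σ a = σ₀ a := by
      have := congrFun hg2 a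
      simp only [if_pos ha, res, mem_insert, ha, or_true, if_true, Option.some.injEq] at this
      exact this
    rw [mem_coe, mem_filter]
    have h2 : res (insert y A) σ y = some (σ y) := by simp [res]
    simp only [h2, Option.elim_some]
    refine ⟨?_, by simp⟩
    rw [mem_good] at hσ
    apply hσ
    rw [mem_act]
    exact ⟨s(a, y), hay, by simp [h1]⟩
  · intro g hg g' hg' h
    rw [mem_coe, mem_filter, mem_image] at hg hg'
    obtain ⟨⟨σ, hσ, rfl⟩, hg2⟩ := hg
    obtain ⟨⟨τ, hτ, rfl⟩, hg2'⟩ := hg'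
    have h2 : res (insert y A) σ y = some (σ y) := by simp [res]
    have h2' : res (insert y A) τ y = some (τ y) := by simp [res]
    simp only [h2, h2', Option.elim_some] at h
    have h3 : σ y = τ y := by
      rw [Sym2.eq_iff] at h
      rcases h with h | h
      · exact h.2
      · rw [h.2, ← h.1]
    rw [res_eq_iff]
    intro x hx
    rw [mem_insert] at hx
    rcases hx with rfl | hx
    · exact h3
    · have e1 := congrFun hg2 x
      have e2 := congrFun hg2' x
      simp only [if_pos hx, res, mem_insert, hx, or_true, if_true, Option.some.injEq] at e1 e2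
      rw [e1, e2]

/-- A connected edge set has an edge leaving each proper nonempty vertex subset. -/
lemma Conn.exists_edge {S : Finset (Sym2 V)} (hS : Conn S) {A : Finset V} (hAS : A ⊆ vs S)
    (hA0 : A.Nonempty) (hne : A ≠ vs S) : ∃ a ∈ A, ∃ y ∉ A, s(a, y) ∈ S := by
  classical
  by_contra hcon
  push Not at hcon
  set R := S.filter (fun e => ∃ x ∈ e, x ∈ A) with hR
  have hin : ∀ e ∈ S, (∃ x ∈ e, x ∈ A) → ∀ z ∈ e, z ∈ A := by
    intro e he hx z hz
    by_contra hzA
    obtain ⟨x, hxe, hxA⟩ := hx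
    have hxz : x ≠ z := fun h => hzA (h ▸ hxA)
    have : e = s(x, z) := ((Sym2.mem_and_mem_iff hxz).1 ⟨hxe, hz⟩)
    exact hcon x hxA z hzA (this ▸ he)
  have hRne : R.Nonempty := by
    obtain ⟨a, ha⟩ := hA0
    obtain ⟨e, he, hae⟩ := mem_vs.1 (hAS ha)
    exact ⟨e, mem_filter.2 ⟨he, a, hae, ha⟩⟩
  have hRcl : ClosedIn S R := by
    refine ⟨filter_subset _ _, ?_⟩
    intro e he f hf hsh
    rw [hR, mem_filter] at he ⊢
    obtain ⟨x, hx1, hx2⟩ := hsh
    exact ⟨hf, x, hx2, hin e he.1 he.2 x hx1⟩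
  have hRS := hS.2 R hRne hRcl
  apply hne
  apply Finset.Subset.antisymm hAS
  intro x hx
  obtain ⟨e, he, hxe⟩ := mem_vs.1 hx
  rw [← hRS, hR, mem_filter] at he
  exact hin e he.1 he.2 x hxe

lemma hA_conn {d : ℕ} {F : Finset (Sym2 V)} (hreg : ∀ x : V, (F.filter (fun e => x ∈ e)).card = d)
    {S : Finset (Sym2 V)} (hS : Conn S) :
    hA F S (vs S) ≤ Fintype.card V * d ^ ((vs S).card - 1) := by
  have key : ∀ k, k + 1 ≤ (vs S).card → ∃ A ⊆ vs S, A.card = k + 1 ∧
      hA F S A ≤ Fintype.card V * d ^ k := by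
    intro k
    induction k with
    | zero =>
      intro hk
      obtain ⟨x, hx⟩ := Finset.card_pos.1 (by omega : 0 < (vs S).card)
      refine ⟨{x}, by simpa using hx, by simp, ?_⟩
      rw [pow_zero, mul_one]
      unfold hA
      have : ((good F S).image (res {x})).card ≤ (univ : Finset V).card := by
        apply Finset.card_le_card_of_injOn (fun g => (g x).getD x)
        · intro _ _; simp
        · intro g hg g' hg' h
          rw [mem_coe, mem_image] at hg hg'
          obtain ⟨σ, _, rfl⟩ := hg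
          obtain ⟨τ, _, rfl⟩ := hg'
          rw [res_eq_iff]
          intro z hz
          rw [mem_singleton] at hz
          subst hz
          simpa [res] using h
      simpa using this
    | succ k ih =>
      intro hk
      obtain ⟨A, hAS, hAc, hAb⟩ := ih (by omega)
      have hne : A ≠ vs S := by
        intro h
        rw [h] at hAc
        omega
      obtain ⟨a, ha, y, hy, hay⟩ := hS.exists_edge hAS (Finset.card_pos.1 (by omega)) hne
      refine ⟨insert y A, ?_, ?_, ?_⟩
      · apply Finset.insert_subset _ hAS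
        exact mem_vs.2 ⟨_, hay, by simp⟩
      · rw [Finset.card_insert_of_notMem hy, hAc]
      · refine (hA_step hreg ha hy hay).trans ?_
        calc d * hA F S A ≤ d * (Fintype.card V * d ^ k) := Nat.mul_le_mul_left _ hAb
          _ = _ := by ring
  have h1 : 0 < (vs S).card := by
    obtain ⟨e, he⟩ := hS.1
    induction e using Sym2.ind with
    | _ x y => exact Finset.card_pos.2 ⟨x, mem_vs.2 ⟨_, he, by simp⟩⟩
  obtain ⟨A, hAS, hAc, hAb⟩ := key ((vs S).card - 1) (by omega)
  have : A = vs S := Finset.eq_of_subset_of_card_le hAS (by omega)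
  rwa [this] at hAb

end Pool.Agent.H29.Thresh
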