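import Mathlib

/-! Product weights on the subsets of a finite ground set. -/

namespace Pool.Agent.H29.Thresh

open Finset

variable {α : Type*} [DecidableEq α]

/-- The product weight of `A ⊆ D` with density `p`. -/
noncomputable def mu (D : Finset α) (p : ℝ) (A : Finset α) : ℝ :=
  p ^ A.card * (1 - p) ^ (D.card - A.card)

lemma mu_nonneg (D : Finset α) {p : ℝ} (h0 : 0 ≤ p) (h1 : p ≤ 1) (A : Finset α) :
    0 ≤ mu D p A := by
  unfold mu
  have : 0 ≤ 1 - p := by linarith
  positivity

lemma sum_mu (D : Finset α) (p : ℝ) : ∑ A ∈ D.powerset, mu D p A = 1 := by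
  unfold mu
  rw [Finset.sum_pow_mul_eq_add_pow]
  simp

lemma sum_mu_sub {D U : Finset α} (hU : U ⊆ D) (p : ℝ) :
    ∑ A ∈ U.powerset, mu D p A = (1 - p) ^ (D.card - U.card) := by
  have h : ∀ A ∈ U.powerset, mu D p A
      = (1 - p) ^ (D.card - U.card) * (p ^ A.card * (1 - p) ^ (U.card - A.card)) := by
    intro A hA
    have h1 : A.card ≤ U.card := card_le_card (mem_powerset.1 hA)
    have h2 : U.card ≤ D.card := card_le_card hU
    unfold mu
    have h3 : D.card - A.card = (D.card - U.card) + (U.card - A.card) := by omega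
    rw [h3, pow_add]
    ring
  rw [Finset.sum_congr rfl h, ← Finset.mul_sum, Finset.sum_pow_mul_eq_add_pow]
  simp

/-- The union of two independent random sets is again a product random set. -/
lemma conv_point {D : Finset α} (p p' : ℝ) :
    ∀ U : Finset α, U ⊆ D →
      ∑ x ∈ (D.powerset ×ˢ D.powerset).filter (fun x => x.1 ∪ x.2 = U),
        mu D p x.1 * mu D p' x.2 = mu D (p + p' - p * p') U := by
  intro U
  induction U using Finset.strongInduction with
  | H U ih =>
    intro hU
    set c : Finset α → ℝ := fun U =>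
      ∑ x ∈ (D.powerset ×ˢ D.powerset).filter (fun x => x.1 ∪ x.2 = U),
        mu D p x.1 * mu D p' x.2 with hc
    have h1 : ∑ U' ∈ U.powerset, c U' = ∑ U' ∈ U.powerset, mu D (p + p' - p * p') U' := by
      have e1 : ∑ U' ∈ U.powerset, c U'
          = ∑ x ∈ U.powerset ×ˢ U.powerset, mu D p x.1 * mu D p' x.2 := by
        rw [← Finset.sum_fiberwise_of_maps_to (s := U.powerset ×ˢ U.powerset)
          (t := U.powerset) (g := fun x => x.1 ∪ x.2)]
        · apply Finset.sum_congr rfl
          intro U' hU'
          apply Finset.sum_congr _ (fun _ _ => rfl)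
          ext x
          simp only [mem_filter, mem_product, mem_powerset]
          constructor
          · rintro ⟨_, h⟩
            have : U' ⊆ U := mem_powerset.1 hU'
            refine ⟨⟨?_, ?_⟩, h⟩
            · exact (Finset.subset_union_left.trans h.le).trans this
            · exact (Finset.subset_union_right.trans h.le).trans this
          · rintro ⟨⟨h1, h2⟩, h⟩
            exact ⟨⟨h1.trans hU, h2.trans hU⟩, h⟩
        · intro x hx
          simp only [mem_product, mem_powerset] at hx ⊢
          exact Finset.union_subset hx.1 hx.2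
      rw [e1, Finset.sum_product]
      simp_rw [← Finset.mul_sum]
      rw [← Finset.sum_mul, sum_mu_sub hU, sum_mu_sub hU, sum_mu_sub hU, ← mul_pow]
      congr 1
      ring
    have h2 : ∑ U' ∈ U.powerset.erase U, c U'
        = ∑ U' ∈ U.powerset.erase U, mu D (p + p' - p * p') U' := by
      apply Finset.sum_congr rfl
      intro U' hU'
      rw [mem_erase, mem_powerset] at hU'
      exact ih U' (Finset.ssubset_iff_subset_ne.2 ⟨hU'.2, hU'.1⟩) (hU'.2.trans hU)
    have h3 := Finset.add_sum_erase U.powerset c (mem_powerset_self U)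
    have h4 := Finset.add_sum_erase U.powerset (mu D (p + p' - p * p')) (mem_powerset_self U)
    show c U = _
    linarith

lemma conv (D : Finset α) (p p' : ℝ) (h : Finset α → ℝ) :
    ∑ V ∈ D.powerset, ∑ W ∈ D.powerset, mu D p V * mu D p' W * h (V ∪ W)
      = ∑ U ∈ D.powerset, mu D (p + p' - p * p') U * h U := by
  rw [← Finset.sum_product' (f := fun V W => mu D p V * mu D p' W * h (V ∪ W))]
  rw [← Finset.sum_fiberwise_of_maps_to (s := D.powerset ×ˢ D.powerset)
          (t := D.powerset) (g := fun x => x.1 ∪ x.2)]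
  · apply Finset.sum_congr rfl
    intro U hU
    rw [← conv_point p p' U (mem_powerset.1 hU), Finset.sum_mul]
    apply Finset.sum_congr rfl
    intro x hx
    rw [(mem_filter.1 hx).2]
  · intro x hx
    simp only [mem_product, mem_powerset] at hx ⊢
    exact Finset.union_subset hx.1 hx.2

/-- Monotonicity in the density. -/
lemma mono_mu (D : Finset α) {p q : ℝ} (hp0 : 0 ≤ p) (hpq : p ≤ q) (hq1 : q ≤ 1)
    (hp1 : p < 1) (h : Finset α → ℝ) (hmono : ∀ A B, A ⊆ B → h A ≤ h B) :
    ∑ U ∈ D.powerset, mu D p U * h U ≤ ∑ U ∈ D.powerset, mu D q U * h U := by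
  set p' : ℝ := (q - p) / (1 - p) with hp'
  have h1p : 0 < 1 - p := by linarith
  have hq : p + p' - p * p' = q := by
    rw [hp']
    field_simp
    ring
  have hp'0 : 0 ≤ p' := div_nonneg (by linarith) h1p.le
  have hp'1 : p' ≤ 1 := by
    rw [hp', div_le_one h1p]
    linarith
  rw [← hq, ← conv]
  apply Finset.sum_le_sum
  intro V _
  have : mu D p V * h V = ∑ W ∈ D.powerset, mu D p V * mu D p' W * h V := by
    rw [← Finset.sum_mul, ← Finset.mul_sum, sum_mu, mul_one]
  rw [this]
  apply Finset.sum_le_sum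
  intro W _
  exact mul_le_mul_of_nonneg_left (hmono _ _ Finset.subset_union_left)
    (mul_nonneg (mu_nonneg D hp0 hp1.le V) (mu_nonneg D hp'0 hp'1 W))

/-- Shifting a random set by a fixed set. -/
lemma shift {D T : Finset α} (hT : T ⊆ D) {p : ℝ} (hp0 : 0 ≤ p) (hp1 : p ≤ 1)
    (h : Finset α → ℝ) (hh : ∀ A, 0 ≤ h A) :
    (∑ V ∈ D.powerset.filter (fun V => Disjoint V T), mu D p V * h (V ∪ T)) * p ^ T.card
      ≤ ∑ Z ∈ D.powerset, mu D p Z * h Z := by
  rw [Finset.sum_mul]
  have h1 : ∀ V ∈ D.powerset.filter (fun V => Disjoint V T),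
      mu D p V * h (V ∪ T) * p ^ T.card ≤ mu D p (V ∪ T) * h (V ∪ T) := by
    intro V hV
    rw [mem_filter, mem_powerset] at hV
    have hc : (V ∪ T).card = V.card + T.card := card_union_of_disjoint hV.2
    have hle : (V ∪ T).card ≤ D.card := card_le_card (Finset.union_subset hV.1 hT)
    have h1p : 0 ≤ 1 - p := by linarith
    have : mu D p V * p ^ T.card ≤ mu D p (V ∪ T) := by
      unfold mu
      rw [hc, pow_add]
      have h2 : (1 - p) ^ (D.card - V.card) ≤ (1 - p) ^ (D.card - (V.card + T.card)) :=
        pow_le_pow_of_le_one h1p (by linarith) (by omega)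
      calc p ^ V.card * (1 - p) ^ (D.card - V.card) * p ^ T.card
          = (p ^ V.card * p ^ T.card) * (1 - p) ^ (D.card - V.card) := by ring
        _ ≤ _ := mul_le_mul_of_nonneg_left h2 (by positivity)
    calc mu D p V * h (V ∪ T) * p ^ T.card = (mu D p V * p ^ T.card) * h (V ∪ T) := by ring
      _ ≤ _ := mul_le_mul_of_nonneg_right this (hh _)
  refine (Finset.sum_le_sum h1).trans ?_
  have hinj : Set.InjOn (fun V => V ∪ T)
      ((D.powerset.filter (fun V => Disjoint V T) : Finset (Finset α)) : Set (Finset α)) := by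
    intro V hV V' hV' hE
    rw [mem_coe, mem_filter] at hV hV'
    have e1 : (V ∪ T) \ T = V := by
      rw [Finset.union_sdiff_right]
      exact Finset.sdiff_eq_self_of_disjoint hV.2
    have e2 : (V' ∪ T) \ T = V' := by
      rw [Finset.union_sdiff_right]
      exact Finset.sdiff_eq_self_of_disjoint hV'.2
    have hE' : V ∪ T = V' ∪ T := hE
    rw [← e1, ← e2, hE']
  rw [← Finset.sum_image (f := fun Z => mu D p Z * h Z) hinj]
  apply Finset.sum_le_sum_of_subset_of_nonneg
  · intro Z hZ
    rw [mem_image] at hZ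
    obtain ⟨V, hV, rfl⟩ := hZ
    rw [mem_filter, mem_powerset] at hV
    exact mem_powerset.2 (Finset.union_subset hV.1 hT)
  · intro Z _ _
    exact mul_nonneg (mu_nonneg D hp0 hp1 Z) (hh Z)

end Pool.Agent.H29.Thresh
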