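import Pool.Agent.H29.Thresh.Local

/-! One round of sprinkling. -/

namespace Pool.Agent.H29.Thresh

open Finset

variable {V : Type*} [DecidableEq V] [Fintype V]

lemma PT_act (σ : Equiv.Perm V) (F S : Finset (Sym2 V)) : PT (act σ F) S = PT F S := by
  rw [PT_eq, PT_eq]
  congr 2
  refine Finset.card_bij (fun τ _ => σ⁻¹ * τ) ?_ ?_ ?_
  · intro τ hτ
    rw [mem_good] at hτ ⊢
    rw [act_mul, act_sub_iff, inv_inv]
    exact hτ
  · intro τ _ τ' _ h
    exact mul_left_cancel h
  · intro τ hτ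
    refine ⟨σ * τ, ?_, by simp⟩
    rw [mem_good] at hτ ⊢
    rw [act_mul]
    exact act_mono hτ

lemma orb_act_eq (σ : Equiv.Perm V) (T : Finset (Sym2 V)) : orb (act σ T) = orb T := by
  ext S
  rw [mem_orb, mem_orb]
  constructor
  · rintro ⟨τ, rfl⟩
    exact ⟨τ * σ, act_mul τ σ T⟩
  · rintro ⟨τ, rfl⟩
    exact ⟨τ * σ⁻¹, by rw [act_mul, act_inv_act]⟩

lemma Above_act {F : Finset (Sym2 V)} {q : ℝ} (h : Above F q) (σ : Equiv.Perm V) :
    Above (act σ F) q := by
  intro T hT
  have h1 : act σ⁻¹ T ⊆ F := by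
    have := act_mono (σ := σ⁻¹) hT
    rwa [act_inv_act] at this
  have h2 := h _ h1
  rwa [orb_act_eq, act_card] at h2

/-- Near independence of the components. -/
lemma near_indep (F T : Finset (Sym2 V)) {c : ℝ} (hv : (vs T).card < Fintype.card V)
    (hc : (Fintype.card V : ℝ) ^ 2 ≤ c * ((Fintype.card V : ℝ) - (vs T).card) ^ 2) (hc1 : 1 ≤ c) :
    PT F T ≤ ∏ S ∈ comps T, (PT F S * c ^ S.card) := by
  set n := Fintype.card V with hn
  set v := (vs T).card with hv'
  have hnv : (0 : ℝ) < (n : ℝ) - v := by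
    have : (v : ℝ) < n := by exact_mod_cast hv
    linarith
  have hnpos : (0 : ℝ) < (n : ℝ) := by
    have : (0 : ℝ) ≤ (v : ℝ) := by positivity
    linarith
  have hdd : ((n : ℝ) - v) ^ v ≤ (n.descFactorial v : ℝ) := by
    have h1 := Nat.pow_sub_le_descFactorial n v
    have h2 : ((n + 1 - v : ℕ) : ℝ) = (n : ℝ) + 1 - v := by
      rw [Nat.cast_sub (by omega)]; push_cast; ring
    have h3 : ((n + 1 - v : ℕ) : ℝ) ^ v ≤ (n.descFactorial v : ℝ) := by exact_mod_cast h1
    refine le_trans ?_ h3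
    apply pow_le_pow_left₀ hnv.le
    rw [h2]
    linarith
  have h1 : (hA F T (vs T) : ℝ) ≤ ∏ S ∈ comps T, (PT F S * (n : ℝ) ^ (vs S).card) := by
    have h2 : (hA F T (vs T) : ℝ) ≤ ∏ S ∈ comps T, (hA F S (vs S) : ℝ) := by
      exact_mod_cast hA_comps_le F T
    refine h2.trans (Finset.prod_le_prod (fun _ _ => by positivity) ?_)
    intro S _
    rw [PT_eq']
    have h3 : (0 : ℝ) < (n.descFactorial (vs S).card : ℝ) := by
      exact_mod_cast Nat.descFactorial_pos.2 (vs_card_le S)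
    have h4 : (n.descFactorial (vs S).card : ℝ) ≤ (n : ℝ) ^ (vs S).card := by
      exact_mod_cast Nat.descFactorial_le_pow n _
    rw [div_mul_eq_mul_div, le_div_iff₀ h3]
    exact mul_le_mul_of_nonneg_left h4 (by positivity)
  have h2 : PT F T ≤ (∏ S ∈ comps T, (PT F S * (n : ℝ) ^ (vs S).card)) / ((n : ℝ) - v) ^ v := by
    rw [PT_eq']
    apply div_le_div₀ _ h1 (by positivity) hdd
    apply Finset.prod_nonneg
    intro S _
    exact mul_nonneg (PF_nonneg _ _) (by positivity)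
  refine h2.trans ?_
  have h3 : ((n : ℝ) - v) ^ v = ∏ S ∈ comps T, ((n : ℝ) - v) ^ (vs S).card := by
    rw [Finset.prod_pow_eq_pow_sum, ← vs_card_eq_comps]
  rw [h3, ← Finset.prod_div_distrib]
  apply Finset.prod_le_prod
  · intro S _
    have := PF_nonneg (fun σ : Equiv.Perm V => act σ F) S
    exact div_nonneg (mul_nonneg this (by positivity)) (by positivity)
  · intro S _
    rw [mul_div_assoc]
    apply mul_le_mul_of_nonneg_left _ (PF_nonneg _ _)
    rw [← div_pow]
    have hr1 : 1 ≤ (n : ℝ) / ((n : ℝ) - v) := by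
      rw [le_div_iff₀ hnv]
      have : (0 : ℝ) ≤ (v : ℝ) := by positivity
      linarith
    have hr2 : ((n : ℝ) / ((n : ℝ) - v)) ^ 2 ≤ c := by
      rw [div_pow, div_le_iff₀ (by positivity)]
      exact hc
    calc ((n : ℝ) / ((n : ℝ) - v)) ^ (vs S).card ≤ ((n : ℝ) / ((n : ℝ) - v)) ^ (2 * S.card) :=
          pow_le_pow_right₀ hr1 (vs_card_le_two S)
      _ = (((n : ℝ) / ((n : ℝ) - v)) ^ 2) ^ S.card := by rw [pow_mul]
      _ ≤ c ^ S.card := pow_le_pow_left₀ (by positivity) hr2 _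

/-- Data for a round. -/
structure RD (d K : ℕ) (θ z : ℝ) (F : Finset (Sym2 V)) (q p η L : ℝ) : Prop where
  par : Par d K θ z
  hyp : Hyp d F
  ne : F.Nonempty
  hn : (Fintype.card V : ℝ) = z ^ (4 * K * d)
  hq : 0 < q
  above : Above F q
  hp : θ ^ 8 * q ≤ p
  hη : 0 < η
  hη1 : η ≤ 1
  hL : 2 * L + 3 ≤ Fintype.card V
  hL2 : (Fintype.card V : ℝ) ^ 2 ≤ θ * ((Fintype.card V : ℝ) - 2 * L) ^ 2

/-- local weight -/
noncomputable def gw (F : Finset (Sym2 V)) (θ q η : ℝ) (S : Finset (Sym2 V)) : ℝ :=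
  (1 / θ) ^ (6 * S.card) * (PT F S / q ^ S.card) / η

lemma gw_nonneg {F : Finset (Sym2 V)} {θ q η : ℝ} (hθ : 0 < θ) (hq : 0 < q) (hη : 0 < η)
    (S : Finset (Sym2 V)) : 0 ≤ gw F θ q η S := by
  unfold gw
  have := PF_nonneg (fun σ : Equiv.Perm V => act σ F) S
  have h2 : 0 ≤ PT F S := this
  positivity

lemma term_bound {d K : ℕ} {θ z : ℝ} {F : Finset (Sym2 V)} {q p η L : ℝ}
    (h : RD d K θ z F q p η L) {T : Finset (Sym2 V)} (hT : (T.card : ℝ) ≤ L) :
    PT F T / (p ^ (T \ mark T).card * (η * p) ^ (mark T).card)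
      ≤ (1 / θ) ^ T.card * ∏ S ∈ comps T, gw F θ q η S := by
  have hθ : 1 < θ := h.par.hθ
  have hθ0 : 0 < θ := by linarith
  have hq := h.hq
  have hη := h.hη
  have hp0 : 0 < p := lt_of_lt_of_le (by positivity) h.hp
  have hvT : ((vs T).card : ℝ) ≤ 2 * L := by
    have : ((vs T).card : ℝ) ≤ 2 * T.card := by exact_mod_cast vs_card_le_two T
    linarith
  have hvn : (vs T).card < Fintype.card V := by
    have : ((vs T).card : ℝ) < Fintype.card V := by linarith [h.hL]
    exact_mod_cast this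
  have h1 : PT F T ≤ ∏ S ∈ comps T, (PT F S * θ ^ S.card) := by
    apply near_indep F T hvn _ hθ.le
    refine h.hL2.trans (mul_le_mul_of_nonneg_left ?_ hθ0.le)
    apply pow_le_pow_left₀
    · linarith [h.hL]
    · linarith
  have hc : T.card = (T \ mark T).card + (mark T).card := by
    rw [Finset.card_sdiff_add_card_eq_card (mark_sub T)]
  have h2 : (θ ^ 8 * q) ^ T.card * η ^ (comps T).card
      ≤ p ^ (T \ mark T).card * (η * p) ^ (mark T).card := by
    have e1 : p ^ (T \ mark T).card * (η * p) ^ (mark T).card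
        = p ^ T.card * η ^ (mark T).card := by
      rw [mul_pow, hc, pow_add]; ring
    rw [e1]
    apply mul_le_mul
    · exact pow_le_pow_left₀ (by positivity) h.hp _
    · exact pow_le_pow_of_le_one hη.le h.hη1 (mark_card_le T)
    · positivity
    · positivity
  have h3 : PT F T / (p ^ (T \ mark T).card * (η * p) ^ (mark T).card)
      ≤ (∏ S ∈ comps T, (PT F S * θ ^ S.card)) / ((θ ^ 8 * q) ^ T.card * η ^ (comps T).card) := by
    apply div_le_div₀ _ h1 (by positivity) h2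
    apply Finset.prod_nonneg
    intro S _
    exact mul_nonneg (PF_nonneg _ _) (by positivity)
  refine h3.trans (le_of_eq ?_)
  have e2 : (θ ^ 8 * q) ^ T.card = ∏ S ∈ comps T, (θ ^ 8 * q) ^ S.card := by
    rw [Finset.prod_pow_eq_pow_sum, ← card_eq_comps]
  have e3 : η ^ (comps T).card = ∏ S ∈ comps T, η := by
    rw [Finset.prod_const]
  have e4 : (1 / θ) ^ T.card = ∏ S ∈ comps T, (1 / θ) ^ S.card := by
    rw [Finset.prod_pow_eq_pow_sum, ← card_eq_comps]
  rw [e2, e3, e4, ← Finset.prod_mul_distrib, ← Finset.prod_div_distrib,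
    ← Finset.prod_mul_distrib]
  apply Finset.prod_congr rfl
  intro S _
  unfold gw
  rw [mul_pow, ← pow_mul]
  have e5 : θ ^ (8 * S.card) = θ ^ S.card * (θ ^ S.card * θ ^ (6 * S.card)) := by
    rw [← pow_add, ← pow_add]; congr 1; ring
  rw [e5, one_div, inv_pow, inv_pow]
  field_simp

open Classical in
/-- The components which may occur. -/
noncomputable def admS (d : ℕ) (F E : Finset (Sym2 V)) : Finset (Finset (Sym2 V)) :=
  F.powerset.filter (fun S => Conn S ∧ (∃ e ∈ S, e ∈ E) ∧ d + 1 ≤ bd d S)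

lemma sum_admS {d K : ℕ} {θ z : ℝ} {F : Finset (Sym2 V)} {q p η L : ℝ}
    (h : RD d K θ z F q p η L) (σ : Equiv.Perm V) (E : Finset (Sym2 V)) :
    ∑ S ∈ admS d (act σ F) E, gw F θ q η S ≤ E.card * (1 / (η * z)) := by
  classical
  have hθ : 1 < θ := h.par.hθ
  have hθ0 : 0 < θ := by linarith
  have hnn := gw_nonneg (F := F) hθ0 h.hq h.hη
  have h1 : ∀ S ∈ admS d (act σ F) E, gw F θ q η S
      ≤ ∑ e ∈ E, if e ∈ S then gw F θ q η S else 0 := by
    intro S hS
    unfold admS at hS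
    rw [mem_filter] at hS
    obtain ⟨e, he, heE⟩ := hS.2.2.1
    have h2 := Finset.single_le_sum (f := fun e => if e ∈ S then gw F θ q η S else 0)
      (fun e _ => by
        show 0 ≤ if e ∈ S then gw F θ q η S else 0
        split_ifs
        · exact hnn S
        · exact le_rfl) heE
    simp only [if_pos he] at h2
    exact h2
  refine (Finset.sum_le_sum h1).trans ?_
  rw [Finset.sum_comm, ← nsmul_eq_mul, ← Finset.sum_const]
  apply Finset.sum_le_sum
  intro e _
  obtain ⟨x, hx⟩ : ∃ x, x ∈ e := by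
    induction e using Sym2.ind with
    | _ x y => exact ⟨x, by simp⟩
  have hls := local_sum h.par (hyp_act h.hyp σ) (by
    rw [← Finset.card_pos, act_card]; exact h.ne.card_pos) h.hn h.hq (Above_act h.above σ) x
  rw [← Finset.sum_filter]
  have h3 : ∑ S ∈ (admS d (act σ F) E).filter (fun S => e ∈ S), gw F θ q η S
      ≤ ∑ S ∈ (act σ F).powerset.filter (fun S => Conn S ∧ x ∈ vs S ∧ d + 1 ≤ bd d S),
        (1 / θ) ^ (6 * S.card) * (PT (act σ F) S / q ^ S.card) / η := by
    have h4 : ∀ S, gw F θ q η S = (1 / θ) ^ (6 * S.card) * (PT (act σ F) S / q ^ S.card) / η := by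
      intro S
      unfold gw
      rw [PT_act]
    simp_rw [← h4]
    apply Finset.sum_le_sum_of_subset_of_nonneg
    · intro S hS
      unfold admS at hS
      simp only [mem_filter] at hS ⊢
      exact ⟨hS.1.1, hS.1.2.1, mem_vs.2 ⟨e, hS.2, hx⟩, hS.1.2.2.2⟩
    · intro S _ _
      exact hnn S
  refine h3.trans ?_
  rw [← Finset.sum_div, div_le_iff₀ h.hη]
  refine hls.trans (le_of_eq ?_)
  have hη := h.hη
  have hz : 0 < z := by linarith [h.par.hz1]
  field_simp

lemma comps_adm {d K : ℕ} {θ z : ℝ} {F : Finset (Sym2 V)} {q p η L : ℝ}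
    (h : RD d K θ z F q p η L) (σ : Equiv.Perm V) {E T : Finset (Sym2 V)}
    (hT : T ⊆ act σ F) (hTL : (T.card : ℝ) ≤ L) (hm : mark T ⊆ E) :
    comps T ⊆ admS d (act σ F) E := by
  classical
  intro S hS
  unfold admS
  rw [mem_filter, mem_powerset]
  have hSF : S ⊆ act σ F := (comps_sub hS).trans hT
  refine ⟨hSF, comps_conn hS, ?_, ?_⟩
  · obtain ⟨e, he, he'⟩ := mark_meets hS
    exact ⟨e, he, hm he'⟩
  · have hv : (vs S).card + 3 ≤ Fintype.card V := by
      have h1 : ((vs S).card : ℝ) ≤ 2 * S.card := by exact_mod_cast vs_card_le_two S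
      have h2 : (S.card : ℝ) ≤ T.card := by exact_mod_cast card_le_card (comps_sub hS)
      have h3 : ((vs S).card : ℝ) + 3 ≤ Fintype.card V := by linarith [h.hL]
      exact_mod_cast h3
    have := (hyp_act h.hyp σ).cut S hSF (comps_conn hS) hv
    unfold bd
    omega

lemma round_sum {d K : ℕ} {θ z : ℝ} {F : Finset (Sym2 V)} {q p η L : ℝ}
    (h : RD d K θ z F q p η L) {L' : ℝ} (σ : Equiv.Perm V) {E : Finset (Sym2 V)}
    (hE : (E.card : ℝ) ≤ 2 * L) :
    ∑ T ∈ (act σ F).powerset.filter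
        (fun T => L' < (T.card : ℝ) ∧ (T.card : ℝ) ≤ L ∧ mark T ⊆ E),
      PF (fun σ : Equiv.Perm V => act σ F) T / (p ^ (T \ mark T).card * (η * p) ^ (mark T).card)
      ≤ θ ^ (-L') * Real.exp (2 * L / (η * z)) := by
  have hθ : 1 < θ := h.par.hθ
  have hθ0 : 0 < θ := by linarith
  have hz : 0 < z := by linarith [h.par.hz1]
  have hη := h.hη
  have hnn := gw_nonneg (F := F) hθ0 h.hq h.hη
  have h1 : ∀ T ∈ (act σ F).powerset.filter
        (fun T => L' < (T.card : ℝ) ∧ (T.card : ℝ) ≤ L ∧ mark T ⊆ E),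
      PF (fun σ : Equiv.Perm V => act σ F) T / (p ^ (T \ mark T).card * (η * p) ^ (mark T).card)
        ≤ θ ^ (-L') * ∏ S ∈ comps T, gw F θ q η S := by
    intro T hT
    rw [mem_filter] at hT
    refine (term_bound h hT.2.2.1).trans ?_
    apply mul_le_mul_of_nonneg_right _ (Finset.prod_nonneg (fun S _ => hnn S))
    rw [one_div, inv_pow, ← Real.rpow_natCast, ← Real.rpow_neg hθ0.le]
    apply Real.rpow_le_rpow_of_exponent_le hθ.le
    linarith [hT.2.1]
  refine (Finset.sum_le_sum h1).trans ?_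
  rw [← Finset.mul_sum]
  apply mul_le_mul_of_nonneg_left _ (by positivity)
  refine (polymer _ (admS d (act σ F) E) _ hnn ?_).trans ?_
  · intro T hT
    rw [mem_filter, mem_powerset] at hT
    exact comps_adm h σ hT.1 hT.2.2.1 hT.2.2.2
  · apply Real.exp_le_exp.2
    refine (sum_admS h σ E).trans ?_
    rw [mul_one_div]
    exact div_le_div_of_nonneg_right hE (by positivity)

lemma round_sum0 {d K : ℕ} {θ z : ℝ} {F : Finset (Sym2 V)} {q p η L : ℝ}
    (h : RD d K θ z F q p η L) (σ : Equiv.Perm V) {E : Finset (Sym2 V)}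
    (hE : (E.card : ℝ) ≤ 2 * L) :
    ∑ T ∈ (act σ F).powerset.filter
        (fun T => (0 : ℝ) < (T.card : ℝ) ∧ (T.card : ℝ) ≤ L ∧ mark T ⊆ E),
      PF (fun σ : Equiv.Perm V => act σ F) T / (p ^ (T \ mark T).card * (η * p) ^ (mark T).card)
      ≤ Real.exp (2 * L / (η * z)) - 1 := by
  have hθ : 1 < θ := h.par.hθ
  have hθ0 : 0 < θ := by linarith
  have hz : 0 < z := by linarith [h.par.hz1]
  have hη := h.hη
  have hnn := gw_nonneg (F := F) hθ0 h.hq h.hη
  have h1 : ∀ T ∈ (act σ F).powerset.filter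
        (fun T => (0 : ℝ) < (T.card : ℝ) ∧ (T.card : ℝ) ≤ L ∧ mark T ⊆ E),
      PF (fun σ : Equiv.Perm V => act σ F) T / (p ^ (T \ mark T).card * (η * p) ^ (mark T).card)
        ≤ ∏ S ∈ comps T, gw F θ q η S := by
    intro T hT
    rw [mem_filter] at hT
    refine (term_bound h hT.2.2.1).trans ?_
    have h2 : (1 / θ) ^ T.card ≤ 1 := by
      apply pow_le_one₀ (by positivity)
      rw [div_le_one hθ0]; exact hθ.le
    calc _ ≤ 1 * ∏ S ∈ comps T, gw F θ q η S :=
          mul_le_mul_of_nonneg_right h2 (Finset.prod_nonneg (fun S _ => hnn S))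
      _ = _ := one_mul _
  refine (Finset.sum_le_sum h1).trans ?_
  refine (polymer' _ (admS d (act σ F) E) _ hnn ?_ ?_).trans ?_
  · intro T hT
    rw [mem_filter, mem_powerset] at hT
    exact comps_adm h σ hT.1 hT.2.2.1 hT.2.2.2
  · intro hT
    rw [mem_filter] at hT
    simp at hT
  · apply sub_le_sub_right
    apply Real.exp_le_exp.2
    refine (sum_admS h σ E).trans ?_
    rw [mul_one_div]
    exact div_le_div_of_nonneg_right hE (by positivity)

/-- One intermediate round. -/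
theorem round {d K : ℕ} {θ z : ℝ} {F : Finset (Sym2 V)} {q p η L : ℝ}
    (h : RD d K θ z F q p η L) {D : Finset (Sym2 V)} (hD : ∀ σ : Equiv.Perm V, act σ F ⊆ D)
    (hp1 : p ≤ 1) (L' : ℝ) :
    fail D (fun σ : Equiv.Perm V => act σ F) (p + η * p - p * (η * p)) L'
      ≤ fail D (fun σ : Equiv.Perm V => act σ F) p L
        + θ ^ (-L') * Real.exp (2 * L / (η * z)) := by
  have hθ : 1 < θ := h.par.hθ
  have hθ0 : 0 < θ := by linarith
  have hq := h.hq
  have hη := h.hη
  have hp0 : 0 < p := lt_of_lt_of_le (by positivity) h.hp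
  apply key hD hp0.le hp1 (by positivity) _ mark mark_sub (Or.inl hp0)
  · intro σ E _ hE
    exact round_sum h σ hE
  · positivity
  · calc η * p ≤ 1 * 1 := mul_le_mul h.hη1 hp1 hp0.le (by norm_num)
      _ = 1 := one_mul 1

/-- The last round. -/
theorem round0 {d K : ℕ} {θ z : ℝ} {F : Finset (Sym2 V)} {q p η L : ℝ}
    (h : RD d K θ z F q p η L) {D : Finset (Sym2 V)} (hD : ∀ σ : Equiv.Perm V, act σ F ⊆ D)
    (hp1 : p ≤ 1) (hL : 0 ≤ L) :
    fail D (fun σ : Equiv.Perm V => act σ F) (p + η * p - p * (η * p)) 0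
      ≤ fail D (fun σ : Equiv.Perm V => act σ F) p L
        + (Real.exp (2 * L / (η * z)) - 1) := by
  have hθ : 1 < θ := h.par.hθ
  have hθ0 : 0 < θ := by linarith
  have hz : 0 < z := by linarith [h.par.hz1]
  have hq := h.hq
  have hη := h.hη
  have hp0 : 0 < p := lt_of_lt_of_le (by positivity) h.hp
  apply key hD hp0.le hp1 (by positivity) _ mark mark_sub (Or.inl hp0)
  · intro σ E _ hE
    exact round_sum0 h σ hE
  · have : 0 ≤ 2 * L / (η * z) := by positivity
    have := Real.add_one_le_exp (2 * L / (η * z))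
    linarith
  · calc η * p ≤ 1 * 1 := mul_le_mul h.hη1 hp1 hp0.le (by norm_num)
      _ = 1 := one_mul 1

end Pool.Agent.H29.Thresh
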